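import Mathlib
import Pool.Agent.H452R2.PO.P4

open Pool.Agent.H387R2.Vor
open Pool.Agent.H383.PZ

namespace Pool.Agent.H452R3.BS

/-- finite trigonometric sum with complex coefficients at a real argument (`ex y = exp (2 π i y)`) -/
noncomputable def CT (I : Finset ℕ) (d : ℕ → ℂ) (lam : ℕ → ℝ) (t : ℝ) : ℝ :=
  ∑ m ∈ I, (d m * ex (t * lam m)).re

/-- the quarter kernel at the frequency `x`, total mass one -/
noncomputable def ka (ρ x : ℝ) : ℂ := (((1 - ρ) ^ (1/4:ℝ) : ℝ) : ℂ) / (1 - (ρ:ℂ) * ex x) ^ (1/4:ℂ)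

/-- number of quarter kernels -/
def jj (k : ℕ) : ℕ := if k % 4 = 1 then 2 else if k % 4 = 3 then 6 else 4

/-- order of the averaging kernel -/
noncomputable def tau (k : ℕ) : ℝ := (jj k : ℝ) / 4

/-- the exponent of `m` in the weights -/
noncomputable def th (k : ℕ) (τ : ℝ) : ℝ := ((k:ℝ) + 1 + 2 * τ) / (2 * k)

/-- the exponent of `log log x` -/
noncomputable def EE (k : ℕ) (τ : ℝ) : ℝ :=
  ((k:ℝ) - 1) + ((k:ℝ) - 1) / ((k:ℝ) - 1 - 2 * τ) * (th k τ * ((k:ℝ) ^ (1 / th k τ) - 1) - ((k:ℝ) - 1))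

end Pool.Agent.H452R3.BS
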