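import Mathlib
import Pool.Agent.H452R3.BS.Defs

/-!
The choice of the direction of rotation.
-/

open Filter Topology
open Pool.Agent.H387R2.Vor
open Pool.Agent.H383.PZ
open Pool.Agent.H452R2.PO

namespace Pool.Agent.H452R3.BS

lemma an_cos {y : ℝ} (h : |y| ≤ Real.pi / 3) : 1 / 2 ≤ Real.cos y := by
  rw [← Real.cos_abs y, ← Real.cos_pi_div_three]
  have hpi := Real.pi_pos
  exact Real.cos_le_cos_of_nonneg_of_le_pi (abs_nonneg y) (by linarith) h

lemma an_pos {θ y : ℝ} (n : ℤ) (h : θ = y + n * (2 * Real.pi)) (hy : |y| ≤ Real.pi / 3) :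
    1 / 2 ≤ 1 * Real.cos θ := by
  rw [h, one_mul, Real.cos_add_int_mul_two_pi]
  exact an_cos hy

lemma an_neg {θ y : ℝ} (n : ℤ) (h : θ = y + Real.pi + n * (2 * Real.pi)) (hy : |y| ≤ Real.pi / 3) :
    1 / 2 ≤ -1 * Real.cos θ := by
  rw [h, Real.cos_add_int_mul_two_pi, Real.cos_add_pi]
  have := an_cos hy
  linarith

/-- Task AN -/
theorem angle {k : ℕ} {s : ℝ} (hs : s = 1 ∨ s = -1) (hc : k % 4 = 1 ∨ s = -(sg k)) :
    ∃ η : ℝ, (η = 1 ∨ η = -1) ∧ ∀ ω : ℝ, Real.pi / 9 ≤ ω → ω ≤ Real.pi / 8 →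
      1/2 ≤ s * Real.cos (((k:ℝ) - 3) * Real.pi / 4 + η * (jj k * ω)) := by
  obtain ⟨q, r, hr, hk⟩ : ∃ q r : ℕ, r < 8 ∧ k = 8 * q + r :=
    ⟨k / 8, k % 8, Nat.mod_lt _ (by norm_num), by omega⟩
  have hkr : (k : ℝ) = 8 * q + r := by
    rw [hk]; push_cast; ring
  have h8 : k % 8 = r := by omega
  have h44 : k % 4 = r % 4 := by omega
  have hpi := Real.pi_pos
  unfold sg at hc
  unfold jj
  rw [h8, h44] at hc
  rw [h44, hkr]
  interval_cases r
  · -- r = 0
    have hs1 : s = 1 := by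
      rcases hc with h | h
      · norm_num at h
      · norm_num at h; exact h
    refine ⟨1, Or.inl rfl, ?_⟩
    intro ω h1 h2
    rw [hs1]
    norm_num
    have h := an_pos (θ := (8 * (q:ℝ) - 3) * Real.pi / 4 + 4 * ω) (y := -(3 * Real.pi / 4) + 4 * ω)
      (q : ℤ) (by push_cast; ring) (by rw [abs_le]; constructor <;> linarith)
    linarith
  · -- r = 1
    rcases hs with hs | hs
    · refine ⟨1, Or.inl rfl, ?_⟩
      intro ω h1 h2
      rw [hs]
      norm_num
      have h := an_pos (θ := (8 * (q:ℝ) + 1 - 3) * Real.pi / 4 + 2 * ω) (y := -(Real.pi / 2) + 2 * ω)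
        (q : ℤ) (by push_cast; ring) (by rw [abs_le]; constructor <;> linarith)
      linarith
    · refine ⟨-1, Or.inr rfl, ?_⟩
      intro ω h1 h2
      rw [hs]
      norm_num
      have h := an_neg (θ := (8 * (q:ℝ) + 1 - 3) * Real.pi / 4 + -(2 * ω))
        (y := (Real.pi / 2) - 2 * ω)
        ((q : ℤ) - 1) (by push_cast; ring) (by rw [abs_le]; constructor <;> linarith)
      linarith
  · -- r = 2
    have hs1 : s = -1 := by
      rcases hc with h | h
      · norm_num at h
      · norm_num at h; exact h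
    refine ⟨-1, Or.inr rfl, ?_⟩
    intro ω h1 h2
    rw [hs1]
    norm_num
    have h := an_neg (θ := (8 * (q:ℝ) + 2 - 3) * Real.pi / 4 + -(4 * ω))
      (y := (3 * Real.pi / 4) - 4 * ω)
      ((q : ℤ) - 1) (by push_cast; ring) (by rw [abs_le]; constructor <;> linarith)
    linarith
  · -- r = 3
    have hs1 : s = -1 := by
      rcases hc with h | h
      · norm_num at h
      · norm_num at h; exact h
    refine ⟨1, Or.inl rfl, ?_⟩
    intro ω h1 h2
    rw [hs1]
    norm_num
    have h := an_neg (θ := (8 * (q:ℝ) + 3 - 3) * Real.pi / 4 + 6 * ω)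
      (y := 6 * ω - Real.pi)
      (q : ℤ) (by push_cast; ring) (by rw [abs_le]; constructor <;> linarith)
    have e : (8 * (q:ℝ) + 3 - 3) = 8 * q := by ring
    rw [e] at h
    linarith
  · -- r = 4
    have hs1 : s = -1 := by
      rcases hc with h | h
      · norm_num at h
      · norm_num at h; exact h
    refine ⟨1, Or.inl rfl, ?_⟩
    intro ω h1 h2
    rw [hs1]
    norm_num
    have h := an_neg (θ := (8 * (q:ℝ) + 4 - 3) * Real.pi / 4 + 4 * ω)
      (y := 4 * ω - 3 * Real.pi / 4)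
      (q : ℤ) (by push_cast; ring) (by rw [abs_le]; constructor <;> linarith)
    linarith
  · -- r = 5
    rcases hs with hs | hs
    · refine ⟨-1, Or.inr rfl, ?_⟩
      intro ω h1 h2
      rw [hs]
      norm_num
      have h := an_pos (θ := (8 * (q:ℝ) + 5 - 3) * Real.pi / 4 + -(2 * ω)) (y := Real.pi / 2 - 2 * ω)
        (q : ℤ) (by push_cast; ring) (by rw [abs_le]; constructor <;> linarith)
      linarith
    · refine ⟨1, Or.inl rfl, ?_⟩
      intro ω h1 h2
      rw [hs]
      norm_num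
      have h := an_neg (θ := (8 * (q:ℝ) + 5 - 3) * Real.pi / 4 + 2 * ω)
        (y := 2 * ω - Real.pi / 2)
        (q : ℤ) (by push_cast; ring) (by rw [abs_le]; constructor <;> linarith)
      linarith
  · -- r = 6
    have hs1 : s = 1 := by
      rcases hc with h | h
      · norm_num at h
      · norm_num at h; exact h
    refine ⟨-1, Or.inr rfl, ?_⟩
    intro ω h1 h2
    rw [hs1]
    norm_num
    have h := an_pos (θ := (8 * (q:ℝ) + 6 - 3) * Real.pi / 4 + -(4 * ω))
      (y := 3 * Real.pi / 4 - 4 * ω)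
      (q : ℤ) (by push_cast; ring) (by rw [abs_le]; constructor <;> linarith)
    linarith
  · -- r = 7
    have hs1 : s = 1 := by
      rcases hc with h | h
      · norm_num at h
      · norm_num at h; exact h
    refine ⟨-1, Or.inr rfl, ?_⟩
    intro ω h1 h2
    rw [hs1]
    norm_num
    have h := an_pos (θ := (8 * (q:ℝ) + 7 - 3) * Real.pi / 4 + -(6 * ω))
      (y := Real.pi - 6 * ω)
      (q : ℤ) (by push_cast; ring) (by rw [abs_le]; constructor <;> linarith)
    linarith

end Pool.Agent.H452R3.BS
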