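import Mathlib
import Pool.Agent.H452R3.BS.Defs

open Filter Topology
open Pool.Agent.H387R2.Vor
open Pool.Agent.H383.PZ
open Pool.Agent.H452R2.PO

namespace Pool.Agent.H452R3.BS

theorem KA_eq {ρ : ℝ} (h1 : ρ < 1) {z : ℂ} (hz : z ≠ 0) :
    (((1 - ρ) ^ (1/4:ℝ) : ℝ) : ℂ) / z ^ (1/4:ℂ) =
      ((((1 - ρ) / ‖z‖) ^ (1/4:ℝ) : ℝ) : ℂ) * Complex.exp (((-(z.arg / 4) : ℝ) : ℂ) * Complex.I) := by
  have hn : 0 < ‖z‖ := norm_pos_iff.2 hz
  have h1' : 0 < 1 - ρ := by linarith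
  have e1 : z ^ (1/4:ℂ) = ((‖z‖ ^ (1/4:ℝ) : ℝ) : ℂ) * Complex.exp (((z.arg / 4 : ℝ) : ℂ) * Complex.I) := by
    rw [Complex.cpow_def_of_ne_zero hz, Real.rpow_def_of_pos hn, Complex.ofReal_exp, ← Complex.exp_add]
    congr 1
    apply Complex.ext
    · simp [Complex.log_re]
    · simp [Complex.log_im]; ring
  have h3 : ((‖z‖ ^ (1/4:ℝ) : ℝ) : ℂ) ≠ 0 := by
    exact_mod_cast (Real.rpow_pos_of_pos hn _).ne'
  have e2 : Complex.exp (((-(z.arg / 4) : ℝ) : ℂ) * Complex.I) =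
      (Complex.exp (((z.arg / 4 : ℝ) : ℂ) * Complex.I))⁻¹ := by
    rw [Complex.ofReal_neg, neg_mul, Complex.exp_neg]
  have e3 : ((((1 - ρ) / ‖z‖) ^ (1/4:ℝ) : ℝ) : ℂ) =
      (((1 - ρ) ^ (1/4:ℝ) : ℝ) : ℂ) * ((‖z‖ ^ (1/4:ℝ) : ℝ) : ℂ)⁻¹ := by
    rw [Real.div_rpow h1'.le hn.le, Complex.ofReal_div]
    exact div_eq_mul_inv _ _
  rw [e1, e2, e3]
  generalize (((1 - ρ) ^ (1/4:ℝ) : ℝ) : ℂ) = a
  generalize ((‖z‖ ^ (1/4:ℝ) : ℝ) : ℂ) = b
  generalize Complex.exp (((z.arg / 4 : ℝ) : ℂ) * Complex.I) = c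
  rw [div_eq_mul_inv, mul_inv, mul_assoc]

theorem KA_norm_z {ρ : ℝ} (h0 : 0 ≤ ρ) (x : ℝ) : 1 - ρ ≤ ‖1 - (ρ:ℂ) * ex x‖ := by
  have h := norm_sub_norm_le (1 : ℂ) ((ρ:ℂ) * ex x)
  rw [norm_mul, Complex.norm_real, Real.norm_eq_abs, abs_of_nonneg h0, norm_one] at h
  have h2 : ‖ex x‖ = 1 := by
    unfold ex
    exact Complex.norm_exp_ofReal_mul_I _
  rw [h2, mul_one] at h
  exact h

theorem ka_norm_le {ρ : ℝ} (h0 : 0 ≤ ρ) (h1 : ρ < 1) (x : ℝ) : ‖ka ρ x‖ ≤ 1 := by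
  have h2 := KA_norm_z h0 x
  have hz : (1 - (ρ:ℂ) * ex x) ≠ 0 := by
    intro h
    rw [h, norm_zero] at h2
    linarith
  have hn : 0 < ‖1 - (ρ:ℂ) * ex x‖ := norm_pos_iff.2 hz
  unfold ka
  rw [KA_eq h1 hz, norm_mul, Complex.norm_exp_ofReal_mul_I, mul_one, Complex.norm_real,
    Real.norm_eq_abs, abs_of_nonneg (Real.rpow_nonneg (div_nonneg (by linarith) hn.le) _)]
  exact Real.rpow_le_one (div_nonneg (by linarith) hn.le) ((div_le_one hn).2 h2) (by norm_num)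

theorem KA_re (ρ x : ℝ) : (1 - (ρ:ℂ) * ex x).re = 1 - ρ * Real.cos (2 * Real.pi * x) := by
  unfold ex
  rw [Complex.sub_re, Complex.one_re, Complex.re_ofReal_mul, Complex.exp_ofReal_mul_I_re]

theorem KA_im (ρ x : ℝ) : (1 - (ρ:ℂ) * ex x).im = -(ρ * Real.sin (2 * Real.pi * x)) := by
  unfold ex
  rw [Complex.sub_im, Complex.one_im, Complex.im_ofReal_mul, Complex.exp_ofReal_mul_I_im, zero_sub]

theorem ka_polar {ρ : ℝ} (h1 : ρ < 1) {x : ℝ} (hx1 : 4 * (1 - ρ) ≤ x) (hx2 : x ≤ 1/1000) :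
    ∃ r ω : ℝ, ((1 - ρ) / (4 * Real.pi * x)) ^ (1/4:ℝ) ≤ r ∧ r ≤ 1 ∧ Real.pi / 9 ≤ ω ∧ ω ≤ Real.pi / 8 ∧
      ka ρ x = (r : ℂ) * Complex.exp (((ω : ℝ) : ℂ) * Complex.I) ∧
      ka ρ (-x) = (r : ℂ) * Complex.exp (((-ω : ℝ) : ℂ) * Complex.I) := by
  have hx0 : 0 < x := by linarith
  have hρ : 1 - 1 / 4000 ≤ ρ := by linarith
  have h0 : 0 ≤ ρ := by linarith
  have hpi := Real.pi_pos
  have hpi2 := Real.pi_lt_d2
  have hpi3 := Real.pi_gt_d2
  set z : ℂ := 1 - (ρ:ℂ) * ex x with hzdef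
  have hnz : 1 - ρ ≤ ‖z‖ := KA_norm_z h0 x
  have hz : z ≠ 0 := by
    intro h
    rw [h, norm_zero] at hnz
    linarith
  have hn : 0 < ‖z‖ := norm_pos_iff.2 hz
  set θ : ℝ := 2 * Real.pi * x with hθ
  have hθ0 : 0 < θ := by positivity
  have hθ1 : θ ≤ 1 / 100 := by rw [hθ]; nlinarith
  have hre : z.re = 1 - ρ * Real.cos θ := KA_re ρ x
  have him : z.im = -(ρ * Real.sin θ) := KA_im ρ x
  have hcos : 1 - θ ^ 2 / 2 ≤ Real.cos θ := Real.one_sub_sq_div_two_le_cos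
  have hcos1 : Real.cos θ ≤ 1 := Real.cos_le_one θ
  have hsin : 2 / Real.pi * θ ≤ Real.sin θ := Real.mul_le_sin hθ0.le (by linarith)
  have hsin4 : 4 * x ≤ Real.sin θ := by
    have : 2 / Real.pi * θ = 4 * x := by rw [hθ]; field_simp; ring
    linarith
  have hθsq : θ ^ 2 ≤ 40 * x ^ 2 := by
    rw [hθ, mul_pow, mul_pow]
    have : Real.pi ^ 2 ≤ 10 := by nlinarith
    nlinarith [sq_nonneg x]
  have hθsq2 : θ ^ 2 ≤ 4 / 100 * x := by nlinarith
  have hreub : z.re ≤ 27 / 100 * x := by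
    rw [hre]
    nlinarith
  have hrepos : 0 < z.re := by
    rw [hre]
    nlinarith
  have himneg : z.im < 0 := by
    rw [him]
    nlinarith
  have himub : 39 / 10 * x ≤ -z.im := by
    rw [him]
    nlinarith
  -- the norm
  have hnub : ‖z‖ ≤ 4 * Real.pi * x := by
    have e1 : ‖z‖ ^ 2 = z.re ^ 2 + z.im ^ 2 := by
      rw [Complex.sq_norm, Complex.normSq_apply]; ring
    have hs := Real.sin_sq_add_cos_sq θ
    have e2 : ‖z‖ ^ 2 = (1 - ρ) ^ 2 + 2 * ρ * (1 - Real.cos θ) := by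
      rw [e1, hre, him]
      nlinarith
    have e3 : ‖z‖ ^ 2 ≤ (4 * Real.pi * x) ^ 2 := by
      rw [e2]
      have h5 : (1 - ρ) ^ 2 ≤ x ^ 2 := by
        apply pow_le_pow_left₀ (by linarith)
        linarith
      have h6 : 2 * ρ * (1 - Real.cos θ) ≤ θ ^ 2 := by nlinarith
      have h7 : (9 : ℝ) ≤ Real.pi ^ 2 := by nlinarith
      have h8 : (4 * Real.pi * x) ^ 2 = 16 * Real.pi ^ 2 * x ^ 2 := by ring
      rw [h8]
      nlinarith [sq_nonneg x]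
    exact (pow_le_pow_iff_left₀ hn.le (by positivity) (by norm_num)).1 e3
  -- the argument
  have hargneg : z.arg < 0 := Complex.arg_neg_iff.2 himneg
  have hargabs : |z.arg| < Real.pi / 2 := by
    rw [Complex.abs_arg_lt_pi_div_two_iff]; left; exact hrepos
  have hargub : z.arg ≤ -(4 * Real.pi / 9) := by
    by_contra hcon
    push Not at hcon
    have h5 : Real.cos (4 * Real.pi / 9) ≤ Real.cos z.arg := by
      rw [← Real.cos_neg z.arg]
      apply Real.cos_le_cos_of_nonneg_of_le_pi (by linarith) (by linarith) (by linarith)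
    have h6 : Real.cos (4 * Real.pi / 9) = Real.sin (Real.pi / 18) := by
      rw [← Real.cos_pi_div_two_sub]
      congr 1; ring
    have h7 : 2 / Real.pi * (Real.pi / 18) ≤ Real.sin (Real.pi / 18) :=
      Real.mul_le_sin (by positivity) (by linarith)
    have h8 : 2 / Real.pi * (Real.pi / 18) = 1 / 9 := by field_simp; norm_num
    have h9 : 1 / 9 ≤ Real.cos z.arg := by linarith
    have h10 : z.re = ‖z‖ * Real.cos z.arg := by
      rw [Complex.norm_mul_cos_arg]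
    have h11 : -z.im ≤ ‖z‖ := by
      have := Complex.abs_im_le_norm z
      rw [abs_of_neg himneg] at this
      exact this
    nlinarith
  have hconj : 1 - (ρ:ℂ) * ex (-x) = (starRingEnd ℂ) z := by
    apply Complex.ext
    · rw [KA_re, Complex.conj_re, hre, hθ, mul_neg, Real.cos_neg]
    · rw [KA_im, Complex.conj_im, him, hθ, mul_neg, Real.sin_neg]
      ring
  have hz' : (starRingEnd ℂ) z ≠ 0 := by
    rw [Ne, map_eq_zero]; exact hz
  refine ⟨((1 - ρ) / ‖z‖) ^ (1/4:ℝ), -(z.arg / 4), ?_, ?_, ?_, ?_, ?_, ?_⟩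
  · apply Real.rpow_le_rpow (div_nonneg (by linarith) (by positivity)) _ (by norm_num)
    exact div_le_div_of_nonneg_left (by linarith) hn hnub
  · exact Real.rpow_le_one (div_nonneg (by linarith) hn.le) ((div_le_one hn).2 hnz) (by norm_num)
  · linarith
  · have := (abs_lt.1 hargabs).1
    linarith
  · unfold ka
    rw [← hzdef, KA_eq h1 hz]
  · unfold ka
    rw [hconj, KA_eq h1 hz', RCLike.norm_conj, Complex.arg_conj, if_neg (by
      intro h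
      linarith)]
    congr 4
    ring

end Pool.Agent.H452R3.BS
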