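import Mathlib
import Pool.Agent.H452R3.BS.Defs
import Pool.Agent.H814R2.PZA4
import Pool.Agent.H452R2.Om.O3

open Filter Topology
open Pool.Agent.H383.PZ

namespace Pool.Agent.H452R3.BS

lemma sum_rpow_le {β : ℝ} (h0 : 0 < β) (h1 : β < 1) (N : ℕ) :
    ∑ n ∈ Finset.range N, ((n:ℝ) + 1) ^ (-β) ≤ (N:ℝ) ^ (1 - β) / (1 - β) := by
  have hb : 0 < 1 - β := by linarith
  induction N with
  | zero => simp [Real.zero_rpow hb.ne']
  | succ N ih =>
    rw [Finset.sum_range_succ]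
    have hN0 : (0:ℝ) < (N:ℝ) + 1 := by positivity
    have key : (N:ℝ) ^ (1 - β) ≤ ((N:ℝ) + 1) ^ (1 - β) - (1 - β) * ((N:ℝ) + 1) ^ (-β) := by
      have h2 : (1 + (-(1/((N:ℝ) + 1)))) ^ (1 - β) ≤ 1 + (1 - β) * (-(1/((N:ℝ) + 1))) :=
        rpow_one_add_le_one_add_mul_self (by
          have : 1/((N:ℝ) + 1) ≤ 1 := by rw [div_le_one hN0]; have : (0:ℝ) ≤ N := Nat.cast_nonneg N
                                         linarith
          linarith) hb.le (by linarith)
      have e1 : (1 + (-(1/((N:ℝ) + 1)))) = (N:ℝ) / ((N:ℝ) + 1) := by field_simp; ring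
      rw [e1, Real.div_rpow (Nat.cast_nonneg N) hN0.le, div_le_iff₀ (by positivity)] at h2
      have e2 : ((N:ℝ) + 1) ^ (-β) = ((N:ℝ) + 1) ^ (1 - β) * (1/((N:ℝ) + 1)) := by
        rw [Real.rpow_sub hN0, Real.rpow_one, Real.rpow_neg hN0.le]
        field_simp
      rw [e2]
      calc (N:ℝ) ^ (1 - β) ≤ (1 + (1 - β) * (-(1/((N:ℝ) + 1)))) * ((N:ℝ) + 1) ^ (1 - β) := h2
        _ = _ := by ring
    push_cast
    calc ∑ n ∈ Finset.range N, ((n:ℝ) + 1) ^ (-β) + ((N:ℝ) + 1) ^ (-β) ≤ (N:ℝ) ^ (1 - β) / (1 - β) + ((N:ℝ) + 1) ^ (-β) := by linarith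
      _ ≤ (((N:ℝ) + 1) ^ (1 - β) - (1 - β) * ((N:ℝ) + 1) ^ (-β)) / (1 - β) + ((N:ℝ) + 1) ^ (-β) := by
          have := div_le_div_of_nonneg_right key hb.le
          linarith
      _ = ((N:ℝ) + 1) ^ (1 - β) / (1 - β) := by field_simp; ring

theorem low_sum2 (k : ℕ) (hk : 2 ≤ k) {β : ℝ} (h0 : 0 < β) (h1 : β < 1) :
    ∃ C : ℝ, 0 < C ∧ ∀ x : ℝ, 1 ≤ x →
      ∑ m ∈ Finset.Icc 1 ⌊x⌋₊, dk k m * (m : ℝ) ^ (-β) ≤ C * x ^ (1 - β) * (1 + Real.log x) ^ (k - 1) := by
  have hb : 0 < 1 - β := by linarith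
  refine ⟨1/(1 - β), by positivity, ?_⟩
  intro x hx
  have hx0 : 0 < x := by linarith
  have hlx : 0 ≤ Real.log x := Real.log_nonneg hx
  set N : ℕ := ⌊x⌋₊ with hN
  have hNx : (N:ℝ) ≤ x := Nat.floor_le hx0.le
  set B : ℝ := (1 + Real.log x) ^ (k - 1) with hB
  have hB0 : 0 ≤ B := by positivity
  set g : ℕ → ℝ := fun n => if n < N then dk k (n + 1) else 0 with hg
  have hD : ∀ M : ℕ, M ≤ N → ∑ n ∈ Finset.range M, dk k (n + 1) ≤ B * M := by
    intro M hM
    rcases Nat.eq_zero_or_pos M with h | h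
    · subst h; simp
    · have hM1 : (1:ℝ) ≤ M := by exact_mod_cast h
      have h2 := Pool.Agent.H814R2.PZA4.Dk_le k hk hM1
      have e1 : Dk k (M:ℝ) = ∑ n ∈ Finset.range M, dk k (n + 1) := by
        unfold Dk
        rw [Nat.floor_natCast, Finset.range_eq_Ico, Finset.sum_Ico_add' (fun n => dk k n) 0 M 1]
        rfl
      rw [e1] at h2
      refine h2.trans ?_
      rw [mul_comm]
      apply mul_le_mul_of_nonneg_right _ (by linarith)
      have h3 : Real.log M ≤ Real.log x := Real.log_le_log (by linarith) (le_trans (by exact_mod_cast hM) hNx)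
      have h4 : 0 ≤ Real.log M := Real.log_nonneg hM1
      exact pow_le_pow_left₀ (by linarith) (by linarith) _
  have hmean : ∀ M : ℕ, ∑ n ∈ Finset.range M, g n ≤ B * M + 0 := by
    intro M
    rw [add_zero]
    have e1 : ∑ n ∈ Finset.range M, g n ≤ ∑ n ∈ Finset.range (min M N), dk k (n + 1) := by
      have e2 : ∑ n ∈ Finset.range M, g n = ∑ n ∈ (Finset.range M).filter (fun n => n < N), dk k (n + 1) := by
        rw [Finset.sum_filter]
      rw [e2]
      apply le_of_eq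
      congr 1
      ext n
      simp only [Finset.mem_filter, Finset.mem_range]
      omega
    refine e1.trans ((hD _ (min_le_right _ _)).trans ?_)
    apply mul_le_mul_of_nonneg_left _ hB0
    exact_mod_cast min_le_left _ _
  set w : ℕ → ℝ := fun n => ((n:ℝ) + 1) ^ (-β) with hw
  have hwanti : Antitone w := by
    intro a b hab
    simp only [hw]
    apply Real.rpow_le_rpow_of_nonpos (by positivity) _ (by linarith)
    have : (a:ℝ) ≤ b := by exact_mod_cast hab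
    linarith
  have hw0 : ∀ n, 0 ≤ w n := fun n => by simp only [hw]; positivity
  have hab := Pool.Agent.H452R2.Om.abel_fin (v := w) (g := g) hwanti hw0 hmean N
  have e3 : ∑ m ∈ Finset.Icc 1 N, dk k m * (m : ℝ) ^ (-β) = ∑ n ∈ Finset.range N, w n * g n := by
    have e4 : ∑ m ∈ Finset.Icc 1 N, dk k m * (m : ℝ) ^ (-β) = ∑ n ∈ Finset.range N, dk k (n + 1) * (((n + 1 : ℕ)) : ℝ) ^ (-β) := by
      rw [Finset.range_eq_Ico, Finset.sum_Ico_add' (fun n : ℕ => dk k n * (n:ℝ) ^ (-β)) 0 N 1]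
      rfl
    rw [e4]
    apply Finset.sum_congr rfl
    intro n hn
    rw [Finset.mem_range] at hn
    simp only [hw, hg]
    rw [if_pos hn]
    push_cast; ring
  rw [e3]
  refine hab.trans ?_
  rw [zero_mul, add_zero]
  have h5 : ∑ n ∈ Finset.range N, w n ≤ x ^ (1 - β) / (1 - β) := by
    refine (sum_rpow_le h0 h1 N).trans ?_
    apply div_le_div_of_nonneg_right _ hb.le
    exact Real.rpow_le_rpow (Nat.cast_nonneg _) hNx hb.le
  calc B * ∑ n ∈ Finset.range N, w n ≤ B * (x ^ (1 - β) / (1 - β)) := mul_le_mul_of_nonneg_left h5 hB0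
    _ = _ := by ring

end Pool.Agent.H452R3.BS
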