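import Mathlib
import Pool.Agent.H452R2.PO.P1
import Pool.Agent.H452R3.BS.Defs

open Filter Topology
open Pool.Agent.H452R2.Om
open Pool.Agent.H452R2.PO

namespace Pool.Agent.H452R3.BS

variable {ρ : ℝ}

open Classical in
/-- the core inequality -/
lemma core_gen (h0 : 0 ≤ ρ) (h1 : ρ < 1) {S : Finset ℕ} {lam e : ℕ → ℝ} {AM : ℝ} (hUb : ∀ n, |e n| ≤ AM) {B : ℝ} (hB : 0 ≤ B)
    (hmain : (B + 1) * Ds ρ lam S ≤ L ρ (fun n => Pr lam S n * e n)) (Ta Tb : ℝ) :
    Ds ρ lam S ≤ (2:ℝ) ^ S.card * L ρ (fun n : ℕ => if (n:ℝ) < Ta then |e n| else 0) +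
      (2:ℝ) ^ S.card * L ρ (fun n : ℕ => if Tb < n then |e n| else 0) +
      (2:ℝ) ^ S.card * L ρ (fun n : ℕ => if n ∈ (Finset.range (⌊Tb⌋₊ + 1)).filter
        (fun n : ℕ => Ta ≤ n ∧ B ≤ e n) then |e n| else 0) := by
  set K2 : ℝ := (2:ℝ) ^ S.card with hK2
  have hK20 : 0 < K2 := by positivity
  set P : ℕ → ℝ := Pr lam S with hP
  have hP0 : ∀ n, 0 ≤ P n := Pr_nonneg lam S
  have hP2 : ∀ n, P n ≤ K2 := Pr_le lam S
  have hAM0 : 0 ≤ AM := (abs_nonneg _).trans (hUb 0)
  have hA : ∀ n : ℕ, |e n| ≤ AM * (n + 1) := by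
    intro n
    have h1 := hUb n
    have hn : (0:ℝ) ≤ n := Nat.cast_nonneg n
    nlinarith
  -- the set of large values
  set G : Finset ℕ := (Finset.range (⌊Tb⌋₊ + 1)).filter (fun n : ℕ => Ta ≤ n ∧ B ≤ e n) with hG
  -- (3) the upper bound
  have hup : L ρ (fun n => P n * e n) ≤ B * Ds ρ lam S + K2 * L ρ (fun n : ℕ => if (n:ℝ) < Ta then |e n| else 0) +
      K2 * L ρ (fun n : ℕ => if Tb < n then |e n| else 0) + K2 * L ρ (fun n : ℕ => if n ∈ G then |e n| else 0) := by
    have hf1 : ∀ n : ℕ, |B * P n| ≤ (B * K2) * (n + 1) := by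
      intro n
      rw [abs_mul, abs_of_nonneg hB, abs_of_nonneg (hP0 n)]
      have h3 := mul_le_mul_of_nonneg_left (hP2 n) hB
      have hn : (0:ℝ) ≤ n := Nat.cast_nonneg n
      have h4 : 0 ≤ B * K2 := by positivity
      nlinarith
    have hf2 : ∀ n : ℕ, |K2 * (if (n:ℝ) < Ta then |e n| else 0)| ≤ (K2 * AM) * (n + 1) := by
      intro n
      rw [abs_mul, abs_of_pos hK20, mul_assoc]
      apply mul_le_mul_of_nonneg_left _ hK20.le
      split_ifs
      · rw [abs_abs]; exact hA n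
      · rw [abs_zero]; positivity
    have hf3 : ∀ n : ℕ, |K2 * (if Tb < (n:ℝ) then |e n| else 0)| ≤ (K2 * AM) * (n + 1) := by
      intro n
      rw [abs_mul, abs_of_pos hK20, mul_assoc]
      apply mul_le_mul_of_nonneg_left _ hK20.le
      split_ifs
      · rw [abs_abs]; exact hA n
      · rw [abs_zero]; positivity
    have hf4 : ∀ n : ℕ, |K2 * (if n ∈ G then |e n| else 0)| ≤ (K2 * AM) * (n + 1) := by
      intro n
      rw [abs_mul, abs_of_pos hK20, mul_assoc]
      apply mul_le_mul_of_nonneg_left _ hK20.le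
      split_ifs
      · rw [abs_abs]; exact hA n
      · rw [abs_zero]; positivity
    have e1 : L ρ (fun n : ℕ => ((B * P n + K2 * (if (n:ℝ) < Ta then |e n| else 0)) +
        K2 * (if Tb < (n:ℝ) then |e n| else 0)) + K2 * (if n ∈ G then |e n| else 0)) =
        B * Ds ρ lam S + K2 * L ρ (fun n : ℕ => if (n:ℝ) < Ta then |e n| else 0) +
        K2 * L ρ (fun n : ℕ => if Tb < (n:ℝ) then |e n| else 0) + K2 * L ρ (fun n : ℕ => if n ∈ G then |e n| else 0) := by
      rw [L_add1 (B := B * K2 + K2 * AM + K2 * AM) (B' := K2 * AM) h0 h1 _ hf4,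
        L_add1 (B := B * K2 + K2 * AM) (B' := K2 * AM) h0 h1 _ hf3, L_add1 h0 h1 hf1 hf2, L_smul, L_smul, L_smul, L_smul]
      · rfl
      · intro n
        refine (abs_add_le _ _).trans ?_
        rw [add_mul]
        exact add_le_add (hf1 n) (hf2 n)
      · intro n
        refine (abs_add_le _ _).trans ?_
        rw [add_mul]
        apply add_le_add _ (hf3 n)
        refine (abs_add_le _ _).trans ?_
        rw [add_mul]
        exact add_le_add (hf1 n) (hf2 n)
    rw [← e1]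
    apply L_mono1 h0 h1 (B := K2 * AM) (B' := B * K2 + K2 * AM + K2 * AM + K2 * AM)
    · intro n
      rw [abs_mul, abs_of_nonneg (hP0 n), mul_assoc]
      exact mul_le_mul (hP2 n) (hA n) (abs_nonneg _) hK20.le
    · intro n
      refine (abs_add_le _ _).trans ?_
      rw [add_mul]
      apply add_le_add _ (hf4 n)
      refine (abs_add_le _ _).trans ?_
      rw [add_mul]
      apply add_le_add _ (hf3 n)
      refine (abs_add_le _ _).trans ?_
      rw [add_mul]
      exact add_le_add (hf1 n) (hf2 n)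
    · intro n
      have hz1 : 0 ≤ B * P n := mul_nonneg hB (hP0 n)
      have p1 : 0 ≤ K2 * (if (n:ℝ) < Ta then |e n| else 0) := by
        apply mul_nonneg hK20.le
        split_ifs
        · exact abs_nonneg _
        · exact le_rfl
      have p2 : 0 ≤ K2 * (if Tb < (n:ℝ) then |e n| else 0) := by
        apply mul_nonneg hK20.le
        split_ifs
        · exact abs_nonneg _
        · exact le_rfl
      have p3 : 0 ≤ K2 * (if n ∈ G then |e n| else 0) := by
        apply mul_nonneg hK20.le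
        split_ifs
        · exact abs_nonneg _
        · exact le_rfl
      have h5 : P n * e n ≤ K2 * |e n| := by
        calc P n * e n ≤ P n * |e n| := mul_le_mul_of_nonneg_left (le_abs_self _) (hP0 n)
          _ ≤ _ := mul_le_mul_of_nonneg_right (hP2 n) (abs_nonneg _)
      by_cases c1' : (n:ℝ) < Ta
      · rw [if_pos c1'] at p1 ⊢
        linarith
      · by_cases c2 : Tb < (n:ℝ)
        · rw [if_pos c2] at p2 ⊢
          linarith
        · by_cases c3 : n ∈ G
          · rw [if_pos c3] at p3 ⊢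
            linarith
          · push Not at c1' c2
            have c4 : e n < B := by
              by_contra hcon
              push Not at hcon
              apply c3
              rw [hG, Finset.mem_filter, Finset.mem_range]
              refine ⟨?_, c1', hcon⟩
              have : n ≤ ⌊Tb⌋₊ := Nat.le_floor c2
              omega
            have h6 : P n * e n ≤ B * P n := by
              rw [mul_comm]
              exact mul_le_mul_of_nonneg_right c4.le (hP0 n)
            linarith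
  linarith

open Classical in
/-- **many large values of a finite trigonometric sum with nonnegative coefficients** -/
theorem count_gen {A₂ : ℝ} (hA2 : 1 ≤ A₂) :
    ∃ κ lam0 : ℝ, 0 < κ ∧ 1 ≤ lam0 ∧ ∃ T0 : ℝ, 1 ≤ T0 ∧ ∀ T : ℝ, T0 ≤ T → ∀ (S : Finset ℕ) (lam e : ℕ → ℝ) (AM : ℝ),
      (∀ n, |e n| ≤ AM) → (S.card : ℝ) ≤ κ * Real.log T →
      (∀ N : ℕ, ∑ n ∈ Finset.range N, (e n)^2 ≤ A₂ * N + T ^ (1/16:ℝ)) → ∀ B : ℝ, 0 ≤ B →
      (∀ ρ : ℝ, 0 ≤ ρ → ρ < 1 → (B + 1) * Ds ρ lam S ≤ L ρ (fun n => Pr lam S n * e n)) →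
      T * Real.exp (-(lam0 * (S.card + 1))) ≤
        (((Finset.range (⌊lam0 * (S.card + 1) * T⌋₊ + 1)).filter
          (fun n : ℕ => T ^ (1/2:ℝ) ≤ n ∧ B ≤ e n)).card : ℝ) := by
  set L₁ : ℝ := Real.log (200 * A₂ + 1) with hL1d
  have hA20 : 0 < A₂ := by linarith
  have hL10 : 0 < L₁ := Real.log_pos (by linarith)
  set lam1 : ℝ := 4 * (1 + L₁) with hlam1
  set lam2 : ℝ := 2 * (1 + L₁) with hlam2
  have hlam10 : 0 < lam1 := by positivity
  have hlam20 : 0 < lam2 := by positivity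
  have hlam21 : 1 ≤ lam2 := by rw [hlam2]; linarith
  set L₂ : ℝ := Real.log (1296 * A₂ * lam2 + 1) with hL2d
  have hL20 : 0 < L₂ := Real.log_pos (by have : 0 < 1296 * A₂ * lam2 := by positivity
                                         linarith)
  set lam0 : ℝ := (3/2) * lam1 + 3 + L₂ + lam2 with hlam0
  set κ : ℝ := min (1/16) (1/(4*lam1)) with hκ
  have hκ0 : 0 < κ := by positivity
  have hκc : κ ≤ 1/16 := min_le_left _ _
  have hκd : κ ≤ 1/(4*lam1) := min_le_right _ _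
  have hev := ((tendsto_rpow_neg_atTop (show (0:ℝ) < 1/8 by norm_num)).eventually (gt_mem_nhds (show (0:ℝ) < 1/10 by norm_num))).and
    (Real.tendsto_log_atTop.eventually_ge_atTop (4 * lam1))
  rw [eventually_atTop] at hev
  obtain ⟨T1, hT1⟩ := hev
  refine ⟨κ, lam0, hκ0, by rw [hlam0]; linarith, max T1 1, le_max_right _ _, ?_⟩
  intro T hT S lam e AM hUb hcard hS2 B hB hmn
  obtain ⟨hTE, hTlog⟩ := hT1 T ((le_max_left _ _).trans hT)
  have hT1' : 1 ≤ T := (le_max_right _ _).trans hT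
  have hT0 : 0 < T := by linarith
  have hmean : ∀ N : ℕ, ∑ n ∈ Finset.range N, |e n| ≤ A₂ * N + T ^ (1/16:ℝ) := by
    intro N
    have h1 : ∑ n ∈ Finset.range N, |e n| ≤ ∑ n ∈ Finset.range N, (1 + (e n)^2) / 2 := by
      apply Finset.sum_le_sum
      intro n _
      have := sq_nonneg (1 - |e n|)
      have h3 : |e n|^2 = (e n)^2 := sq_abs _
      nlinarith
    rw [← Finset.sum_div, Finset.sum_add_distrib, Finset.sum_const, Finset.card_range, nsmul_eq_mul, mul_one] at h1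
    have h2 := hS2 N
    have h4 : (0:ℝ) ≤ N := Nat.cast_nonneg N
    have h5 : 0 ≤ T ^ (1/16:ℝ) := by positivity
    nlinarith
  have hA : ∀ n : ℕ, |e n| ≤ AM * (n + 1) := by
    intro n
    have h1 : |e n| ≤ AM := hUb n
    have h2 : 0 ≤ AM := (abs_nonneg _).trans (hUb 0)
    have hn : (0:ℝ) ≤ n := Nat.cast_nonneg n
    nlinarith
  set kk : ℝ := (S.card : ℝ) + 1 with hkk
  have hkk1 : 1 ≤ kk := by rw [hkk]; have : (0:ℝ) ≤ S.card := Nat.cast_nonneg _
                           linarith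
  set Ta : ℝ := T * Real.exp (-(lam1 * kk)) with hTa
  set Tb : ℝ := lam2 * kk * T with hTb
  have hTa0 : 0 < Ta := by positivity
  have hTa2 : T ^ (1/2:ℝ) ≤ Ta := by
    have h1 : lam1 * kk ≤ Real.log T / 2 := by
      rw [hkk, mul_add, mul_one]
      have h2 : lam1 * S.card ≤ lam1 * (1/(4*lam1) * Real.log T) := by
        apply mul_le_mul_of_nonneg_left _ hlam10.le
        refine hcard.trans ?_
        apply mul_le_mul_of_nonneg_right hκd
        linarith
      have h3 : lam1 * (1/(4*lam1) * Real.log T) = Real.log T / 4 := by field_simp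
      linarith
    rw [hTa, Real.rpow_def_of_pos hT0]
    nth_rewrite 2 [← Real.exp_log hT0]
    rw [← Real.exp_add]
    apply Real.exp_le_exp.mpr
    linarith
  have hTa1 : 1 ≤ Ta := (Real.one_le_rpow hT1' (by norm_num)).trans hTa2
  have hTbT : T ≤ Tb := by
    rw [hTb]
    have : 1 ≤ lam2 * kk := by nlinarith
    nlinarith
  set ρ := Real.exp (-(1/T)) with hρ
  have h0 : 0 ≤ ρ := (Real.exp_pos _).le
  have h1 : ρ < 1 := by
    rw [hρ, Real.exp_lt_one_iff]
    have : 0 < 1/T := by positivity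
    linarith
  set K2 : ℝ := (2:ℝ) ^ S.card with hK2
  have hK20 : 0 < K2 := by positivity
  have hK2e : K2 ≤ Real.exp kk := by
    rw [hK2, ← Real.rpow_natCast, Real.rpow_def_of_pos (by norm_num)]
    apply Real.exp_le_exp.mpr
    have hl2 : Real.log 2 ≤ 1 := by have := Real.log_two_lt_d9; linarith
    have h3 : (0:ℝ) ≤ S.card := Nat.cast_nonneg _
    rw [hkk]
    nlinarith
  have h2K : K2 ≤ T ^ κ := by
    rw [hK2, ← Real.rpow_natCast, Real.rpow_def_of_pos (by norm_num), Real.rpow_def_of_pos hT0]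
    apply Real.exp_le_exp.mpr
    have hl2 : Real.log 2 ≤ 1 := by have := Real.log_two_lt_d9; linarith
    have hl2' : 0 ≤ Real.log 2 := Real.log_nonneg (by norm_num)
    have hlT : 0 ≤ Real.log T := Real.log_nonneg hT1'
    have h3 : (0:ℝ) ≤ S.card := Nat.cast_nonneg _
    nlinarith
  have hT16 : T ^ (1/16:ℝ) ≤ T ^ (1/4:ℝ) := Real.rpow_le_rpow_of_exponent_le hT1' (by norm_num)
  have hT16' : T ^ (1/16:ℝ) ≤ Tb := by
    refine le_trans ?_ hTbT
    calc T ^ (1/16:ℝ) ≤ T ^ (1:ℝ) := Real.rpow_le_rpow_of_exponent_le hT1' (by norm_num)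
      _ = T := Real.rpow_one T
  set G : Finset ℕ := (Finset.range (⌊Tb⌋₊ + 1)).filter (fun n : ℕ => Ta ≤ n ∧ B ≤ e n) with hG
  have hcore := core_gen h0 h1 hUb hB (hmn ρ h0 h1) Ta Tb
  rw [← hG, ← hK2] at hcore
  have hini := ini_bound3 h0 h1 hA20 hTa1 hmean
  have htail := L_tail3 (T := T) (Z := Tb) hT1' hA hA2 hT16 hmean
  rw [← hρ] at htail
  have hGsum := G_bound3 h0 h1 hA2 hTa0 (hT1'.trans hTbT) hT16' hS2 (G := G) (fun n hn => by
    rw [hG, Finset.mem_filter] at hn; exact hn.2.1) (Finset.filter_subset _ _)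
  set g : ℝ := (G.card : ℝ) with hg
  have hDge : T ^ (1/4:ℝ) ≤ Ds ρ lam S := (L1_ge hT1').trans (Ds_ge h0 h1 lam S)
  have hkey : Ds ρ lam S ≤ K2 * (A₂ * (12 * Ta ^ (1/4:ℝ)) + T ^ (1/16:ℝ)) +
      K2 * (Real.exp (-(Tb/(2*T))) * (5 * A₂ * T ^ (1/4:ℝ))) +
      K2 * (6 * Ta ^ (-(3/4):ℝ) * √(g * (3 * A₂ * Tb))) := by
    have g1 := mul_le_mul_of_nonneg_left hini hK20.le
    have g2 := mul_le_mul_of_nonneg_left htail hK20.le
    have g4 := mul_le_mul_of_nonneg_left hGsum hK20.le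
    linarith
  obtain ⟨q1, q2⟩ := sizes3 hT1' hA2 le_rfl (by positivity) hL10 hkk1 hL1d hκc hK20 hK2e h2K (Ta := Ta) (Tb := Tb)
    (by rw [hTa, hlam1]) (by rw [hTb, hlam2])
  have hT4 : 0 < T ^ (1/4:ℝ) := by positivity
  have hfin : T ^ (1/4:ℝ) * (1/2) ≤ K2 * (6 * Ta ^ (-(3/4):ℝ) * √(g * (3 * A₂ * Tb))) := by
    have e1 : T ^ (1/4:ℝ) * T ^ (-(1/8):ℝ) ≤ T ^ (1/4:ℝ) * (1/10) :=
      mul_le_mul_of_nonneg_left hTE.le hT4.le
    linarith [hDge, hkey, q1, q2]
  have hgfin := fin_num hT0 hA20 hlam20 hkk1 hlam0 (Nat.cast_nonneg _) hK20 hK2e hTa hTb hL20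
    (by rw [hL2d, Real.exp_log]; positivity) hfin
  refine hgfin.trans ?_
  have hsub : G ⊆ (Finset.range (⌊lam0 * kk * T⌋₊ + 1)).filter (fun n : ℕ => T ^ (1/2:ℝ) ≤ n ∧ B ≤ e n) := by
    intro n hn
    rw [hG, Finset.mem_filter, Finset.mem_range] at hn
    rw [Finset.mem_filter, Finset.mem_range]
    refine ⟨?_, hTa2.trans hn.2.1, hn.2.2⟩
    have h5 : ⌊Tb⌋₊ ≤ ⌊lam0 * kk * T⌋₊ := by
      apply Nat.floor_mono
      rw [hTb]
      have : lam2 ≤ lam0 := by rw [hlam0]; linarith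
      gcongr
    omega
  exact_mod_cast Finset.card_le_card hsub

end Pool.Agent.H452R3.BS
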