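import Mathlib
import Pool.Agent.H452R3.BS.Q1

open Filter Topology
open Pool.Agent.H387R2.Vor
open Pool.Agent.H383.PZ
open Pool.Agent.H452R2.Om
open Pool.Agent.H452R2.PO
open Pool.Agent.H383.OM (norm_ex ex_add)

namespace Pool.Agent.H452R3.BS

variable {ρ : ℝ}

lemma Ns_nonneg' (h0 : 0 ≤ ρ) (h1 : ρ < 1) (lam : ℕ → ℝ) (S : Finset ℕ) {φ : ℝ} (hφ : 1/2 ≤ Real.cos φ) (ξ : ℝ) :
    (1/16) * Cs ρ lam S ξ ≤ Ns ρ lam S φ ξ := by
  rw [Ns_eq h0 h1]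
  have h := cone_all h0 h1 lam S ξ
  have h2 := Cs_nonneg h0 h1 lam S ξ
  have hs : |Real.sin φ| ≤ 0.8661 := by
    rw [abs_le]
    have := Real.sin_sq_add_cos_sq φ
    constructor <;> nlinarith
  have h3 : |Real.sin φ * Ss ρ lam S ξ| ≤ 0.8661 * ((1/2) * Cs ρ lam S ξ) := by
    rw [abs_mul]
    exact mul_le_mul hs h (abs_nonneg _) (by norm_num)
  have h4 := (abs_le.mp h3).1
  have h5 := mul_le_mul_of_nonneg_right hφ h2
  linarith

/-- the main positivity with a larger cone -/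
theorem Ns_main' (h0 : 0 ≤ ρ) (h1 : ρ < 1) (lam : ℕ → ℝ) {S : Finset ℕ} {φ : ℝ} (hφ : 1/2 ≤ Real.cos φ) {m : ℕ} (hm : m ∈ S) :
    (1/16) * Ds ρ lam S ≤ Ns ρ lam S φ (lam m) := by
  classical
  obtain ⟨S', hmS, rfl⟩ : ∃ S', m ∉ S' ∧ insert m S' = S := ⟨S.erase m, Finset.notMem_erase m S, Finset.insert_erase hm⟩
  rw [Ds_insert h0 h1 lam hmS]
  have hb1 : ∀ n : ℕ, |Pr lam S' n * Real.cos (2 * Real.pi * (n * lam m) - φ)| ≤ 2 ^ S'.card := fun n =>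
    Pr_mul_bdd lam S' (g := fun n : ℕ => Real.cos (2 * Real.pi * (n * lam m) - φ)) (fun n => Real.abs_cos_le_one _) n
  have hb2 : ∀ n : ℕ, |(1/2) * (Pr lam S' n * Real.cos φ)| ≤ (1/2) * 2 ^ S'.card := by
    intro n
    rw [abs_mul, abs_of_pos (by norm_num : (0:ℝ) < 1/2)]
    exact mul_le_mul_of_nonneg_left (Pr_mul_bdd lam S' (g := fun n : ℕ => Real.cos φ) (fun n => Real.abs_cos_le_one _) n) (by norm_num)
  have hb3 : ∀ n : ℕ, |(1/2) * (Pr lam S' n * Real.cos (2 * Real.pi * (n * (2 * lam m)) - φ))| ≤ (1/2) * 2 ^ S'.card := by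
    intro n
    rw [abs_mul, abs_of_pos (by norm_num : (0:ℝ) < 1/2)]
    exact mul_le_mul_of_nonneg_left (Pr_mul_bdd lam S' (g := fun n : ℕ => Real.cos (2 * Real.pi * (n * (2 * lam m)) - φ))
      (fun n => Real.abs_cos_le_one _) n) (by norm_num)
  have e : (fun n : ℕ => Pr lam (insert m S') n * Real.cos (2 * Real.pi * (n * lam m) - φ)) =
      fun n : ℕ => (Pr lam S' n * Real.cos (2 * Real.pi * (n * lam m) - φ) + (1/2) * (Pr lam S' n * Real.cos φ)) +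
        (1/2) * (Pr lam S' n * Real.cos (2 * Real.pi * (n * (2 * lam m)) - φ)) := by
    funext n
    rw [Pr_insert lam hmS]
    have key : Real.cos (2 * Real.pi * (n * lam m)) * Real.cos (2 * Real.pi * (n * lam m) - φ) =
        (1/2) * Real.cos φ + (1/2) * Real.cos (2 * Real.pi * (n * (2 * lam m)) - φ) := by
      have e1 : 2 * Real.pi * (n * (2 * lam m)) - φ = 2 * Real.pi * (n * lam m) + (2 * Real.pi * (n * lam m) - φ) := by ring
      have e3 : Real.cos φ = Real.cos (2 * Real.pi * (n * lam m) - (2 * Real.pi * (n * lam m) - φ)) := by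
        congr 1; ring
      rw [e1, Real.cos_add, e3, Real.cos_sub (2 * Real.pi * (n * lam m)) (2 * Real.pi * (n * lam m) - φ)]
      ring
    linear_combination (Pr lam S' n) * key
  have s1 : L ρ (fun n => (Pr lam S' n * Real.cos (2 * Real.pi * (n * lam m) - φ) + (1/2) * (Pr lam S' n * Real.cos φ)) +
        (1/2) * (Pr lam S' n * Real.cos (2 * Real.pi * (n * (2 * lam m)) - φ))) =
      L ρ (fun n => Pr lam S' n * Real.cos (2 * Real.pi * (n * lam m) - φ) + (1/2) * (Pr lam S' n * Real.cos φ)) +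
      L ρ (fun n => (1/2) * (Pr lam S' n * Real.cos (2 * Real.pi * (n * (2 * lam m)) - φ))) :=
    L_add (B := 2 ^ S'.card + (1/2) * 2 ^ S'.card) (B' := (1/2) * 2 ^ S'.card) h0 h1
      (fun n => (abs_add_le _ _).trans (add_le_add (hb1 n) (hb2 n))) hb3
  have s2 : L ρ (fun n => Pr lam S' n * Real.cos (2 * Real.pi * (n * lam m) - φ) + (1/2) * (Pr lam S' n * Real.cos φ)) =
      L ρ (fun n => Pr lam S' n * Real.cos (2 * Real.pi * (n * lam m) - φ)) + L ρ (fun n => (1/2) * (Pr lam S' n * Real.cos φ)) :=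
    L_add h0 h1 hb1 hb2
  have s3 : L ρ (fun n => (1/2) * (Pr lam S' n * Real.cos φ)) = (1/2) * (Real.cos φ * Ds ρ lam S') := by
    rw [L_smul]
    congr 1
    unfold Ds
    rw [← L_smul]
    congr 1; funext n; ring
  have s4 : L ρ (fun n => (1/2) * (Pr lam S' n * Real.cos (2 * Real.pi * (n * (2 * lam m)) - φ))) =
      (1/2) * Ns ρ lam S' φ (2 * lam m) := by
    rw [L_smul]; rfl
  have e2 : Ns ρ lam (insert m S') φ (lam m) = Ns ρ lam S' φ (lam m) + (1/2) * (Real.cos φ * Ds ρ lam S') +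
      (1/2) * Ns ρ lam S' φ (2 * lam m) := by
    have : Ns ρ lam (insert m S') φ (lam m) = L ρ (fun n : ℕ => Pr lam (insert m S') n * Real.cos (2 * Real.pi * (n * lam m) - φ)) := rfl
    rw [this, e, s1, s2, s3, s4]; rfl
  rw [e2]
  have a1 := Ns_nonneg' h0 h1 lam S' hφ (lam m)
  have a2 := Ns_nonneg' h0 h1 lam S' hφ (2 * lam m)
  have a3 := Cs_nonneg h0 h1 lam S' (2 * lam m)
  have a4 : 0 ≤ Ds ρ lam S' := L_nonneg h0 (Pr_nonneg lam S')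
  have a5 := mul_le_mul_of_nonneg_right hφ a4
  linarith

lemma Ns_ge_neg (h0 : 0 ≤ ρ) (h1 : ρ < 1) (lam : ℕ → ℝ) (S : Finset ℕ) (φ ξ : ℝ) :
    -(Ds ρ lam S) ≤ Ns ρ lam S φ ξ := by
  have e : -(Ds ρ lam S) = L ρ (fun n => (-1) * Pr lam S n) := by
    rw [L_smul]; unfold Ds; ring
  rw [e]
  unfold Ns
  have hP := Pr_nonneg lam S
  have hP2 := Pr_le lam S
  apply L_mono h0 h1 (B := 2 ^ S.card) (B' := 2 ^ S.card)
  · intro n
    rw [abs_mul, abs_neg, abs_one, one_mul, abs_of_nonneg (hP n)]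
    exact hP2 n
  · exact fun n => Pr_mul_bdd lam S (g := fun n : ℕ => Real.cos (2 * Real.pi * (n * ξ) - φ)) (fun n => Real.abs_cos_le_one _) n
  · intro n
    have h1 := Real.neg_one_le_cos (2 * Real.pi * (n * ξ) - φ)
    have := mul_le_mul_of_nonneg_left h1 (hP n)
    linarith

/-- tests with complex coefficients -/
noncomputable def Nc (ρ : ℝ) (lam : ℕ → ℝ) (S : Finset ℕ) (z : ℂ) (ξ : ℝ) : ℝ :=
  L ρ (fun n : ℕ => Pr lam S n * (z * ex ((n:ℝ) * ξ)).re)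

lemma re_ex (z : ℂ) (y : ℝ) : (z * ex y).re = ‖z‖ * Real.cos (2 * Real.pi * y - (-z.arg)) := by
  have e : z * ex y = (‖z‖ : ℂ) * Complex.exp (((2 * Real.pi * y - (-z.arg) : ℝ) : ℂ) * Complex.I) := by
    conv_lhs => rw [← Complex.norm_mul_exp_arg_mul_I z]
    unfold ex
    rw [mul_assoc, ← Complex.exp_add]
    congr 2
    push_cast; ring
  rw [e, Complex.re_ofReal_mul, Complex.exp_ofReal_mul_I_re]

lemma Nc_eq (lam : ℕ → ℝ) (S : Finset ℕ) (z : ℂ) (ξ : ℝ) : Nc ρ lam S z ξ = ‖z‖ * Ns ρ lam S (-z.arg) ξ := by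
  unfold Nc Ns
  rw [← L_smul]
  congr 1; funext n
  rw [re_ex]; ring

lemma cos_arg_ge {z : ℂ} (hz : z ≠ 0) (h : ‖z‖ / 2 ≤ z.re) : 1/2 ≤ Real.cos (-z.arg) := by
  rw [Real.cos_neg, Complex.cos_arg hz, le_div_iff₀ (norm_pos_iff.mpr hz)]
  linarith

lemma Nc_nonneg (h0 : 0 ≤ ρ) (h1 : ρ < 1) (lam : ℕ → ℝ) (S : Finset ℕ) {z : ℂ} (hz : ‖z‖ / 2 ≤ z.re) (ξ : ℝ) :
    0 ≤ Nc ρ lam S z ξ := by
  rw [Nc_eq]
  rcases eq_or_ne z 0 with h | h
  · rw [h]; simp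
  · have a1 := Ns_nonneg' h0 h1 lam S (cos_arg_ge h hz) ξ
    have a2 := Cs_nonneg h0 h1 lam S ξ
    have : 0 ≤ Ns ρ lam S (-z.arg) ξ := by linarith
    positivity

lemma Nc_main (h0 : 0 ≤ ρ) (h1 : ρ < 1) (lam : ℕ → ℝ) {S : Finset ℕ} {z : ℂ} (hz : ‖z‖ / 2 ≤ z.re) {m : ℕ} (hm : m ∈ S) :
    (‖z‖ / 16) * Ds ρ lam S ≤ Nc ρ lam S z (lam m) := by
  rw [Nc_eq]
  rcases eq_or_ne z 0 with h | h
  · rw [h]; simp
  · have a1 := mul_le_mul_of_nonneg_left (Ns_main' h0 h1 lam (cos_arg_ge h hz) hm) (norm_nonneg z)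
    calc (‖z‖ / 16) * Ds ρ lam S = ‖z‖ * ((1/16) * Ds ρ lam S) := by ring
      _ ≤ _ := a1

lemma Nc_ge_neg (h0 : 0 ≤ ρ) (h1 : ρ < 1) (lam : ℕ → ℝ) (S : Finset ℕ) (z : ℂ) (ξ : ℝ) :
    -(‖z‖ * Ds ρ lam S) ≤ Nc ρ lam S z ξ := by
  rw [Nc_eq]
  have := mul_le_mul_of_nonneg_left (Ns_ge_neg h0 h1 lam S (-z.arg) ξ) (norm_nonneg z)
  linarith

lemma CT_bdd (I : Finset ℕ) (d : ℕ → ℂ) (lam : ℕ → ℝ) (t : ℝ) : |CT I d lam t| ≤ ∑ m ∈ I, ‖d m‖ := by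
  unfold CT
  refine (Finset.abs_sum_le_sum_abs _ _).trans ?_
  apply Finset.sum_le_sum
  intro m _
  refine (Complex.abs_re_le_norm _).trans ?_
  rw [norm_mul, norm_ex, mul_one]

lemma L_CT (h0 : 0 ≤ ρ) (h1 : ρ < 1) (I S : Finset ℕ) (d : ℕ → ℂ) (lam : ℕ → ℝ) :
    L ρ (fun n : ℕ => Pr lam S n * CT I d lam n) = ∑ m ∈ I, Nc ρ lam S (d m) (lam m) := by
  unfold Nc L
  rw [← Summable.tsum_finsetSum]
  · congr 1; funext n
    unfold CT
    show v ρ n * (Pr lam S n * ∑ m ∈ I, (d m * ex ((n:ℝ) * lam m)).re) = _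
    rw [Finset.mul_sum, Finset.mul_sum]
  · intro m _
    apply L_summable h0 h1 (B := 2 ^ S.card * ‖d m‖)
    intro n
    rw [abs_mul, abs_of_nonneg (Pr_nonneg lam S n)]
    apply mul_le_mul (Pr_le lam S n) _ (abs_nonneg _) (by positivity)
    refine (Complex.abs_re_le_norm _).trans ?_
    rw [norm_mul, norm_ex, mul_one]

/-- the main inequality, with a bad initial segment -/
theorem main_CT (h0 : 0 ≤ ρ) (h1 : ρ < 1) {I S Lo : Finset ℕ} {d : ℕ → ℂ} {lam : ℕ → ℝ} (hSI : S ⊆ I)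
    (hSLo : ∀ m ∈ S, m ∉ Lo) (hgood : ∀ m ∈ I, m ∉ Lo → ‖d m‖ / 2 ≤ (d m).re) :
    (∑ m ∈ S, ‖d m‖ / 16 - ∑ m ∈ Lo, ‖d m‖) * Ds ρ lam S ≤ L ρ (fun n : ℕ => Pr lam S n * CT I d lam n) := by
  classical
  rw [L_CT h0 h1]
  have hD0 : 0 ≤ Ds ρ lam S := L_nonneg h0 (Pr_nonneg lam S)
  have e1 : ∑ m ∈ I, Nc ρ lam S (d m) (lam m) = ∑ m ∈ I.filter (fun m => m ∈ Lo), Nc ρ lam S (d m) (lam m) +
      ∑ m ∈ I.filter (fun m => m ∉ Lo), Nc ρ lam S (d m) (lam m) := (Finset.sum_filter_add_sum_filter_not _ _ _).symm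
  rw [e1]
  have g1 : -(∑ m ∈ Lo, ‖d m‖) * Ds ρ lam S ≤ ∑ m ∈ I.filter (fun m => m ∈ Lo), Nc ρ lam S (d m) (lam m) := by
    calc -(∑ m ∈ Lo, ‖d m‖) * Ds ρ lam S ≤ -(∑ m ∈ I.filter (fun m => m ∈ Lo), ‖d m‖) * Ds ρ lam S := by
          apply mul_le_mul_of_nonneg_right _ hD0
          apply neg_le_neg
          apply Finset.sum_le_sum_of_subset_of_nonneg
          · intro m hm; exact (Finset.mem_filter.mp hm).2
          · intro m _ _; exact norm_nonneg _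
      _ = ∑ m ∈ I.filter (fun m => m ∈ Lo), -(‖d m‖ * Ds ρ lam S) := by
          rw [Finset.sum_neg_distrib, neg_mul, Finset.sum_mul]
      _ ≤ _ := Finset.sum_le_sum (fun m _ => Nc_ge_neg h0 h1 lam S (d m) (lam m))
  have g2 : (∑ m ∈ S, ‖d m‖ / 16) * Ds ρ lam S ≤ ∑ m ∈ I.filter (fun m => m ∉ Lo), Nc ρ lam S (d m) (lam m) := by
    calc (∑ m ∈ S, ‖d m‖ / 16) * Ds ρ lam S = ∑ m ∈ S, (‖d m‖ / 16) * Ds ρ lam S := by rw [Finset.sum_mul]
      _ ≤ ∑ m ∈ S, Nc ρ lam S (d m) (lam m) := by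
          apply Finset.sum_le_sum
          intro m hm
          exact Nc_main h0 h1 lam (hgood m (hSI hm) (hSLo m hm)) hm
      _ ≤ _ := by
          apply Finset.sum_le_sum_of_subset_of_nonneg
          · intro m hm
            exact Finset.mem_filter.mpr ⟨hSI hm, hSLo m hm⟩
          · intro m hm _
            rw [Finset.mem_filter] at hm
            exact Nc_nonneg h0 h1 lam S (hgood m hm.1 hm.2) _
  linarith

end Pool.Agent.H452R3.BS
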