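import Mathlib
import Pool.Agent.H452R3.BS.Q2
import Pool.Agent.H452R2.PO.P3

open MeasureTheory Filter Topology Set
open Pool.Agent.H387R2.Vor
open Pool.Agent.H383.PZ
open Pool.Agent.H452R2.Om
open Pool.Agent.H452R2.PO

namespace Pool.Agent.H452R3.BS

theorem msq_pair' (x y φ φ' g : ℝ) (hg : 0 < g) (hx : g ≤ x ∧ x ≤ 1 / 4) (hy : g ≤ y ∧ y ≤ 1 / 4)
    (hxy : g ≤ |x - y|) (N : ℕ) :
    |∑ n ∈ Finset.range N, Real.cos (2 * Real.pi * (n * x) - φ) *
      Real.cos (2 * Real.pi * (n * y) - φ')| ≤ 1 / g := by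
  have h1 : ∀ n : ℕ, Real.cos (2 * Real.pi * (n * x) - φ) * Real.cos (2 * Real.pi * (n * y) - φ') =
      (1 / 2) * Real.cos (2 * Real.pi * (n * (x - y)) - (φ - φ')) +
      (1 / 2) * Real.cos (2 * Real.pi * (n * (x + y)) - (φ + φ')) := by
    intro n
    have e1 : 2 * Real.pi * (n * (x - y)) - (φ - φ') =
      (2 * Real.pi * (n * x) - φ) - (2 * Real.pi * (n * y) - φ') := by ring
    have e2 : 2 * Real.pi * (n * (x + y)) - (φ + φ') =
      (2 * Real.pi * (n * x) - φ) + (2 * Real.pi * (n * y) - φ') := by ring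
    rw [e1, e2, Real.cos_sub (2 * Real.pi * (n * x) - φ) (2 * Real.pi * (n * y) - φ'),
      Real.cos_add (2 * Real.pi * (n * x) - φ) (2 * Real.pi * (n * y) - φ')]
    ring
  rw [Finset.sum_congr rfl fun n _ => h1 n, Finset.sum_add_distrib, ← Finset.mul_sum,
    ← Finset.mul_sum]
  have h2 := msq_geo (x - y) (φ - φ') g hg hxy (by rw [abs_le]; constructor <;> linarith [hx.1, hx.2, hy.1, hy.2]) N
  have h3 := msq_geo (x + y) (φ + φ') g hg
    (by rw [abs_of_pos (by linarith [hx.1, hy.1])]; linarith [hx.1, hy.1])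
    (by rw [abs_of_pos (by linarith [hx.1, hy.1])]; linarith [hx.2, hy.2]) N
  have h4 : 1 / g = 1 / (2 * g) + 1 / (2 * g) := by field_simp; norm_num
  rw [abs_le] at h2 h3 ⊢
  rw [h4]
  have h5 : 0 < 1 / (2 * g) := by positivity
  constructor <;> linarith [h2.1, h2.2, h3.1, h3.2]

theorem msq' (I : Finset ℕ) (b x φ : ℕ → ℝ) (g : ℝ) (hg : 0 < g) (hb : ∀ m, 0 ≤ b m)
    (hx : ∀ m ∈ I, g ≤ x m ∧ x m ≤ 1/4) (hsep : ∀ m ∈ I, ∀ m' ∈ I, m ≠ m' → g ≤ |x m - x m'|) (N : ℕ) :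
    ∑ n ∈ Finset.range N, (∑ m ∈ I, b m * Real.cos (2 * Real.pi * (n * x m) - φ m)) ^ 2 ≤
      (∑ m ∈ I, b m ^ 2) * N + (∑ m ∈ I, b m) ^ 2 * (2 / g) := by
  have h1 : ∑ n ∈ Finset.range N, (∑ m ∈ I, b m * Real.cos (2 * Real.pi * (n * x m) - φ m)) ^ 2 =
      ∑ m ∈ I, ∑ m' ∈ I, b m * b m' * ∑ n ∈ Finset.range N,
        Real.cos (2 * Real.pi * (n * x m) - φ m) * Real.cos (2 * Real.pi * (n * x m') - φ m') := by
    simp_rw [sq, Finset.sum_mul_sum, Finset.mul_sum]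
    rw [Finset.sum_comm]
    refine Finset.sum_congr rfl fun m _ => ?_
    rw [Finset.sum_comm]
    refine Finset.sum_congr rfl fun m' _ => ?_
    refine Finset.sum_congr rfl fun n _ => ?_
    ring
  rw [h1]
  have h2 : ∀ m ∈ I, ∀ m' ∈ I, b m * b m' * ∑ n ∈ Finset.range N,
        Real.cos (2 * Real.pi * (n * x m) - φ m) * Real.cos (2 * Real.pi * (n * x m') - φ m') ≤
      (if m = m' then b m ^ 2 * N else 0) + b m * b m' * (1 / g) := by
    intro m hm m' hm'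
    have hbb : 0 ≤ b m * b m' := mul_nonneg (hb m) (hb m')
    by_cases hmm : m = m'
    · subst hmm
      rw [if_pos rfl]
      have := mul_le_mul_of_nonneg_left (msq_diag (x m) (φ m) g hg (hx m hm) N) hbb
      linarith
    · rw [if_neg hmm, zero_add]
      exact mul_le_mul_of_nonneg_left (le_trans (le_abs_self _)
        (msq_pair' (x m) (x m') (φ m) (φ m') g hg (hx m hm) (hx m' hm') (hsep m hm m' hm' hmm) N)) hbb
  refine le_trans (Finset.sum_le_sum fun m hm => Finset.sum_le_sum fun m' hm' => h2 m hm m' hm') ?_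
  simp_rw [Finset.sum_add_distrib]
  have h3 : ∑ m ∈ I, ∑ m' ∈ I, (if m = m' then b m ^ 2 * (N : ℝ) else 0) =
      (∑ m ∈ I, b m ^ 2) * N := by
    rw [Finset.sum_mul]
    refine Finset.sum_congr rfl fun m hm => ?_
    rw [Finset.sum_ite_eq, if_pos hm]
  have h4 : ∑ m ∈ I, ∑ m' ∈ I, b m * b m' * (1 / g) = (∑ m ∈ I, b m) ^ 2 * (1 / g) := by
    rw [sq, Finset.sum_mul_sum, Finset.sum_mul]
    refine Finset.sum_congr rfl fun m _ => ?_
    rw [Finset.sum_mul]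
  rw [h3, h4]
  have h5 : (∑ m ∈ I, b m) ^ 2 * (1 / g) ≤ (∑ m ∈ I, b m) ^ 2 * (2 / g) := by
    apply mul_le_mul_of_nonneg_left _ (sq_nonneg _)
    apply div_le_div_of_nonneg_right (by norm_num) hg.le
  linarith

/-- mean square of the trigonometric sum -/
lemma CT_sq {k : ℕ} (hk2 : 2 ≤ k) {δ : ℝ} (hδ : 0 < δ) (hδ1 : δ ≤ 1) (ν N : ℕ) {d : ℕ → ℂ} (hdb : ∀ m, ‖d m‖ ≤ bk k δ ν m) :
    ∑ n ∈ Finset.range N, (CT (Finset.Icc 1 ⌊(1 / δ ^ k) ^ 3⌋₊) d (lk k (δ^3 / (1000 * k))) n)^2 ≤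
      (1 + ∑' m : ℕ, (dk k m) ^ 2 * (m:ℝ) ^ (-(((k:ℝ) + 1) / k))) * N +
        (∑' m : ℕ, dk k m * (m:ℝ) ^ (-(2:ℝ)))^2 * (2000 * k) * (1/δ)^(15 * k + 3) := by
  have hk' : (2:ℝ) ≤ k := by exact_mod_cast hk2
  have hk0 : (0:ℝ) < k := by linarith
  have hpi := Real.pi_pos
  have hpi3 := Real.pi_gt_three
  set u : ℝ := 1 / δ ^ k with hu
  have hδk : 0 < δ ^ k := by positivity
  have hu1 : 1 ≤ u := by
    rw [hu, one_le_div hδk]; exact pow_le_one₀ hδ.le hδ1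
  set M : ℕ := ⌊u ^ 3⌋₊ with hM
  have hM1 : 1 ≤ M := by
    rw [hM]; apply Nat.le_floor; push_cast; exact one_le_pow₀ hu1
  have hMu : (M:ℝ) ≤ u ^ 3 := Nat.floor_le (by positivity)
  have hM0 : (0:ℝ) < M := by exact_mod_cast hM1
  set α : ℝ := δ^3 / (1000 * k) with hα
  have hα0 : 0 < α := by positivity
  set g : ℝ := α / M with hg
  have hg0 : 0 < g := by positivity
  have hroot : ∀ m : ℕ, 1 ≤ m → (1:ℝ) ≤ (m:ℝ) ^ (1 / (k:ℝ)) := fun m hm =>
    Real.one_le_rpow (by exact_mod_cast hm) (by positivity)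
  have hx : ∀ m ∈ Finset.Icc 1 M, g ≤ lk k α m ∧ lk k α m ≤ 1/4 := by
    intro m hm
    rw [Finset.mem_Icc] at hm
    have h1 := hroot m hm.1
    constructor
    · have h2 : g ≤ α := by
        rw [hg]; apply div_le_self hα0.le; exact_mod_cast hM1
      refine h2.trans ?_
      unfold lk
      have h3 : (1:ℝ) ≤ k * (m:ℝ) ^ (1 / (k:ℝ)) := by nlinarith
      nlinarith
    · unfold lk
      have h2 : (m:ℝ) ^ (1 / (k:ℝ)) ≤ (1/δ)^3 := by
        calc (m:ℝ) ^ (1 / (k:ℝ)) ≤ (u ^ 3) ^ (1 / (k:ℝ)) := by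
              apply Real.rpow_le_rpow (Nat.cast_nonneg _) _ (by positivity)
              exact le_trans (by exact_mod_cast hm.2) hMu
          _ = (1/δ)^3 := by
              have : u ^ 3 = ((1/δ)^3) ^ k := by
                have e0 : u = (1/δ)^k := by rw [hu, one_div_pow]
                rw [e0, ← pow_mul, ← pow_mul, mul_comm 3 k]
              rw [this, ← Real.rpow_natCast, ← Real.rpow_mul (by positivity), mul_one_div_cancel hk0.ne', Real.rpow_one]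
      calc α * (k * (m:ℝ) ^ (1 / (k:ℝ))) ≤ α * (k * (1/δ)^3) := by gcongr
        _ = 1/1000 := by rw [hα]; field_simp
        _ ≤ 1/4 := by norm_num
  have hsep : ∀ m ∈ Finset.Icc 1 M, ∀ m' ∈ Finset.Icc 1 M, m ≠ m' → g ≤ |lk k α m - lk k α m'| := by
    have key : ∀ m m' : ℕ, 1 ≤ m → m < m' → m' ≤ M → g ≤ lk k α m' - lk k α m := by
      intro m m' h1 h2 h3
      have := root_sep (k := k) (by omega) h1 h2 h3
      unfold lk
      have e1 : α * (k * (m':ℝ) ^ (1 / (k:ℝ))) - α * (k * (m:ℝ) ^ (1 / (k:ℝ))) =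
          (α * k) * ((m':ℝ) ^ (1 / (k:ℝ)) - (m:ℝ) ^ (1 / (k:ℝ))) := by ring
      rw [e1]
      calc g = (α * k) * (1 / ((k:ℝ) * M)) := by rw [hg]; field_simp
        _ ≤ _ := mul_le_mul_of_nonneg_left this (by positivity)
    intro m hm m' hm' hne
    rw [Finset.mem_Icc] at hm hm'
    rcases lt_or_gt_of_ne hne with h | h
    · rw [abs_sub_comm]
      exact (key m m' hm.1 h hm'.2).trans (le_abs_self _)
    · exact (key m' m hm'.1 h hm.2).trans (le_abs_self _)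
  have h1 := msq' (Finset.Icc 1 M) (fun m => ‖d m‖) (lk k α) (fun m => -(d m).arg) g hg0 (fun m => norm_nonneg _) hx hsep N
  have hCT : ∀ n : ℕ, CT (Finset.Icc 1 M) d (lk k α) n =
      ∑ m ∈ Finset.Icc 1 M, ‖d m‖ * Real.cos (2 * Real.pi * (n * lk k α m) - (-(d m).arg)) := by
    intro n
    unfold CT
    exact Finset.sum_congr rfl (fun m _ => re_ex _ _)
  simp only [hCT]
  refine h1.trans ?_
  have hN : (0:ℝ) ≤ N := Nat.cast_nonneg N
  have hsq : Summable (fun m : ℕ => (dk k m) ^ 2 * (m:ℝ) ^ (-(((k:ℝ) + 1) / k))) :=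
    dk_sq_summable k (by rw [lt_div_iff₀ hk0]; linarith)
  have hD2 := summable_dk k (σ := 2) (by norm_num)
  have hc1 : 1 / (Real.pi * √(k:ℝ)) ≤ 1 := by
    have : 1 ≤ √(k:ℝ) := by rw [Real.one_le_sqrt]; linarith
    rw [div_le_one (by positivity)]; nlinarith
  have hc0 : 0 ≤ 1 / (Real.pi * √(k:ℝ)) := by positivity
  have hbk_le : ∀ m : ℕ, bk k δ ν m ≤ dk k m * (m : ℝ) ^ (-(((k:ℝ) + 1) / (2 * k)) : ℝ) := by
    intro m
    unfold bk
    have h2 := dk_nonneg k m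
    have h3 : 0 ≤ dk k m * (m : ℝ) ^ (-(((k:ℝ) + 1) / (2 * k)) : ℝ) := by positivity
    calc dk k m * (m : ℝ) ^ (-(((k:ℝ) + 1) / (2 * k)) : ℝ) * (1 / (Real.pi * √(k:ℝ))) * sf k δ ν m
        ≤ dk k m * (m : ℝ) ^ (-(((k:ℝ) + 1) / (2 * k)) : ℝ) * 1 * 1 := by
          apply mul_le_mul _ (sf_le_one k δ ν m) (sf_nonneg k δ ν m) (by positivity)
          exact mul_le_mul_of_nonneg_left hc1 h3
      _ = _ := by ring
  have hs1 : ∑ m ∈ Finset.Icc 1 M, ‖d m‖ ^ 2 ≤ 1 + ∑' m : ℕ, (dk k m) ^ 2 * (m:ℝ) ^ (-(((k:ℝ) + 1) / k)) := by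
    calc ∑ m ∈ Finset.Icc 1 M, ‖d m‖ ^ 2 ≤ ∑ m ∈ Finset.Icc 1 M, (dk k m) ^ 2 * (m:ℝ) ^ (-(((k:ℝ) + 1) / k)) := by
          apply Finset.sum_le_sum
          intro m hm
          rw [Finset.mem_Icc] at hm
          have hm0 : (0:ℝ) < m := by exact_mod_cast hm.1
          calc ‖d m‖ ^ 2 ≤ (dk k m * (m : ℝ) ^ (-(((k:ℝ) + 1) / (2 * k)) : ℝ)) ^ 2 :=
                pow_le_pow_left₀ (norm_nonneg _) ((hdb m).trans (hbk_le m)) 2
            _ = _ := by
                rw [mul_pow, ← Real.rpow_natCast ((m : ℝ) ^ (-(((k:ℝ) + 1) / (2 * k)) : ℝ)) 2, ← Real.rpow_mul hm0.le]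
                congr 2
                push_cast
                field_simp
      _ ≤ ∑' m : ℕ, (dk k m) ^ 2 * (m:ℝ) ^ (-(((k:ℝ) + 1) / k)) :=
          hsq.sum_le_tsum _ (fun m _ => by positivity)
      _ ≤ _ := by linarith
  have hs2 : ∑ m ∈ Finset.Icc 1 M, ‖d m‖ ≤ (M:ℝ)^2 * ∑' m : ℕ, dk k m * (m:ℝ) ^ (-(2:ℝ)) := by
    calc ∑ m ∈ Finset.Icc 1 M, ‖d m‖ ≤ ∑ m ∈ Finset.Icc 1 M, (M:ℝ)^2 * (dk k m * (m:ℝ) ^ (-(2:ℝ))) := by
          apply Finset.sum_le_sum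
          intro m hm
          rw [Finset.mem_Icc] at hm
          have hm0 : (0:ℝ) < m := by exact_mod_cast hm.1
          have hm1 : (1:ℝ) ≤ m := by exact_mod_cast hm.1
          have hmM : (m:ℝ) ≤ M := by exact_mod_cast hm.2
          refine ((hdb m).trans (hbk_le m)).trans ?_
          have h2 := dk_nonneg k m
          have h3 : (m : ℝ) ^ (-(((k:ℝ) + 1) / (2 * k)) : ℝ) ≤ 1 :=
            Real.rpow_le_one_of_one_le_of_nonpos hm1 (by
              have : 0 ≤ ((k:ℝ) + 1) / (2 * k) := by positivity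
              linarith)
          have h4 : (1:ℝ) ≤ (M:ℝ)^2 * (m:ℝ) ^ (-(2:ℝ)) := by
            have e : (m:ℝ) ^ (-(2:ℝ)) = 1 / (m:ℝ) ^ 2 := by
              rw [Real.rpow_neg hm0.le, one_div]; congr 1; exact Real.rpow_two _
            rw [e, mul_one_div, one_le_div (by positivity)]
            exact pow_le_pow_left₀ hm0.le hmM 2
          calc dk k m * (m : ℝ) ^ (-(((k:ℝ) + 1) / (2 * k)) : ℝ) ≤ dk k m * 1 := mul_le_mul_of_nonneg_left h3 h2
            _ ≤ dk k m * ((M:ℝ)^2 * (m:ℝ) ^ (-(2:ℝ))) := mul_le_mul_of_nonneg_left h4 h2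
            _ = _ := by ring
      _ = (M:ℝ)^2 * ∑ m ∈ Finset.Icc 1 M, dk k m * (m:ℝ) ^ (-(2:ℝ)) := by rw [Finset.mul_sum]
      _ ≤ _ := by
          apply mul_le_mul_of_nonneg_left _ (by positivity)
          exact hD2.sum_le_tsum _ (fun m _ => by have := dk_nonneg k m; positivity)
  set D2 : ℝ := ∑' m : ℕ, dk k m * (m:ℝ) ^ (-(2:ℝ)) with hD2d
  have hD20 : 0 ≤ D2 := tsum_nonneg (fun m => by have := dk_nonneg k m; positivity)
  have hs0 : 0 ≤ ∑ m ∈ Finset.Icc 1 M, ‖d m‖ := Finset.sum_nonneg (fun m _ => norm_nonneg _)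
  have hs3 : (∑ m ∈ Finset.Icc 1 M, ‖d m‖) ^ 2 * (2 / g) ≤ D2^2 * (2000 * k) * (1/δ)^(15 * k + 3) := by
    have e1 : 2 / g = 2 * M / α := by rw [hg]; field_simp
    calc (∑ m ∈ Finset.Icc 1 M, ‖d m‖) ^ 2 * (2 / g) ≤ ((M:ℝ)^2 * D2)^2 * (2 * M / α) := by
          rw [e1]
          apply mul_le_mul_of_nonneg_right _ (by positivity)
          exact pow_le_pow_left₀ hs0 hs2 2
      _ = D2^2 * (M:ℝ)^5 * (2 / α) := by ring
      _ ≤ D2^2 * (u^3)^5 * (2 / α) := by gcongr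
      _ = _ := by
          have e2 : u = (1/δ)^k := by rw [hu, one_div_pow]
          have e3 : 2 / α = (2000 * k) * (1/δ)^3 := by
            rw [hα]; field_simp; norm_num
          rw [e2, e3, ← pow_mul, ← pow_mul]
          have : (1/δ)^(15 * k + 3) = (1/δ)^(k * 3 * 5) * (1/δ)^3 := by
            rw [← pow_add]; congr 1; ring
          rw [this]; ring
  have := mul_le_mul_of_nonneg_right hs1 hN
  linarith

end Pool.Agent.H452R3.BS
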