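import Mathlib
import Pool.Agent.H452R3.BS.Q3

open MeasureTheory Filter Topology Set
open Pool.Agent.H387R2.Vor
open Pool.Agent.H383.PZ
open Pool.Agent.H452R2.Om
open Pool.Agent.H452R2.PO
open Pool.Agent.H383.OM (norm_ex ex_add)

namespace Pool.Agent.H452R3.BS

/-- the terms of the smoothed Voronoi series as cosines -/
lemma tk_eq' {k : ℕ} (hk1 : 1 ≤ k) {δ : ℝ} (hδ : 0 < δ) (ν : ℕ) (α t : ℝ) (m : ℕ) :
    tk k δ (2 * ν) (α * t - ν * δ) m =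
      bk k δ ν m * Real.cos (2 * Real.pi * (t * lk k α m) + ((k:ℝ) - 3) * Real.pi / 4) := by
  rcases Nat.eq_zero_or_pos m with h0 | h0
  · subst h0
    simp [tk, bk, dk_zero]
  have hm : (0:ℝ) < m := by exact_mod_cast h0
  have hk' : (0:ℝ) < k := by exact_mod_cast hk1
  set y : ℝ := (m : ℝ) ^ (1 / (k:ℝ)) with hy
  have hy0 : 0 < y := by positivity
  have hne : (k:ℝ) * y * δ ≠ 0 := by positivity
  have e1 : ck k δ (2 * ν) (α * t - ν * δ) y =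
      Real.cos (2 * Real.pi * (t * lk k α m) + ((k:ℝ) - 3) * Real.pi / 4) * sf k δ ν m := by
    unfold ck ok
    rw [cf_eq hne, mul_pow, ex_pow]
    set s : ℝ := Real.sin (Real.pi * (k * y * δ)) / (Real.pi * (k * y * δ)) with hs
    have e2 : Complex.exp ((((k:ℝ) - 3) * Real.pi / 4 : ℝ) * Complex.I) * ex (k * y * (α * t - ν * δ)) *
        (ex ((2 * ν : ℕ) * (k * y * δ / 2)) * (s : ℂ) ^ (2 * ν)) =
        Complex.exp (((2 * Real.pi * (t * lk k α m) + ((k:ℝ) - 3) * Real.pi / 4 : ℝ) : ℂ) * Complex.I) * ((s ^ (2 * ν) : ℝ) : ℂ) := by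
      rw [← mul_assoc]
      congr 1
      · unfold ex lk
        rw [← Complex.exp_add, ← Complex.exp_add]
        congr 1
        rw [← hy]
        push_cast
        ring
      · push_cast; rfl
    rw [e2, Complex.re_mul_ofReal, Complex.exp_ofReal_mul_I_re]
    rfl
  unfold tk bk
  rw [e1]
  ring

/-- the complex coefficients -/
noncomputable def dd (s : ℝ) (k : ℕ) (δ : ℝ) (ν m : ℕ) : ℂ :=
  ((s * bk k δ ν m : ℝ) : ℂ) * Complex.exp (((((k:ℝ) - 3) * Real.pi / 4 : ℝ) : ℂ) * Complex.I)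

lemma dd_norm {s : ℝ} (hs : s = 1 ∨ s = -1) (k : ℕ) (δ : ℝ) (ν m : ℕ) : ‖dd s k δ ν m‖ = bk k δ ν m := by
  unfold dd
  rw [norm_mul, Complex.norm_exp_ofReal_mul_I, mul_one, Complex.norm_real, Real.norm_eq_abs, abs_mul,
    abs_of_nonneg (bk_nonneg k δ ν m)]
  rcases hs with h | h <;> rw [h] <;> simp

lemma dd_tk {k : ℕ} (hk1 : 1 ≤ k) {δ : ℝ} (hδ : 0 < δ) (s : ℝ) (ν : ℕ) (α t : ℝ) (m : ℕ) :
    (dd s k δ ν m * ex (t * lk k α m)).re = s * tk k δ (2 * ν) (α * t - ν * δ) m := by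
  rw [tk_eq' hk1 hδ]
  have e : dd s k δ ν m * ex (t * lk k α m) = ((s * bk k δ ν m : ℝ) : ℂ) *
      Complex.exp (((2 * Real.pi * (t * lk k α m) + ((k:ℝ) - 3) * Real.pi / 4 : ℝ) : ℂ) * Complex.I) := by
    unfold dd ex
    rw [mul_assoc, ← Complex.exp_add]
    congr 2
    push_cast; ring
  rw [e, Complex.re_ofReal_mul, Complex.exp_ofReal_mul_I_re]
  ring

lemma CT_tk {k : ℕ} (hk1 : 1 ≤ k) {δ : ℝ} (hδ : 0 < δ) (s : ℝ) (ν : ℕ) (α t : ℝ) (I : Finset ℕ) :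
    CT I (dd s k δ ν) (lk k α) t = s * ∑ m ∈ I, tk k δ (2 * ν) (α * t - ν * δ) m := by
  unfold CT
  rw [Finset.mul_sum]
  exact Finset.sum_congr rfl (fun m _ => dd_tk hk1 hδ s ν α t m)

/-- a large mean gives a large value -/
lemma exists_of_mean' {k : ℕ} (hk1 : 1 ≤ k) (P : Polynomial ℝ) (s : ℝ) {δ : ℝ} (hδ : 0 < δ) (n : ℕ) {R : ℝ} (hR : 1 ≤ R) {w : ℝ}
    (h : w < s * ∫ x, Fk k P (R + x) ∂(mu δ n)) : ∃ x ∈ Icc 0 (n * δ), w ≤ s * Fk k P (R + x) := by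
  by_contra hcon
  push Not at hcon
  have := mu_prob hδ n
  have hint := (Fk_int hk1 P hδ n hR).const_mul s
  have h1 : ∫ x, s * Fk k P (R + x) ∂(mu δ n) ≤ ∫ x, w ∂(mu δ n) := by
    apply integral_mono_ae hint (integrable_const _)
    filter_upwards [mu_supp hδ n] with x hx
    exact (hcon x hx).le
  rw [integral_const_mul, integral_const, probReal_univ, one_smul] at h1
  linarith

/-- the mean is the trigonometric sum up to a small error -/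
lemma mean_CT {k : ℕ} (hk2 : 2 ≤ k) (P : Polynomial ℝ) {s : ℝ} (hs : s = 1 ∨ s = -1) {C : ℝ}
    (hV : ∀ (n : ℕ) (R δ : ℝ), 2 * k + 2 ≤ n → 1 ≤ R → 0 < δ → δ ≤ 1/2 →
      |(∫ x, Fk k P (R + x) ∂(mu δ n)) - ∑' m : ℕ, tk k δ n R m| ≤ C * (R ^ (-(1/4) : ℝ) * δ ^ (-(k:ℝ))))
    {δ α : ℝ} (hδ : 0 < δ) (hδ2 : δ ≤ 1/2) (t : ℝ) (hR : 1 ≤ α * t - ((2 * k : ℕ):ℝ) * δ) :
    |s * (∫ x, Fk k P ((α * t - ((2 * k : ℕ):ℝ) * δ) + x) ∂(mu δ (2 * (2 * k)))) -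
      CT (Finset.Icc 1 ⌊(1 / δ ^ k) ^ 3⌋₊) (dd s k δ (2 * k)) (lk k α) t| ≤
      C * ((α * t - ((2 * k : ℕ):ℝ) * δ) ^ (-(1/4) : ℝ) * δ ^ (-(k:ℝ))) + (∑' m : ℕ, dk k m * (m:ℝ) ^ (-(2:ℝ))) * δ := by
  rw [CT_tk (by omega) hδ]
  set R : ℝ := α * t - ((2 * k : ℕ):ℝ) * δ with hRd
  have h1 := hV (2 * (2 * k)) R δ (by omega) hR hδ hδ2
  have h2 := tail_small hk2 hδ (by linarith) (n := 2 * (2 * k)) (by omega) R
  set A := ∫ x, Fk k P (R + x) ∂(mu δ (2 * (2 * k))) with hA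
  set B := ∑' m : ℕ, tk k δ (2 * (2 * k)) R m with hB
  set D := ∑ m ∈ Finset.Icc 1 ⌊(1 / δ ^ k) ^ 3⌋₊, tk k δ (2 * (2 * k)) R m with hD
  have hs1 : |s| = 1 := by rcases hs with h | h <;> rw [h] <;> simp
  have e : s * A - s * D = s * (A - B) + s * (B - D) := by ring
  rw [e]
  refine (abs_add_le _ _).trans ?_
  rw [abs_mul, abs_mul, hs1, one_mul, one_mul]
  exact add_le_add h1 h2

/-- the frequencies are small -/
lemma lk_le {k : ℕ} (hk1 : 1 ≤ k) {δ : ℝ} (hδ : 0 < δ) {m : ℕ} (hm : m ∈ Finset.Icc 1 ⌊(1 / δ ^ k) ^ 3⌋₊) :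
    lk k (δ^3 / (1000 * k)) m ≤ 1/1000 := by
  have hk0 : (0:ℝ) < k := by exact_mod_cast hk1
  rw [Finset.mem_Icc] at hm
  set u : ℝ := 1 / δ ^ k with hu
  have hu0 : 0 < u := by positivity
  unfold lk
  have hMu : (m:ℝ) ≤ u ^ 3 := le_trans (by exact_mod_cast hm.2) (Nat.floor_le (by positivity))
  have h2 : (m:ℝ) ^ (1 / (k:ℝ)) ≤ (1/δ)^3 := by
    calc (m:ℝ) ^ (1 / (k:ℝ)) ≤ (u ^ 3) ^ (1 / (k:ℝ)) := by
          apply Real.rpow_le_rpow (Nat.cast_nonneg _) hMu (by positivity)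
      _ = (1/δ)^3 := by
          have : u ^ 3 = ((1/δ)^3) ^ k := by
            have e0 : u = (1/δ)^k := by rw [hu, one_div_pow]
            rw [e0, ← pow_mul, ← pow_mul, mul_comm 3 k]
          rw [this, ← Real.rpow_natCast, ← Real.rpow_mul (by positivity), mul_one_div_cancel hk0.ne', Real.rpow_one]
  calc δ^3 / (1000 * k) * (k * (m:ℝ) ^ (1 / (k:ℝ))) ≤ δ^3 / (1000 * k) * (k * (1/δ)^3) := by gcongr
    _ = 1/1000 := by field_simp

end Pool.Agent.H452R3.BS
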