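import Mathlib
import Pool.Agent.H452R3.BS.Q4
import Pool.Agent.H452R3.BS.KA

open MeasureTheory Filter Topology Set
open Pool.Agent.H387R2.Vor
open Pool.Agent.H383.PZ
open Pool.Agent.H452R2.Om
open Pool.Agent.H452R2.PO
open Pool.Agent.H383.OM (norm_ex ex_add)

namespace Pool.Agent.H452R3.BS

/-- counting integer parts -/
lemma card_image_ge' {G : Finset ℕ} {f : ℕ → ℕ} {α D : ℝ} (hα : 0 < α) (hα1 : α ≤ 1) (hD : 1 ≤ D)
    (hf : ∀ n ∈ G, |α * n - f n| ≤ D) : (G.card : ℝ) ≤ (3 * D/α) * ((G.image f).card : ℝ) := by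
  classical
  have hD0 : 0 < D := by linarith
  have h1 : G.card ≤ (⌊2 * D/α⌋₊ + 1) * (G.image f).card := by
    apply Finset.card_le_mul_card_image
    intro j _
    set F := G.filter (fun x => f x = j) with hF
    rcases F.eq_empty_or_nonempty with h0 | h0
    · rw [h0]; simp
    · set n0 := F.min' h0 with hn0
      have hn0F : n0 ∈ F := Finset.min'_mem F h0
      have hsub : F ⊆ Finset.Icc n0 (n0 + ⌊2 * D/α⌋₊) := by
        intro n hn
        rw [Finset.mem_Icc]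
        have hmin : n0 ≤ n := Finset.min'_le F n hn
        refine ⟨hmin, ?_⟩
        rw [hF, Finset.mem_filter] at hn hn0F
        have a1 := abs_le.mp (hf n hn.1)
        have a2 := abs_le.mp (hf n0 hn0F.1)
        rw [hn.2] at a1
        rw [hn0F.2] at a2
        have h3 : α * ((n:ℝ) - n0) ≤ 2 * D := by linarith [a1.1, a1.2, a2.1, a2.2]
        have h4 : ((n - n0 : ℕ) : ℝ) ≤ 2 * D/α := by
          rw [Nat.cast_sub hmin, le_div_iff₀ hα]; linarith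
        have h5 : n - n0 ≤ ⌊2 * D/α⌋₊ := Nat.le_floor h4
        omega
      calc F.card ≤ (Finset.Icc n0 (n0 + ⌊2 * D/α⌋₊)).card := Finset.card_le_card hsub
        _ = ⌊2 * D/α⌋₊ + 1 := by rw [Nat.card_Icc]; omega
  have h2 : ((⌊2 * D/α⌋₊ + 1 : ℕ) : ℝ) ≤ 3 * D/α := by
    push_cast
    have h3 : (⌊2 * D/α⌋₊ : ℝ) ≤ 2 * D/α := Nat.floor_le (by positivity)
    have h4 : 1 ≤ D/α := by rw [one_le_div hα]; linarith
    have h5 : 3 * D/α = 2 * D/α + D/α := by ring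
    linarith
  calc (G.card : ℝ) ≤ (((⌊2 * D/α⌋₊ + 1) * (G.image f).card : ℕ) : ℝ) := by exact_mod_cast h1
    _ = ((⌊2 * D/α⌋₊ + 1 : ℕ) : ℝ) * ((G.image f).card : ℝ) := by push_cast; ring
    _ ≤ _ := mul_le_mul_of_nonneg_right h2 (Nat.cast_nonneg _)

/-- the damped coefficients -/
noncomputable def de (s : ℝ) (k : ℕ) (δ : ℝ) (ν : ℕ) (α ρ η : ℝ) (m : ℕ) : ℂ :=
  dd s k δ ν m * ka ρ (η * lk k α m) ^ jj k

lemma de_norm_le {s : ℝ} (hs : s = 1 ∨ s = -1) (k : ℕ) (δ : ℝ) (ν : ℕ) (α : ℝ) {ρ : ℝ} (h0 : 0 ≤ ρ) (h1 : ρ < 1) (η : ℝ) (m : ℕ) :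
    ‖de s k δ ν α ρ η m‖ ≤ bk k δ ν m := by
  unfold de
  rw [norm_mul, dd_norm hs, norm_pow]
  have h2 := ka_norm_le h0 h1 (η * lk k α m)
  have h3 : ‖ka ρ (η * lk k α m)‖ ^ jj k ≤ 1 := pow_le_one₀ (norm_nonneg _) h2
  have := bk_nonneg k δ ν m
  nlinarith

lemma de_good {k : ℕ} {s : ℝ} (hs : s = 1 ∨ s = -1) {η : ℝ} (hη : η = 1 ∨ η = -1)
    (han : ∀ ω : ℝ, Real.pi / 9 ≤ ω → ω ≤ Real.pi / 8 →
      1/2 ≤ s * Real.cos (((k:ℝ) - 3) * Real.pi / 4 + η * (jj k * ω))) (δ : ℝ) (ν : ℕ) (α : ℝ) {ρ : ℝ} (h1 : ρ < 1) {m : ℕ}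
    (hx1 : 4 * (1 - ρ) ≤ lk k α m) (hx2 : lk k α m ≤ 1/1000) :
    ‖de s k δ ν α ρ η m‖ / 2 ≤ (de s k δ ν α ρ η m).re ∧
      bk k δ ν m * ((1 - ρ) / (4 * Real.pi * lk k α m)) ^ tau k ≤ ‖de s k δ ν α ρ η m‖ := by
  obtain ⟨r, ω, hr1, hr2, hω1, hω2, e1, e2⟩ := ka_polar h1 hx1 hx2
  have hx0 : 0 < lk k α m := by linarith
  have hb := bk_nonneg k δ ν m
  have hq0 : 0 ≤ (1 - ρ) / (4 * Real.pi * lk k α m) := by
    have := Real.pi_pos
    have h2 : 0 < 1 - ρ := by linarith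
    positivity
  have hr0 : 0 ≤ r := le_trans (by positivity) hr1
  have e3 : ka ρ (η * lk k α m) = (r : ℂ) * Complex.exp (((η * ω : ℝ) : ℂ) * Complex.I) := by
    rcases hη with h | h
    · rw [h, one_mul, one_mul]; exact e1
    · rw [h, neg_one_mul, neg_one_mul]; exact e2
  have e4 : de s k δ ν α ρ η m = ((s * bk k δ ν m * r ^ jj k : ℝ) : ℂ) *
      Complex.exp (((((k:ℝ) - 3) * Real.pi / 4 + η * (jj k * ω) : ℝ) : ℂ) * Complex.I) := by
    unfold de dd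
    rw [e3, mul_pow, ← Complex.exp_nat_mul]
    have : ((s * bk k δ ν m : ℝ) : ℂ) * Complex.exp (((((k:ℝ) - 3) * Real.pi / 4 : ℝ) : ℂ) * Complex.I) *
        ((r:ℂ) ^ jj k * Complex.exp ((jj k : ℂ) * (((η * ω : ℝ) : ℂ) * Complex.I))) =
        ((s * bk k δ ν m * r ^ jj k : ℝ) : ℂ) * (Complex.exp (((((k:ℝ) - 3) * Real.pi / 4 : ℝ) : ℂ) * Complex.I) *
          Complex.exp ((jj k : ℂ) * (((η * ω : ℝ) : ℂ) * Complex.I))) := by
      push_cast; ring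
    rw [this, ← Complex.exp_add]
    congr 2
    push_cast; ring
  have e5 : ‖de s k δ ν α ρ η m‖ = bk k δ ν m * r ^ jj k := by
    rw [e4, norm_mul, Complex.norm_exp_ofReal_mul_I, mul_one, Complex.norm_real, Real.norm_eq_abs, abs_mul, abs_mul,
      abs_of_nonneg hb, abs_of_nonneg (pow_nonneg hr0 _)]
    rcases hs with h | h <;> rw [h] <;> simp
  constructor
  · rw [e5, e4, Complex.re_ofReal_mul, Complex.exp_ofReal_mul_I_re]
    have h3 := mul_le_mul_of_nonneg_left (han ω hω1 hω2) (mul_nonneg hb (pow_nonneg hr0 (jj k)))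
    calc bk k δ ν m * r ^ jj k / 2 = bk k δ ν m * r ^ jj k * (1/2) := by ring
      _ ≤ bk k δ ν m * r ^ jj k * (s * Real.cos (((k:ℝ) - 3) * Real.pi / 4 + η * (jj k * ω))) := h3
      _ = _ := by ring
  · rw [e5]
    apply mul_le_mul_of_nonneg_left _ hb
    calc ((1 - ρ) / (4 * Real.pi * lk k α m)) ^ tau k =
        (((1 - ρ) / (4 * Real.pi * lk k α m)) ^ (1/4:ℝ)) ^ jj k := by
          rw [← Real.rpow_natCast, ← Real.rpow_mul hq0]
          congr 1; unfold tau; ring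
      _ ≤ r ^ jj k := pow_le_pow_left₀ (by positivity) hr1 _

/-- Bernoulli: the exponent is at least `k - 1` -/
lemma EE_ge {k : ℕ} (hk2 : 2 ≤ k) {τ : ℝ} (hτ0 : 0 < τ) (hτ : 2 * τ < (k:ℝ) - 1) : (k:ℝ) - 1 ≤ EE k τ := by
  have hk' : (2:ℝ) ≤ k := by exact_mod_cast hk2
  have hk0 : (0:ℝ) < k := by linarith
  unfold EE
  have hθ0 : 0 < th k τ := by unfold th; positivity
  have hθ1 : th k τ ≤ 1 := by
    unfold th
    rw [div_le_one (by positivity)]; linarith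
  have h1 : 1 + (1 / th k τ) * ((k:ℝ) - 1) ≤ (1 + ((k:ℝ) - 1)) ^ (1 / th k τ) :=
    one_add_mul_self_le_rpow_one_add (by linarith) (by rw [one_le_div hθ0]; exact hθ1)
  have e : (1:ℝ) + ((k:ℝ) - 1) = k := by ring
  rw [e] at h1
  have h2 : (k:ℝ) - 1 ≤ th k τ * ((k:ℝ) ^ (1 / th k τ) - 1) := by
    have h3 := mul_le_mul_of_nonneg_left h1 hθ0.le
    have h4 : th k τ * (1 + (1 / th k τ) * ((k:ℝ) - 1)) = th k τ + ((k:ℝ) - 1) := by field_simp
    linarith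
  have h5 : 0 ≤ ((k:ℝ) - 1) / ((k:ℝ) - 1 - 2 * τ) := div_nonneg (by linarith) (by linarith)
  have h6 : 0 ≤ th k τ * ((k:ℝ) ^ (1 / th k τ) - 1) - ((k:ℝ) - 1) := by linarith
  have := mul_nonneg h5 h6
  linarith

end Pool.Agent.H452R3.BS
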