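import Mathlib
import Pool.Agent.H452R3.BS.Defs
import Pool.Agent.H452R2.Om.O1

open Filter Topology
open Pool.Agent.H387R2.Vor
open Pool.Agent.H383.PZ
open Pool.Agent.H452R2.PO

namespace Pool.Agent.H452R3.BS

/-- the normalised weights -/
noncomputable def shu (ρ : ℝ) (n : ℕ) : ℝ := (1 - ρ) ^ (1/4:ℝ) * Pool.Agent.H452R2.Om.v ρ n

lemma shu_nonneg {ρ : ℝ} (h0 : 0 ≤ ρ) (h1 : ρ < 1) (n : ℕ) : 0 ≤ shu ρ n :=
  mul_nonneg (Real.rpow_nonneg (by linarith) _) (Pool.Agent.H452R2.Om.v_nonneg h0 n)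

lemma shu_le {ρ : ℝ} (h0 : 0 ≤ ρ) (h1 : ρ < 1) (n : ℕ) : shu ρ n ≤ ρ ^ n := by
  unfold shu Pool.Agent.H452R2.Om.v
  have a1 : (1 - ρ) ^ (1/4:ℝ) ≤ 1 := Real.rpow_le_one (by linarith) (by linarith) (by norm_num)
  have a2 : Pool.Agent.H452R2.Om.vc n ≤ 1 := Pool.Agent.H452R2.Om.vc_le_one n
  have a3 : 0 ≤ Pool.Agent.H452R2.Om.vc n := Pool.Agent.H452R2.Om.vc_nonneg n
  have a4 : 0 ≤ ρ ^ n := pow_nonneg h0 n
  have a5 : 0 ≤ (1 - ρ) ^ (1/4:ℝ) := Real.rpow_nonneg (by linarith) _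
  calc (1 - ρ) ^ (1/4:ℝ) * (Pool.Agent.H452R2.Om.vc n * ρ ^ n)
      ≤ 1 * (1 * ρ ^ n) := by
        apply mul_le_mul a1 _ (mul_nonneg a3 a4) (by norm_num)
        exact mul_le_mul_of_nonneg_right a2 a4
    _ = ρ ^ n := by ring

lemma sh_hasSum {ρ : ℝ} (h0 : 0 ≤ ρ) (h1 : ρ < 1) (x : ℝ) :
    HasSum (fun n : ℕ => ((shu ρ n : ℝ) : ℂ) * ex (n * x)) (ka ρ x) := by
  have h := (Pool.Agent.H452R2.Om.V_hasSum h0 h1 x).mul_left ((((1 - ρ) ^ (1/4:ℝ) : ℝ)) : ℂ)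
  have e : ka ρ x = ((((1 - ρ) ^ (1/4:ℝ) : ℝ)) : ℂ) *
      (1 / (1 - (ρ * Complex.exp (((2 * Real.pi * x : ℝ) : ℂ) * Complex.I))) ^ (1/4:ℂ)) := by
    unfold ka ex
    rw [mul_one_div]
  rw [e]
  refine h.congr_fun ?_ |> fun h' => h'
  intro n
  unfold shu ex
  push_cast
  ring

lemma sh_mass {ρ : ℝ} (h0 : 0 ≤ ρ) (h1 : ρ < 1) : HasSum (shu ρ) 1 := by
  have h := (Pool.Agent.H452R2.Om.v_summable h0 h1).hasSum.mul_left ((1 - ρ) ^ (1/4:ℝ))
  have e : (1 - ρ) ^ (1/4:ℝ) * ∑' n, Pool.Agent.H452R2.Om.v ρ n = 1 := by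
    have h2 := Pool.Agent.H452R2.Om.L_one h0 h1
    unfold Pool.Agent.H452R2.Om.L at h2
    simp only [mul_one] at h2
    rw [h2, ← Real.rpow_add (by linarith)]
    norm_num
  rw [e] at h
  exact h

lemma sh_ka_le {ρ : ℝ} (h0 : 0 ≤ ρ) (h1 : ρ < 1) (x : ℝ) : ‖ka ρ x‖ ≤ 1 := by
  have h := sh_hasSum h0 h1 x
  have hm := sh_mass h0 h1
  rw [← h.tsum_eq, ← hm.tsum_eq]
  have e : ∀ n : ℕ, ‖((shu ρ n : ℝ) : ℂ) * ex (n * x)‖ = shu ρ n := by
    intro n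
    rw [norm_mul, Pool.Agent.H383.OM.norm_ex, mul_one, Complex.norm_real, Real.norm_eq_abs,
      abs_of_nonneg (shu_nonneg h0 h1 n)]
  refine (norm_tsum_le_tsum_norm ?_).trans (le_of_eq ?_)
  · simp only [e]; exact hm.summable
  · simp only [e]

lemma CT_abs_le (I : Finset ℕ) (d : ℕ → ℂ) (lam : ℕ → ℝ) (t : ℝ) : |CT I d lam t| ≤ ∑ m ∈ I, ‖d m‖ := by
  unfold CT
  refine (Finset.abs_sum_le_sum_abs _ _).trans (Finset.sum_le_sum fun m _ => ?_)
  refine (Complex.abs_re_le_norm _).trans ?_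
  rw [norm_mul, Pool.Agent.H383.OM.norm_ex, mul_one]

lemma CT_hasSum {ρ : ℝ} (h0 : 0 ≤ ρ) (h1 : ρ < 1) (η : ℝ) (I : Finset ℕ) (lam : ℕ → ℝ) (t : ℝ) (d : ℕ → ℂ) :
    HasSum (fun n : ℕ => shu ρ n * CT I d lam (t + η * n)) (CT I (fun m => d m * ka ρ (η * lam m)) lam t) := by
  unfold CT
  simp only [Finset.mul_sum]
  apply hasSum_sum
  intro m _
  have h := (sh_hasSum h0 h1 (η * lam m)).mul_left (d m * ex (t * lam m))
  have hr := Complex.hasSum_re h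
  have e2 : (d m * ex (t * lam m) * ka ρ (η * lam m)).re = (d m * ka ρ (η * lam m) * ex (t * lam m)).re := by
    congr 1; ring
  rw [e2] at hr
  have e : (fun n : ℕ => shu ρ n * (d m * ex ((t + η * n) * lam m)).re) =
      fun n : ℕ => (d m * ex (t * lam m) * (((shu ρ n : ℝ) : ℂ) * ex (n * (η * lam m)))).re := by
    funext n
    rw [show (t + η * n) * lam m = t * lam m + n * (η * lam m) by ring, Pool.Agent.H383.OM.ex_add,
      ← Complex.re_ofReal_mul]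
    congr 1; ring
  rw [e]
  exact hr

lemma sh_single {ρ : ℝ} (h0 : 0 ≤ ρ) (h1 : ρ < 1) (η : ℝ) (I : Finset ℕ) (lam : ℕ → ℝ) (R : ℕ) (t w : ℝ) (hw : 0 ≤ w)
    (d : ℕ → ℂ)
    (h : w + (∑ m ∈ I, ‖d m‖) * (ρ ^ (R + 1) / (1 - ρ)) < CT I (fun m => d m * ka ρ (η * lam m)) lam t) :
    ∃ r : ℕ, r ≤ R ∧ w < CT I d lam (t + η * r) := by
  by_contra hcon
  push Not at hcon
  set D : ℝ := ∑ m ∈ I, ‖d m‖ with hD
  have hD0 : 0 ≤ D := Finset.sum_nonneg fun m _ => norm_nonneg _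
  have hS := CT_hasSum h0 h1 η I lam t d
  -- the majorant
  have hM1 : HasSum (fun n => shu ρ n * w) (1 * w) := (sh_mass h0 h1).mul_right w
  have hM2 : HasSum (fun n : ℕ => if n ≤ R then (0:ℝ) else D * ρ ^ n) (D * (ρ ^ (R + 1) / (1 - ρ))) := by
    have hz : ∑ i ∈ Finset.range (R + 1), (if i ≤ R then (0:ℝ) else D * ρ ^ i) = 0 := by
      apply Finset.sum_eq_zero
      intro i hi
      rw [if_pos (by have := Finset.mem_range.mp hi; omega)]
    have := (hasSum_nat_add_iff (f := fun n : ℕ => if n ≤ R then (0:ℝ) else D * ρ ^ n)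
      (g := D * (ρ ^ (R + 1) / (1 - ρ))) (R + 1)).mp ?_
    · rw [hz, add_zero] at this
      exact this
    · have hg := ((hasSum_geometric_of_lt_one h0 h1).mul_left (D * ρ ^ (R + 1)))
      have e1 : D * ρ ^ (R + 1) * (1 - ρ)⁻¹ = D * (ρ ^ (R + 1) / (1 - ρ)) := by
        rw [div_eq_mul_inv]; ring
      rw [e1] at hg
      have e2 : (fun n : ℕ => if n + (R + 1) ≤ R then (0:ℝ) else D * ρ ^ (n + (R + 1))) =
          fun n : ℕ => D * ρ ^ (R + 1) * ρ ^ n := by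
        funext n
        rw [if_neg (by omega), pow_add]
        ring
      rw [e2]
      exact hg
  have hle : CT I (fun m => d m * ka ρ (η * lam m)) lam t ≤ 1 * w + D * (ρ ^ (R + 1) / (1 - ρ)) := by
    refine hasSum_le (fun n => ?_) hS (hM1.add hM2)
    by_cases hn : n ≤ R
    · rw [if_pos hn, add_zero]
      exact mul_le_mul_of_nonneg_left (hcon n hn) (shu_nonneg h0 h1 n)
    · rw [if_neg hn]
      have b1 : shu ρ n * CT I d lam (t + η * n) ≤ shu ρ n * D :=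
        mul_le_mul_of_nonneg_left ((le_abs_self _).trans (CT_abs_le I d lam _)) (shu_nonneg h0 h1 n)
      have b2 : shu ρ n * D ≤ D * ρ ^ n := by
        rw [mul_comm]
        exact mul_le_mul_of_nonneg_left (shu_le h0 h1 n) hD0
      have b3 : 0 ≤ shu ρ n * w := mul_nonneg (shu_nonneg h0 h1 n) hw
      linarith
  linarith

theorem shift_many {ρ : ℝ} (h0 : 0 ≤ ρ) (h1 : ρ < 1) (η : ℝ) (I : Finset ℕ) (lam : ℕ → ℝ) (R : ℕ) (t w : ℝ) (hw : 0 ≤ w)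
    (j : ℕ) (d : ℕ → ℂ)
    (h : w + j * ((∑ m ∈ I, ‖d m‖) * (ρ ^ (R + 1) / (1 - ρ))) < CT I (fun m => d m * ka ρ (η * lam m) ^ j) lam t) :
    ∃ r : ℕ, r ≤ j * R ∧ w ≤ CT I d lam (t + η * r) := by
  set T : ℝ := (∑ m ∈ I, ‖d m‖) * (ρ ^ (R + 1) / (1 - ρ)) with hT
  have hρ : 0 ≤ ρ ^ (R + 1) / (1 - ρ) := div_nonneg (pow_nonneg h0 _) (by linarith)
  have hT0 : 0 ≤ T := mul_nonneg (Finset.sum_nonneg fun m _ => norm_nonneg _) hρ
  have key : ∀ j : ℕ, ∀ t : ℝ, w + j * T < CT I (fun m => d m * ka ρ (η * lam m) ^ j) lam t →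
      ∃ r : ℕ, r ≤ j * R ∧ w < CT I d lam (t + η * r) := by
    intro j
    induction j with
    | zero =>
      intro t ht
      refine ⟨0, by simp, ?_⟩
      simpa using ht
    | succ j ih =>
      intro t ht
      have hn : ∑ m ∈ I, ‖d m * ka ρ (η * lam m) ^ j‖ ≤ ∑ m ∈ I, ‖d m‖ := by
        apply Finset.sum_le_sum
        intro m _
        rw [norm_mul, norm_pow]
        have := pow_le_one₀ (n := j) (norm_nonneg (ka ρ (η * lam m))) (sh_ka_le h0 h1 _)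
        have h3 := norm_nonneg (d m)
        nlinarith
      have hs : (w + j * T) + (∑ m ∈ I, ‖d m * ka ρ (η * lam m) ^ j‖) * (ρ ^ (R + 1) / (1 - ρ)) <
          CT I (fun m => (d m * ka ρ (η * lam m) ^ j) * ka ρ (η * lam m)) lam t := by
        have e1 : (fun m => (d m * ka ρ (η * lam m) ^ j) * ka ρ (η * lam m)) =
            fun m => d m * ka ρ (η * lam m) ^ (j + 1) := by
          funext m; rw [pow_succ]; ring
        rw [e1]
        refine lt_of_le_of_lt ?_ ht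
        have := mul_le_mul_of_nonneg_right hn hρ
        rw [← hT] at this
        push_cast
        linarith
      obtain ⟨r, hr, hr2⟩ := sh_single h0 h1 η I lam R t (w + j * T) (by positivity) _ hs
      obtain ⟨r', hr', hr2'⟩ := ih (t + η * r) hr2
      refine ⟨r + r', ?_, ?_⟩
      · rw [add_mul, one_mul]; omega
      · have e : t + η * ((r + r' : ℕ) : ℝ) = t + η * r + η * r' := by push_cast; ring
        rw [e]
        exact hr2'
  obtain ⟨r, hr, hr2⟩ := key j t h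
  exact ⟨r, hr, hr2.le⟩

end Pool.Agent.H452R3.BS
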