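import Mathlib
import Pool.Agent.H452R3.BS.Q5
import Pool.Agent.H452R3.BS.AN
import Pool.Agent.H452R3.BS.SH

open MeasureTheory Filter Topology Set
open Pool.Agent.H387R2.Vor
open Pool.Agent.H383.PZ
open Pool.Agent.H452R2.Om
open Pool.Agent.H452R2.PO
open Pool.Agent.H383.OM (norm_ex ex_add)

namespace Pool.Agent.H452R3.BS

lemma jj_le (k : ℕ) : jj k ≤ 6 := by
  unfold jj; split_ifs <;> norm_num

lemma tau_pos (k : ℕ) : 0 < tau k := by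
  unfold tau jj; split_ifs <;> norm_num

/-- the sum of the coefficients is at most a power -/
lemma sum_bk_le {k : ℕ} (hk2 : 2 ≤ k) (δ : ℝ) (ν M : ℕ) (hM1 : 1 ≤ M) :
    ∑ m ∈ Finset.Icc 1 M, bk k δ ν m ≤ (M:ℝ)^2 * ∑' m : ℕ, dk k m * (m:ℝ) ^ (-(2:ℝ)) := by
  have hk' : (2:ℝ) ≤ k := by exact_mod_cast hk2
  have hk0 : (0:ℝ) < k := by linarith
  have hpi3 := Real.pi_gt_three
  have hD2 := summable_dk k (σ := 2) (by norm_num)
  have hc1 : 1 / (Real.pi * √(k:ℝ)) ≤ 1 := by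
    have : 1 ≤ √(k:ℝ) := by rw [Real.one_le_sqrt]; linarith
    rw [div_le_one (by positivity)]; nlinarith
  have hbk_le : ∀ m : ℕ, bk k δ ν m ≤ dk k m * (m : ℝ) ^ (-(((k:ℝ) + 1) / (2 * k)) : ℝ) := by
    intro m
    unfold bk
    have h2 := dk_nonneg k m
    have h3 : 0 ≤ dk k m * (m : ℝ) ^ (-(((k:ℝ) + 1) / (2 * k)) : ℝ) := by positivity
    calc dk k m * (m : ℝ) ^ (-(((k:ℝ) + 1) / (2 * k)) : ℝ) * (1 / (Real.pi * √(k:ℝ))) * sf k δ ν m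
        ≤ dk k m * (m : ℝ) ^ (-(((k:ℝ) + 1) / (2 * k)) : ℝ) * 1 * 1 := by
          apply mul_le_mul _ (sf_le_one k δ ν m) (sf_nonneg k δ ν m) (by positivity)
          exact mul_le_mul_of_nonneg_left hc1 h3
      _ = _ := by ring
  calc ∑ m ∈ Finset.Icc 1 M, bk k δ ν m ≤ ∑ m ∈ Finset.Icc 1 M, (M:ℝ)^2 * (dk k m * (m:ℝ) ^ (-(2:ℝ))) := by
        apply Finset.sum_le_sum
        intro m hm
        rw [Finset.mem_Icc] at hm
        have hm0 : (0:ℝ) < m := by exact_mod_cast hm.1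
        have hm1 : (1:ℝ) ≤ m := by exact_mod_cast hm.1
        have hmM : (m:ℝ) ≤ M := by exact_mod_cast hm.2
        refine (hbk_le m).trans ?_
        have h2 := dk_nonneg k m
        have h3 : (m : ℝ) ^ (-(((k:ℝ) + 1) / (2 * k)) : ℝ) ≤ 1 :=
          Real.rpow_le_one_of_one_le_of_nonpos hm1 (by
            have : 0 ≤ ((k:ℝ) + 1) / (2 * k) := by positivity
            linarith)
        have h4 : (1:ℝ) ≤ (M:ℝ)^2 * (m:ℝ) ^ (-(2:ℝ)) := by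
          have e : (m:ℝ) ^ (-(2:ℝ)) = 1 / (m:ℝ) ^ 2 := by
            rw [Real.rpow_neg hm0.le, one_div]; congr 1; exact Real.rpow_two _
          rw [e, mul_one_div, one_le_div (by positivity)]
          exact pow_le_pow_left₀ hm0.le hmM 2
        calc dk k m * (m : ℝ) ^ (-(((k:ℝ) + 1) / (2 * k)) : ℝ) ≤ dk k m * 1 := mul_le_mul_of_nonneg_left h3 h2
          _ ≤ dk k m * ((M:ℝ)^2 * (m:ℝ) ^ (-(2:ℝ))) := mul_le_mul_of_nonneg_left h4 h2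
          _ = _ := by ring
    _ = (M:ℝ)^2 * ∑ m ∈ Finset.Icc 1 M, dk k m * (m:ℝ) ^ (-(2:ℝ)) := by rw [Finset.mul_sum]
    _ ≤ _ := by
        apply mul_le_mul_of_nonneg_left _ (by positivity)
        exact hD2.sum_le_tsum _ (fun m _ => by have := dk_nonneg k m; positivity)

lemma alphaT_ge {k : ℕ} (hk0 : (0:ℝ) < k) {X K lam0 κ' α T : ℝ} (hX1 : 1 ≤ X) (hK0 : 0 < K) (hlam00 : 0 < lam0)
    (hκ'3 : 3 * κ' ≤ 1/4) (e6 : 16000 * k * lam0 * K ≤ X ^ (1/4:ℝ)) (hα : α = (X ^ (-κ'))^3/(1000 * k))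
    (hT : T = X/(4 * lam0 * K * α)) : 2 * X ^ (1/4:ℝ) ≤ α * T ^ (1/2:ℝ) := by
  have hX0 : 0 < X := by linarith
  have hα0 : 0 < α := by rw [hα]; positivity
  have hT0 : 0 < T := by rw [hT]; positivity
  have h1 : (2 * X ^ (1/4:ℝ))^2 ≤ (α * T ^ (1/2:ℝ))^2 := by
    have e1 : (2 * X ^ (1/4:ℝ))^2 ≤ 4 * X ^ (1/2:ℝ) := by
      have e2 : X ^ (1/2:ℝ) = X ^ (1/4:ℝ) * X ^ (1/4:ℝ) := by rw [← Real.rpow_add hX0]; norm_num
      rw [e2]; nlinarith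
    have e3 : (α * T ^ (1/2:ℝ))^2 = α * X / (4 * lam0 * K) := by
      rw [mul_pow, ← Real.rpow_natCast (T ^ (1/2:ℝ)) 2, ← Real.rpow_mul hT0.le]
      norm_num
      rw [hT]; field_simp
    rw [e3]
    refine e1.trans ?_
    rw [le_div_iff₀ (by positivity)]
    have e4 : α = X ^ (-(3 * κ')) / (1000 * k) := by
      rw [hα, ← Real.rpow_natCast, ← Real.rpow_mul hX0.le]
      congr 2; push_cast; ring
    have e5 : X ^ (-(1/4):ℝ) ≤ X ^ (-(3 * κ')) := Real.rpow_le_rpow_of_exponent_le hX1 (by linarith)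
    calc 4 * X ^ (1/2:ℝ) * (4 * lam0 * K) = (16000 * k * lam0 * K) * (X ^ (1/2:ℝ) / (1000 * k)) := by field_simp; ring
      _ ≤ X ^ (1/4:ℝ) * (X ^ (1/2:ℝ) / (1000 * k)) := mul_le_mul_of_nonneg_right e6 (by positivity)
      _ = (X ^ (-(1/4):ℝ) / (1000 * k)) * X := by
          have : X ^ (1/4:ℝ) * X ^ (1/2:ℝ) = X ^ (-(1/4):ℝ) * X := by
            nth_rewrite 4 [← Real.rpow_one X]
            rw [← Real.rpow_add hX0, ← Real.rpow_add hX0]; norm_num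
          calc X ^ (1/4:ℝ) * (X ^ (1/2:ℝ) / (1000 * k)) = (X ^ (1/4:ℝ) * X ^ (1/2:ℝ)) / (1000 * k) := by ring
            _ = _ := by rw [this]; ring
      _ ≤ α * X := by
          rw [e4]
          apply mul_le_mul_of_nonneg_right _ hX0.le
          exact div_le_div_of_nonneg_right e5 (by positivity)
  exact (pow_le_pow_iff_left₀ (by positivity) (by positivity) (by norm_num)).mp h1

lemma tail_le {k : ℕ} (hk2 : 2 ≤ k) {X κ' δ α x₀ σ : ℝ} {M R₁ : ℕ} (hX1 : 1 ≤ X) (hκ'2 : (k:ℝ) * κ' ≤ 1/32)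
    (hκ'3 : 3 * κ' ≤ 1/4) (hδ : δ = X ^ (-κ')) (hα : α = δ^3/(1000 * k)) (hMX : (M:ℝ) ≤ X ^ (3 * k * κ')) (hM1 : 1 ≤ M)
    (hx₀α : α * k ≤ x₀) (h1σ : 1 - σ = x₀/4) (hσ0 : 0 ≤ σ) (hR : Real.log X / (1 - σ) ≤ R₁)
    (x13 : 24000 * (∑' m : ℕ, dk k m * (m:ℝ) ^ (-(2:ℝ))) * X ^ (-(1/2):ℝ) ≤ 1/4) (ν : ℕ) :
    6 * ((∑ m ∈ Finset.Icc 1 M, bk k δ ν m) * (σ ^ (R₁ + 1) / (1 - σ))) ≤ 1/4 := by
  have hX0 : 0 < X := by linarith
  have hk0 : (0:ℝ) < k := by exact_mod_cast (by omega : 0 < k)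
  set D2 : ℝ := ∑' m : ℕ, dk k m * (m:ℝ) ^ (-(2:ℝ)) with hD2
  have hD20 : 0 ≤ D2 := tsum_nonneg (fun m => by have := dk_nonneg k m; positivity)
  have h5 : α * k = X ^ (-(3 * κ')) / 1000 := by
    rw [hα, hδ, ← Real.rpow_natCast, ← Real.rpow_mul hX0.le]
    have : -κ' * ((3:ℕ):ℝ) = -(3 * κ') := by push_cast; ring
    rw [this]; field_simp
  have h6 : X ^ (-(1/4):ℝ) ≤ X ^ (-(3 * κ')) := Real.rpow_le_rpow_of_exponent_le hX1 (by linarith)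
  have h7 : X ^ (-(1/4):ℝ) / 1000 ≤ x₀ := by
    calc X ^ (-(1/4):ℝ) / 1000 ≤ X ^ (-(3 * κ')) / 1000 := div_le_div_of_nonneg_right h6 (by norm_num)
      _ = α * k := h5.symm
      _ ≤ x₀ := hx₀α
  have hx₀0 : 0 < x₀ := lt_of_lt_of_le (by positivity) h7
  have h1σ0 : 0 < 1 - σ := by linarith
  have h2 : ∑ m ∈ Finset.Icc 1 M, bk k δ ν m ≤ X ^ (3/16:ℝ) * D2 := by
    refine (sum_bk_le hk2 δ ν M hM1).trans ?_
    rw [← hD2]
    apply mul_le_mul_of_nonneg_right _ hD20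
    calc (M:ℝ)^2 ≤ (X ^ (3 * k * κ'))^2 := pow_le_pow_left₀ (Nat.cast_nonneg _) hMX 2
      _ = X ^ (6 * (k * κ')) := by
          rw [← Real.rpow_natCast, ← Real.rpow_mul hX0.le]; congr 1; push_cast; ring
      _ ≤ X ^ (3/16:ℝ) := by
          apply Real.rpow_le_rpow_of_exponent_le hX1
          linarith
  have h3 : σ ^ (R₁ + 1) ≤ X ^ (-(1:ℝ)) := by
    have h4 : σ ≤ Real.exp (-(1 - σ)) := by
      have := Real.add_one_le_exp (-(1 - σ))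
      linarith
    calc σ ^ (R₁ + 1) ≤ (Real.exp (-(1 - σ))) ^ (R₁ + 1) := pow_le_pow_left₀ hσ0 h4 _
      _ = Real.exp (-((R₁ + 1 : ℕ) * (1 - σ))) := by rw [← Real.exp_nat_mul]; congr 1; ring
      _ ≤ Real.exp (-Real.log X) := by
          apply Real.exp_le_exp.mpr
          apply neg_le_neg
          push_cast
          have h5 : Real.log X ≤ R₁ * (1 - σ) := (div_le_iff₀ h1σ0).mp hR
          linarith
      _ = X ^ (-(1:ℝ)) := by rw [Real.rpow_def_of_pos hX0]; congr 1; ring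
  have h4 : 1 / (1 - σ) ≤ 4000 * X ^ (1/4:ℝ) := by
    rw [h1σ]
    have h8 : X ^ (1/4:ℝ) * X ^ (-(1/4):ℝ) = 1 := by rw [← Real.rpow_add hX0]; norm_num
    rw [div_le_iff₀ (by positivity)]
    have h9 : 0 < X ^ (1/4:ℝ) := by positivity
    have h10 := mul_le_mul_of_nonneg_left h7 h9.le
    have h11 : X ^ (1/4:ℝ) * (X ^ (-(1/4):ℝ) / 1000) = 1/1000 := by rw [mul_div_assoc', h8]
    rw [h11] at h10
    linarith
  have h5' : 0 ≤ σ ^ (R₁ + 1) := pow_nonneg hσ0 _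
  have h6' : 0 ≤ ∑ m ∈ Finset.Icc 1 M, bk k δ ν m := Finset.sum_nonneg (fun m _ => bk_nonneg k δ ν m)
  calc 6 * ((∑ m ∈ Finset.Icc 1 M, bk k δ ν m) * (σ ^ (R₁ + 1) / (1 - σ)))
      = 6 * ((∑ m ∈ Finset.Icc 1 M, bk k δ ν m) * (σ ^ (R₁ + 1) * (1 / (1 - σ)))) := by
        rw [div_eq_mul_one_div]
    _ ≤ 6 * ((X ^ (3/16:ℝ) * D2) * (X ^ (-(1:ℝ)) * (4000 * X ^ (1/4:ℝ)))) := by
        apply mul_le_mul_of_nonneg_left _ (by norm_num)
        apply mul_le_mul h2 _ (by positivity) (by positivity)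
        exact mul_le_mul h3 h4 (by positivity) (by positivity)
    _ = (24000 * D2) * (X ^ (3/16:ℝ) * X ^ (-(1:ℝ)) * X ^ (1/4:ℝ)) := by ring
    _ = (24000 * D2) * X ^ (-(9/16):ℝ) := by
        rw [← Real.rpow_add hX0, ← Real.rpow_add hX0]; norm_num
    _ ≤ (24000 * D2) * X ^ (-(1/2):ℝ) := by
        apply mul_le_mul_of_nonneg_left _ (by positivity)
        exact Real.rpow_le_rpow_of_exponent_le hX1 (by norm_num)
    _ ≤ 1/4 := x13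

lemma coef_ge {k : ℕ} (hk0 : (0:ℝ) < k) {m ν : ℕ} {m₀ α δ σ x₀ dn τ : ℝ} (hm₀0 : 0 < m₀) (hm0 : 0 < (m:ℝ)) (hα0 : 0 < α)
    (hs' : 1/2 ≤ sf k δ ν m) (hx₀ : x₀ = α * (k * m₀ ^ (1/(k:ℝ)))) (h1σ : 1 - σ = x₀/4)
    (h3 : bk k δ ν m * ((1 - σ) / (4 * Real.pi * lk k α m)) ^ τ ≤ dn) :
    (1/32) * (1 / (Real.pi * √(k:ℝ))) * (1/(16 * Real.pi)) ^ τ *
      (dk k m * (m : ℝ) ^ (-(((k:ℝ) + 1) / (2 * k)) : ℝ) * (m₀ / m) ^ (τ / k)) ≤ dn / 16 := by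
  have hpi := Real.pi_pos
  have hsk : 0 < √(k:ℝ) := Real.sqrt_pos.mpr hk0
  set c0 : ℝ := 1 / (Real.pi * √(k:ℝ)) with hc0
  have hc00 : 0 < c0 := by positivity
  have hdk := dk_nonneg k m
  have h2 : 0 ≤ dk k m * (m : ℝ) ^ (-(((k:ℝ) + 1) / (2 * k)) : ℝ) * c0 := by positivity
  have hbk : dk k m * (m : ℝ) ^ (-(((k:ℝ) + 1) / (2 * k)) : ℝ) * c0 * (1/2) ≤ bk k δ ν m := by
    unfold bk
    exact mul_le_mul_of_nonneg_left hs' h2
  have e1 : (1 - σ) / (4 * Real.pi * lk k α m) = (1/(16 * Real.pi)) * (m₀ / m) ^ (1/(k:ℝ)) := by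
    rw [h1σ, Real.div_rpow hm₀0.le hm0.le, hx₀]
    unfold lk
    field_simp
    norm_num
  have e2 : ((1 - σ) / (4 * Real.pi * lk k α m)) ^ τ = (1/(16 * Real.pi)) ^ τ * (m₀ / m) ^ (τ / k) := by
    rw [e1, Real.mul_rpow (by positivity) (by positivity), ← Real.rpow_mul (by positivity)]
    congr 2; ring
  rw [e2] at h3
  have h4 := mul_le_mul_of_nonneg_right hbk (show 0 ≤ (1/(16 * Real.pi)) ^ τ * (m₀ / m) ^ (τ / k) by positivity)
  calc (1/32) * c0 * (1/(16 * Real.pi)) ^ τ * (dk k m * (m : ℝ) ^ (-(((k:ℝ) + 1) / (2 * k)) : ℝ) * (m₀ / m) ^ (τ / k)) =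
      (dk k m * (m : ℝ) ^ (-(((k:ℝ) + 1) / (2 * k)) : ℝ) * c0 * (1/2) *
        ((1/(16 * Real.pi)) ^ τ * (m₀ / m) ^ (τ / k))) / 16 := by ring
    _ ≤ _ := by linarith

lemma point_exists {k : ℕ} (hk2 : 2 ≤ k) (P : Polynomial ℝ) {s : ℝ} (hs : s = 1 ∨ s = -1) {C : ℝ} (hC : 0 < C)
    (hV : ∀ (n : ℕ) (R δ : ℝ), 2 * k + 2 ≤ n → 1 ≤ R → 0 < δ → δ ≤ 1/2 →
      |(∫ x, Fk k P (R + x) ∂(mu δ n)) - ∑' m : ℕ, tk k δ n R m| ≤ C * (R ^ (-(1/4) : ℝ) * δ ^ (-(k:ℝ))))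
    {X κ' δ α t w : ℝ} (hX1 : 1 ≤ X) (hδ : δ = X ^ (-κ')) (hκ'2 : (k:ℝ) * κ' ≤ 1/32) (hδ4k : 2 * (k:ℝ) * δ ≤ 1/2)
    (x5 : C * X ^ (-(1/32):ℝ) ≤ 1/4) (x6 : (∑' m : ℕ, dk k m * (m:ℝ) ^ (-(2:ℝ))) * X ^ (-κ') ≤ 1/8)
    (hRX : X ^ (1/4:ℝ) ≤ α * t - ((2 * k : ℕ):ℝ) * δ)
    (hw : w + 1/2 ≤ CT (Finset.Icc 1 ⌊(1 / δ ^ k) ^ 3⌋₊) (dd s k δ (2 * k)) (lk k α) t) :
    ∃ y : ℝ, 1 ≤ y ∧ |y - α * t| ≤ 1/2 ∧ w ≤ s * Fk k P y := by
  have hX0 : 0 < X := by linarith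
  have hδ0 : 0 < δ := by rw [hδ]; positivity
  have hk' : (2:ℝ) ≤ k := by exact_mod_cast hk2
  have hδ2 : δ ≤ 1/2 := by nlinarith
  set R : ℝ := α * t - ((2 * k : ℕ):ℝ) * δ with hR
  have e2k : ((2 * k : ℕ):ℝ) * δ ≤ 1/2 := by push_cast; exact hδ4k
  have e2k0 : 0 ≤ ((2 * k : ℕ):ℝ) * δ := by positivity
  have hR1 : 1 ≤ R := (Real.one_le_rpow hX1 (by norm_num)).trans hRX
  have hR0 : 0 < R := by linarith
  have hmean := mean_CT hk2 P hs hV hδ0 hδ2 t (α := α) hR1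
  rw [← hR] at hmean
  have herr : C * (R ^ (-(1/4) : ℝ) * δ ^ (-(k:ℝ))) + (∑' m : ℕ, dk k m * (m:ℝ) ^ (-(2:ℝ))) * δ ≤ 1/4 + 1/8 := by
    have h1 : R ^ (-(1/4) : ℝ) ≤ X ^ (-(1/16):ℝ) := by
      calc R ^ (-(1/4) : ℝ) ≤ (X ^ (1/4:ℝ)) ^ (-(1/4) : ℝ) := Real.rpow_le_rpow_of_nonpos (by positivity) hRX (by norm_num)
        _ = _ := by rw [← Real.rpow_mul hX0.le]; norm_num
    have h2 : δ ^ (-(k:ℝ)) ≤ X ^ (1/32:ℝ) := by
      rw [hδ, ← Real.rpow_mul hX0.le]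
      apply Real.rpow_le_rpow_of_exponent_le hX1
      linarith
    have h3 : R ^ (-(1/4) : ℝ) * δ ^ (-(k:ℝ)) ≤ X ^ (-(1/32):ℝ) := by
      calc R ^ (-(1/4) : ℝ) * δ ^ (-(k:ℝ)) ≤ X ^ (-(1/16):ℝ) * X ^ (1/32:ℝ) :=
            mul_le_mul h1 h2 (by positivity) (by positivity)
        _ = _ := by rw [← Real.rpow_add hX0]; norm_num
    have h5 := mul_le_mul_of_nonneg_left h3 hC.le
    rw [← hδ] at x6
    linarith
  have hlow : w < s * ∫ x, Fk k P (R + x) ∂(mu δ (2 * (2 * k))) := by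
    have := (abs_le.mp (hmean.trans herr)).1
    linarith
  obtain ⟨x, hx, hxv⟩ := exists_of_mean' (by omega) P s hδ0 _ hR1 hlow
  refine ⟨R + x, by linarith [hx.1], ?_, hxv⟩
  have h2 : x ≤ 2 * (((2 * k : ℕ):ℝ) * δ) := by
    have := hx.2
    push_cast at this ⊢
    linarith
  rw [abs_le, hR]
  constructor <;> linarith [hx.1]

lemma fin_num2 {X L K lam0 α T g c : ℝ} (hX0 : 0 < X) (hL0 : 0 < L) (hK1 : 1 ≤ K) (hlam0 : 0 < lam0) (hα0 : 0 < α)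
    (hT : T = X/(4 * lam0 * K * α)) (hc : c ≤ K)
    (h2 : (α/(60 * L)) * (T * Real.exp (-(lam0 * (c + 1)))) ≤ g) :
    X * Real.exp (-((242 * lam0 + 1) * K)) / L ≤ g := by
  have hK0 : 0 < K := by linarith
  refine le_trans ?_ h2
  have e1 : (α/(60 * L)) * (T * Real.exp (-(lam0 * (c + 1)))) = X / L * (Real.exp (-(lam0 * (c + 1))) / (240 * lam0 * K)) := by
    rw [hT]; field_simp; norm_num
  rw [e1]
  have e0 : X * Real.exp (-((242 * lam0 + 1) * K)) / L = X / L * Real.exp (-((242 * lam0 + 1) * K)) := by ring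
  rw [e0]
  apply mul_le_mul_of_nonneg_left _ (by positivity)
  rw [le_div_iff₀ (by positivity)]
  have e2 : 240 * lam0 * K ≤ Real.exp ((240 * lam0 + 1) * K) := by
    have f1 := Real.add_one_le_exp (240 * lam0)
    have f2 := Real.add_one_le_exp K
    calc 240 * lam0 * K ≤ Real.exp (240 * lam0) * Real.exp K := by
          apply mul_le_mul (by linarith) (by linarith) hK0.le (Real.exp_pos _).le
      _ = Real.exp (240 * lam0 + K) := by rw [Real.exp_add]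
      _ ≤ _ := by
          apply Real.exp_le_exp.mpr
          nlinarith
  calc Real.exp (-((242 * lam0 + 1) * K)) * (240 * lam0 * K) ≤
      Real.exp (-((242 * lam0 + 1) * K)) * Real.exp ((240 * lam0 + 1) * K) :=
        mul_le_mul_of_nonneg_left e2 (Real.exp_pos _).le
    _ = Real.exp (-(2 * lam0 * K)) := by rw [← Real.exp_add]; congr 1; ring
    _ ≤ _ := by
        apply Real.exp_le_exp.mpr
        have : lam0 * (c + 1) ≤ lam0 * (2 * K) := mul_le_mul_of_nonneg_left (by linarith) hlam0.le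
        linarith

open Classical in
/-- **many blocks with a large value, after averaging** -/
theorem main_block2 {k : ℕ} (hk2 : 2 ≤ k) {s : ℝ} (hs : s = 1 ∨ s = -1) (hc : k % 4 = 1 ∨ s = -(sg k))
    (P : Polynomial ℝ)
    (hV : ∃ C : ℝ, 0 < C ∧ ∀ (n : ℕ) (R δ : ℝ), 2 * k + 2 ≤ n → 1 ≤ R → 0 < δ → δ ≤ 1/2 →
      |(∫ x, Fk k P (R + x) ∂(mu δ n)) - ∑' m : ℕ, tk k δ n R m| ≤ C * (R ^ (-(1/4) : ℝ) * δ ^ (-(k:ℝ))))
    {a γ : ℝ} (ha : 0 < a) (hγ : 0 ≤ γ)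
    (hsel : ∀ C₁ : ℝ, 0 < C₁ → ∃ p K₀ : ℝ, 0 < p ∧ ∀ K : ℝ, K₀ ≤ K → ∃ m₀ : ℝ, ∃ S : Finset ℕ, 1 ≤ m₀ ∧ (S.card : ℝ) ≤ K ∧
      (∀ m ∈ S, m₀ ≤ m ∧ (m:ℝ) ≤ K ^ 3) ∧
      C₁ * ∑ m ∈ Finset.Icc 1 ⌊m₀⌋₊, dk k m * (m : ℝ) ^ (-(((k:ℝ) + 1) / (2 * k)) : ℝ) +
        p * K ^ a * (Real.log K) ^ γ ≤
      ∑ m ∈ S, dk k m * (m : ℝ) ^ (-(((k:ℝ) + 1) / (2 * k)) : ℝ) * (m₀ / m) ^ (tau k / k)) :
    ∃ p κ C K₀ X₀ : ℝ, 0 < p ∧ 0 < κ ∧ 0 < C ∧ 1 ≤ K₀ ∧ ∀ X : ℝ, X₀ ≤ X → ∀ K : ℝ, K₀ ≤ K → K ≤ κ * Real.log X →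
      X * Real.exp (-(C * K)) / Real.log X ≤
        (((Finset.range (⌊X⌋₊ + 1)).filter (fun j : ℕ => 1 ≤ j ∧ ∃ y : ℝ, (j:ℝ) ≤ y ∧ y < j + 1 ∧
          p * K ^ a * (Real.log K) ^ γ ≤ s * Fk k P y)).card : ℝ) := by
  have hk' : (2:ℝ) ≤ k := by exact_mod_cast hk2
  have hk0 : (0:ℝ) < k := by linarith
  have hpi := Real.pi_pos
  have hsk : 0 < √(k:ℝ) := Real.sqrt_pos.mpr hk0
  have hτ0 := tau_pos k
  obtain ⟨C, hC, hV⟩ := hV
  obtain ⟨η, hη, han⟩ := angle hs hc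
  set c0 : ℝ := 1 / (Real.pi * √(k:ℝ)) with hc0
  have hc00 : 0 < c0 := by positivity
  set A1 : ℝ := (1/32) * c0 * (1/(16 * Real.pi)) ^ tau k with hA1
  have hA10 : 0 < A1 := by positivity
  obtain ⟨c₁, K1, hc₁, hN⟩ := hsel (c0 / A1) (by positivity)
  set D2 : ℝ := ∑' m : ℕ, dk k m * (m:ℝ) ^ (-(2:ℝ)) with hD2
  have hD20 : 0 ≤ D2 := tsum_nonneg (fun m => by have := dk_nonneg k m; positivity)
  set A₂ : ℝ := 1 + ∑' m : ℕ, (dk k m) ^ 2 * (m:ℝ) ^ (-(((k:ℝ) + 1) / k)) with hA2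
  have hA21 : 1 ≤ A₂ := by
    have : 0 ≤ ∑' m : ℕ, (dk k m) ^ 2 * (m:ℝ) ^ (-(((k:ℝ) + 1) / k)) := tsum_nonneg (fun m => by positivity)
    rw [hA2]; linarith
  obtain ⟨κ₀, lam0, hκ₀, hlam0, T0, hT01, hcount⟩ := count_gen hA21
  obtain ⟨η₀, hη₀, hsf⟩ := sf_half k (2 * k)
  set κ' : ℝ := 1/(64 * (15 * (k:ℝ) + 3)) with hκ'
  obtain ⟨hκ'0, hκ'1, hκ'2, hκ'3⟩ := kappa_facts hk2 hκ'
  have hlam00 : 0 < lam0 := by linarith
  set p : ℝ := A1 * c₁ / 4 with hp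
  have hp0 : 0 < p := by positivity
  -- conditions on K
  have evK : ∀ᶠ K : ℝ in atTop, (1/p ≤ K ^ a ∧ 3 ≤ K) ∧ K1 ≤ K :=
    ((ev_const (1/p) ha).and (eventually_ge_atTop 3)).and (eventually_ge_atTop K1)
  obtain ⟨K₀, hK₀⟩ := eventually_atTop.mp evK
  -- conditions on X
  have evX := ((((ev_log (4 * lam0) (ε := 1/2) (by norm_num)).and (ev_const (T0) (ε := 1/2) (by norm_num))).and
    ((ev_const (D2^2 * (2000 * k)) (ε := 1/64) (by norm_num)).and (ev_log (16000 * k * lam0) (ε := 1/4) (by norm_num)))).and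
    (((ev_neg C (ε := 1/32) (d := 1/4) (by norm_num) (by norm_num)).and (ev_neg D2 hκ'0 (d := 1/8) (by norm_num))).and
    (((ev_neg 1 hκ'0 (d := 1/(4 * k)) (by positivity)).and (ev_log 1 (ε := 3 * k * κ') (by positivity))).and
    ((ev_log (Real.pi * k / η₀) hκ'0).and ((Real.tendsto_log_atTop.eventually_ge_atTop 1).and (eventually_ge_atTop 4)))))).and
    ((ev_log 64 (ε := 1/4) (by norm_num)).and (ev_neg (24000 * D2) (ε := 1/2) (d := 1/4) (by norm_num) (by norm_num)))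
  obtain ⟨X₀, hX₀⟩ := eventually_atTop.mp evX
  refine ⟨p, min (κ₀/2) 1, 242 * lam0 + 1, max K₀ 1, X₀, hp0, by positivity, by positivity, le_max_right _ _, ?_⟩
  intro X hX K hK hKX
  obtain ⟨⟨⟨⟨x1, x2⟩, ⟨x3, x4⟩⟩, ⟨x5, x6⟩, ⟨x7, x8⟩, x9, x10, x11⟩, x12, x13⟩ := hX₀ X hX
  obtain ⟨⟨k1, k2⟩, k3⟩ := hK₀ K ((le_max_left _ _).trans hK)
  have hX0 : 0 < X := by linarith
  have hX1 : 1 ≤ X := by linarith
  set L : ℝ := Real.log X with hL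
  have hL0 : 0 < L := by linarith
  have hL3 : L ≤ L^3 := by
    have : L * 1 ≤ L * L^2 := mul_le_mul_of_nonneg_left (one_le_pow₀ x10) hL0.le
    calc L = L * 1 := (mul_one L).symm
      _ ≤ L * L^2 := this
      _ = L^3 := by ring
  have hK0 : 0 < K := by linarith
  have hK1 : 1 ≤ K := by linarith
  have hKL : K ≤ L := hKX.trans (by
    calc min (κ₀/2) 1 * L ≤ 1 * L := mul_le_mul_of_nonneg_right (min_le_right _ _) hL0.le
      _ = L := one_mul L)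
  have hKκ : K ≤ κ₀/2 * L := hKX.trans (mul_le_mul_of_nonneg_right (min_le_left _ _) hL0.le)
  obtain ⟨m₀, S, hm₀, hScard, hSm, hSsum⟩ := hN K k3
  have hm₀0 : 0 < m₀ := by linarith
  set W : ℝ := K ^ a * (Real.log K) ^ γ with hW
  have hlogK : 1 ≤ Real.log K := by
    have h1 : Real.exp 1 ≤ K := by
      have := Real.exp_one_lt_d9
      linarith
    have := Real.log_le_log (Real.exp_pos 1) h1
    rwa [Real.log_exp] at this
  have hW0 : 0 < W := by rw [hW]; positivity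
  have hpW : 1 ≤ p * W := by
    have h1 : 1 ≤ (Real.log K) ^ γ := Real.one_le_rpow hlogK hγ
    have h2 : 1 ≤ p * K ^ a := by
      have := mul_le_mul_of_nonneg_left k1 hp0.le
      rwa [mul_one_div_cancel hp0.ne'] at this
    rw [hW, ← mul_assoc]
    nlinarith
  -- parameters
  set δ : ℝ := X ^ (-κ') with hδ
  have hδ0 : 0 < δ := by positivity
  have hδ4k : 2 * (k:ℝ) * δ ≤ 1/2 := by
    have h1 : δ ≤ 1/(4 * k) := by rw [one_mul] at x7; exact x7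
    calc 2 * (k:ℝ) * δ ≤ 2 * k * (1/(4 * k)) := mul_le_mul_of_nonneg_left h1 (by positivity)
      _ = 1/2 := by field_simp; norm_num
  have hδ2 : δ ≤ 1/2 := by nlinarith
  have hδ1 : δ ≤ 1 := by linarith
  have hinvδ : 1/δ = X ^ κ' := by rw [hδ, Real.rpow_neg hX0.le, one_div, inv_inv]
  set α : ℝ := δ^3/(1000 * k) with hα
  have hα0 : 0 < α := by positivity
  have hα1 : α ≤ 1 := by
    rw [hα, div_le_one (by positivity)]
    have : δ^3 ≤ 1 := pow_le_one₀ hδ0.le hδ1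
    linarith
  set T : ℝ := X/(4 * lam0 * K * α) with hT
  have hT0 : 0 < T := by positivity
  have hTX : X ^ (1/2:ℝ) ≤ T := by
    have h1 : 4 * lam0 * K * α ≤ X ^ (1/2:ℝ) := by
      calc 4 * lam0 * K * α ≤ 4 * lam0 * K * 1 := mul_le_mul_of_nonneg_left hα1 (by positivity)
        _ = 4 * lam0 * K := mul_one _
        _ ≤ 4 * lam0 * L^3 := mul_le_mul_of_nonneg_left (hKL.trans hL3) (by positivity)
        _ ≤ _ := x1
    rw [hT, le_div_iff₀ (by positivity)]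
    calc X ^ (1/2:ℝ) * (4 * lam0 * K * α) ≤ X ^ (1/2:ℝ) * X ^ (1/2:ℝ) := mul_le_mul_of_nonneg_left h1 (by positivity)
      _ = X := by rw [← Real.rpow_add hX0]; norm_num
  have hTT0 : T0 ≤ T := x2.trans hTX
  have hlogT : L/2 ≤ Real.log T := by
    have := Real.log_le_log (by positivity) hTX
    rw [Real.log_rpow hX0] at this
    linarith
  have hScard' : (S.card : ℝ) ≤ κ₀ * Real.log T := by
    calc (S.card : ℝ) ≤ K := hScard
      _ ≤ κ₀ * (L/2) := by linarith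
      _ ≤ _ := mul_le_mul_of_nonneg_left hlogT hκ₀.le
  set M : ℕ := ⌊(1 / δ ^ k) ^ 3⌋₊ with hM
  have hu : (1 / δ ^ k) ^ 3 = X ^ (3 * k * κ') := by
    rw [show (1 / δ ^ k) = (1/δ)^k by rw [one_div_pow], hinvδ, ← pow_mul, ← Real.rpow_natCast,
      ← Real.rpow_mul hX0.le]
    congr 1; push_cast; ring
  have hM1 : 1 ≤ M := by
    rw [hM]; apply Nat.le_floor; push_cast; rw [hu]; exact Real.one_le_rpow hX1 (by positivity)
  have hMX : (M:ℝ) ≤ X ^ (3 * k * κ') := by rw [← hu]; exact Nat.floor_le (by rw [hu]; positivity)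
  have hSI : S ⊆ Finset.Icc 1 M := by
    intro m hm
    obtain ⟨m1, m2⟩ := hSm m hm
    have m1' : (1:ℝ) ≤ m := hm₀.trans m1
    rw [Finset.mem_Icc]
    refine ⟨by exact_mod_cast m1', ?_⟩
    rw [hM]
    apply Nat.le_floor
    rw [hu]
    calc (m:ℝ) ≤ K^3 := m2
      _ ≤ L^3 := pow_le_pow_left₀ hK0.le hKL 3
      _ = 1 * L^3 := (one_mul _).symm
      _ ≤ _ := x8
  -- the damping
  have hSne : S.Nonempty := by
    rw [Finset.nonempty_iff_ne_empty]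
    intro h0
    rw [h0, Finset.sum_empty] at hSsum
    have h1 : 0 ≤ c0 / A1 * ∑ m ∈ Finset.Icc 1 ⌊m₀⌋₊, dk k m * (m : ℝ) ^ (-(((k:ℝ) + 1) / (2 * k)) : ℝ) := by
      apply mul_nonneg (by positivity)
      apply Finset.sum_nonneg
      intro m _
      have := dk_nonneg k m
      positivity
    have h2 : 0 < c₁ * K ^ a * (Real.log K) ^ γ := by
      rw [mul_assoc, ← hW]; positivity
    linarith
  set x₀ : ℝ := α * (k * m₀ ^ (1/(k:ℝ))) with hx₀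
  have hx₀0 : 0 < x₀ := by positivity
  have hx₀le : ∀ m : ℕ, m₀ ≤ m → x₀ ≤ lk k α m := by
    intro m hm
    unfold lk
    rw [hx₀]
    have : m₀ ^ (1/(k:ℝ)) ≤ (m:ℝ) ^ (1/(k:ℝ)) := Real.rpow_le_rpow hm₀0.le hm (by positivity)
    gcongr
  have hx₀1 : x₀ ≤ 1/1000 := by
    obtain ⟨m, hm⟩ := hSne
    exact (hx₀le m (hSm m hm).1).trans (lk_le (by omega) hδ0 (hSI hm))
  have hx₀α : α * k ≤ x₀ := by
    rw [hx₀]
    have : 1 ≤ m₀ ^ (1/(k:ℝ)) := Real.one_le_rpow hm₀ (by positivity)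
    have h2 : (k:ℝ) * 1 ≤ k * m₀ ^ (1/(k:ℝ)) := mul_le_mul_of_nonneg_left this hk0.le
    rw [mul_one] at h2
    exact mul_le_mul_of_nonneg_left h2 hα0.le
  set σ : ℝ := 1 - x₀/4 with hσ
  have hσ0 : 0 ≤ σ := by rw [hσ]; linarith
  have hσ1 : σ < 1 := by rw [hσ]; linarith
  have h1σ : 1 - σ = x₀/4 := by rw [hσ]; ring
  set d : ℕ → ℂ := de s k δ (2 * k) α σ η with hd
  have hdn : ∀ m, ‖d m‖ ≤ bk k δ (2 * k) m := fun m => de_norm_le hs k δ (2 * k) α hσ0 hσ1 η m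
  have hS2 : ∀ N : ℕ, ∑ n ∈ Finset.range N, (CT (Finset.Icc 1 M) d (lk k α) n)^2 ≤ A₂ * N + T ^ (1/16:ℝ) := by
    intro N
    refine (CT_sq hk2 hδ0 hδ1 (2 * k) N hdn).trans ?_
    have h1 : D2^2 * (2000 * k) * (1/δ)^(15 * k + 3) ≤ T ^ (1/16:ℝ) := by
      have e1 : (1/δ)^(15 * k + 3) = X ^ (1/64:ℝ) := by
        rw [hinvδ, ← Real.rpow_natCast, ← Real.rpow_mul hX0.le]
        congr 1
        push_cast
        exact hκ'1
      rw [e1]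
      calc D2^2 * (2000 * k) * X ^ (1/64:ℝ) ≤ X ^ (1/64:ℝ) * X ^ (1/64:ℝ) := mul_le_mul_of_nonneg_right x3 (by positivity)
        _ = (X ^ (1/2:ℝ)) ^ (1/16:ℝ) := by rw [← Real.rpow_add hX0, ← Real.rpow_mul hX0.le]; norm_num
        _ ≤ T ^ (1/16:ℝ) := Real.rpow_le_rpow (by positivity) hTX (by norm_num)
    linarith
  -- the low set
  set Lo : Finset ℕ := (Finset.Icc 1 ⌊m₀⌋₊).filter (fun m : ℕ => (m:ℝ) < m₀) with hLo
  have hSLo : ∀ m ∈ S, m ∉ Lo := by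
    intro m hm hcon
    rw [hLo, Finset.mem_filter] at hcon
    have := (hSm m hm).1
    linarith [hcon.2]
  have hnLo : ∀ m ∈ Finset.Icc 1 M, m ∉ Lo → m₀ ≤ m := by
    intro m hm hcon
    by_contra h
    push Not at h
    apply hcon
    rw [hLo, Finset.mem_filter, Finset.mem_Icc]
    exact ⟨⟨(Finset.mem_Icc.mp hm).1, Nat.le_floor h.le⟩, h⟩
  have hgd : ∀ m ∈ Finset.Icc 1 M, m ∉ Lo → ‖d m‖ / 2 ≤ (d m).re ∧
      bk k δ (2 * k) m * ((1 - σ) / (4 * Real.pi * lk k α m)) ^ tau k ≤ ‖d m‖ := by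
    intro m hm hcon
    have hx1 : 4 * (1 - σ) ≤ lk k α m := by
      rw [h1σ]
      have := hx₀le m (hnLo m hm hcon)
      linarith
    exact de_good hs hη han δ (2 * k) α hσ1 hx1 (lk_le (by omega) hδ0 hm)
  -- lower bound for the sum over `S`
  have hSd : ∀ m ∈ S, A1 * (dk k m * (m : ℝ) ^ (-(((k:ℝ) + 1) / (2 * k)) : ℝ) * (m₀ / m) ^ (tau k / k)) ≤ ‖d m‖ / 16 := by
    intro m hm
    obtain ⟨m1, m2⟩ := hSm m hm
    have hm1 : (1:ℝ) ≤ m := hm₀.trans m1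
    have hm0 : (0:ℝ) < m := by linarith
    have hr : (m:ℝ) ^ (1 / (k:ℝ)) ≤ L^3 := by
      calc (m:ℝ) ^ (1 / (k:ℝ)) ≤ (m:ℝ) ^ (1:ℝ) := Real.rpow_le_rpow_of_exponent_le hm1 (by
            rw [div_le_one hk0]; linarith)
        _ = m := Real.rpow_one _
        _ ≤ K^3 := m2
        _ ≤ L^3 := pow_le_pow_left₀ hK0.le hKL 3
    have hx : Real.pi * (k * (m : ℝ) ^ (1 / (k:ℝ)) * δ) ≤ η₀ := by
      have e1 : Real.pi * k / η₀ * L^3 * δ ≤ 1 := by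
        have := mul_le_mul_of_nonneg_right x9 hδ0.le
        have e2 : X ^ κ' * δ = 1 := by rw [hδ, ← Real.rpow_add hX0, add_neg_cancel, Real.rpow_zero]
        rw [e2] at this
        exact this
      calc Real.pi * (k * (m : ℝ) ^ (1 / (k:ℝ)) * δ) ≤ Real.pi * (k * L^3 * δ) := by gcongr
        _ = η₀ * (Real.pi * k / η₀ * L^3 * δ) := by field_simp
        _ ≤ η₀ * 1 := mul_le_mul_of_nonneg_left e1 hη₀.le
        _ = η₀ := mul_one η₀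
    have hs' := hsf δ m (by positivity) hx
    exact coef_ge hk0 hm₀0 hm0 hα0 hs' hx₀ h1σ (hgd m (hSI hm) (hSLo m hm)).2
  have hLod : ∑ m ∈ Lo, ‖d m‖ ≤ c0 * ∑ m ∈ Finset.Icc 1 ⌊m₀⌋₊, dk k m * (m : ℝ) ^ (-(((k:ℝ) + 1) / (2 * k)) : ℝ) := by
    rw [Finset.mul_sum]
    calc ∑ m ∈ Lo, ‖d m‖ ≤ ∑ m ∈ Finset.Icc 1 ⌊m₀⌋₊, ‖d m‖ := by
          apply Finset.sum_le_sum_of_subset_of_nonneg (Finset.filter_subset _ _)
          intro m _ _; exact norm_nonneg _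
      _ ≤ _ := by
          apply Finset.sum_le_sum
          intro m _
          refine (hdn m).trans ?_
          unfold bk
          have hdk := dk_nonneg k m
          have h2 : 0 ≤ dk k m * (m : ℝ) ^ (-(((k:ℝ) + 1) / (2 * k)) : ℝ) * c0 := by positivity
          have h3 := mul_le_mul_of_nonneg_left (sf_le_one k δ (2 * k) m) h2
          rw [← hc0]
          linarith
  have hbS : 4 * (p * W) ≤ ∑ m ∈ S, ‖d m‖ / 16 - ∑ m ∈ Lo, ‖d m‖ := by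
    have h1 : A1 * ∑ m ∈ S, dk k m * (m : ℝ) ^ (-(((k:ℝ) + 1) / (2 * k)) : ℝ) * (m₀ / m) ^ (tau k / k) ≤
        ∑ m ∈ S, ‖d m‖ / 16 := by
      rw [Finset.mul_sum]
      exact Finset.sum_le_sum hSd
    have h2 := mul_le_mul_of_nonneg_left hSsum hA10.le
    have e1 : A1 * (c0 / A1 * ∑ m ∈ Finset.Icc 1 ⌊m₀⌋₊, dk k m * (m : ℝ) ^ (-(((k:ℝ) + 1) / (2 * k)) : ℝ) +
        c₁ * K ^ a * (Real.log K) ^ γ) =
        c0 * ∑ m ∈ Finset.Icc 1 ⌊m₀⌋₊, dk k m * (m : ℝ) ^ (-(((k:ℝ) + 1) / (2 * k)) : ℝ) + 4 * (p * W) := by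
      rw [hp, hW]; field_simp
    rw [e1] at h2
    linarith
  have hcnt := hcount T hTT0 S (lk k α) (fun n => CT (Finset.Icc 1 M) d (lk k α) n) (∑ m ∈ Finset.Icc 1 M, ‖d m‖)
    (fun n => CT_bdd _ _ _ _) hScard' hS2 (2 * (p * W)) (by linarith) (by
      intro ρ h0 h1
      refine le_trans ?_ (main_CT h0 h1 hSI hSLo (fun m hm hcon => (hgd m hm hcon).1))
      apply mul_le_mul_of_nonneg_right _ (L_nonneg h0 (Pr_nonneg _ S))
      linarith)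
  set G : Finset ℕ := (Finset.range (⌊lam0 * (S.card + 1) * T⌋₊ + 1)).filter
    (fun n : ℕ => T ^ (1/2:ℝ) ≤ n ∧ 2 * (p * W) ≤ CT (Finset.Icc 1 M) d (lk k α) n) with hG
  have hαT : 2 * X ^ (1/4:ℝ) ≤ α * T ^ (1/2:ℝ) := by
    refine alphaT_ge hk0 hX1 hK0 hlam00 hκ'3 ?_ hα hT
    calc 16000 * k * lam0 * K ≤ 16000 * k * lam0 * L^3 := mul_le_mul_of_nonneg_left (hKL.trans hL3) (by positivity)
      _ ≤ _ := x4
  -- the shifts
  set R₁ : ℕ := ⌈L / (1 - σ)⌉₊ with hR₁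
  have h1σ0 : 0 < 1 - σ := by linarith
  have hR₁a : L / (1 - σ) ≤ R₁ := Nat.le_ceil _
  have hR₁b : (R₁:ℝ) ≤ L / (1 - σ) + 1 := (Nat.ceil_lt_add_one (by positivity)).le
  have hjj : (jj k : ℝ) ≤ 6 := by exact_mod_cast jj_le k
  have hshift : α * ((jj k : ℝ) * R₁) ≤ 18 * L := by
    have h2 : α * (L / (1 - σ)) ≤ 2 * L := by
      rw [h1σ, mul_div_assoc', div_le_iff₀ (by positivity)]
      have h3 : L * (α * k) ≤ L * x₀ := mul_le_mul_of_nonneg_left hx₀α hL0.le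
      have h4 : L * α * 2 ≤ L * α * k := mul_le_mul_of_nonneg_left hk' (by positivity)
      nlinarith
    have h3 : α * (R₁:ℝ) ≤ 3 * L := by
      calc α * (R₁:ℝ) ≤ α * (L / (1 - σ) + 1) := mul_le_mul_of_nonneg_left hR₁b hα0.le
        _ = α * (L / (1 - σ)) + α := by ring
        _ ≤ 2 * L + L := by linarith
        _ = 3 * L := by ring
    calc α * ((jj k : ℝ) * R₁) = (jj k : ℝ) * (α * R₁) := by ring
      _ ≤ 6 * (3 * L) := mul_le_mul hjj h3 (by positivity) (by norm_num)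
      _ = 18 * L := by ring
  have htail : (jj k : ℝ) * ((∑ m ∈ Finset.Icc 1 M, ‖dd s k δ (2 * k) m‖) * (σ ^ (R₁ + 1) / (1 - σ))) ≤ 1/4 := by
    refine le_trans ?_ (tail_le hk2 hX1 hκ'2 hκ'3 hδ hα hMX hM1 hx₀α h1σ hσ0 hR₁a x13 (2 * k))
    simp only [dd_norm hs]
    apply mul_le_mul_of_nonneg_right hjj
    have h5 : 0 ≤ σ ^ (R₁ + 1) := pow_nonneg hσ0 _
    have h6 : 0 ≤ ∑ m ∈ Finset.Icc 1 M, bk k δ (2 * k) m := Finset.sum_nonneg (fun m _ => bk_nonneg k δ (2 * k) m)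
    exact mul_nonneg h6 (div_nonneg h5 h1σ0.le)
  have hL64 : 64 * L ≤ X ^ (1/4:ℝ) := by linarith
  have hy : ∀ n ∈ G, ∃ y : ℝ, 1 ≤ y ∧ |y - α * n| ≤ 18 * L + 1/2 ∧ p * W ≤ s * Fk k P y := by
    intro n hn
    rw [hG, Finset.mem_filter] at hn
    obtain ⟨_, hn1, hn2⟩ := hn
    obtain ⟨r, hr1, hr2⟩ := shift_many hσ0 hσ1 η (Finset.Icc 1 M) (lk k α) R₁ (n:ℝ) ((3/2) * (p * W))
      (by linarith) (jj k) (dd s k δ (2 * k)) (lt_of_lt_of_le (by linarith) hn2)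
    have hrα : |α * (η * r)| ≤ 18 * L := by
      have h1 : |η| = 1 := by rcases hη with h | h <;> rw [h] <;> simp
      rw [abs_mul, abs_mul, h1, one_mul, abs_of_pos hα0, abs_of_nonneg (Nat.cast_nonneg r)]
      refine le_trans ?_ hshift
      apply mul_le_mul_of_nonneg_left _ hα0.le
      exact_mod_cast hr1
    rw [abs_le] at hrα
    set t : ℝ := (n:ℝ) + η * r with ht
    have et : α * t = α * n + α * (η * r) := by rw [ht]; ring
    have e2k : ((2 * k : ℕ):ℝ) * δ ≤ 1/2 := by push_cast; exact hδ4k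
    have hRX : X ^ (1/4:ℝ) ≤ α * t - ((2 * k : ℕ):ℝ) * δ := by
      have h1 : α * T ^ (1/2:ℝ) ≤ α * n := mul_le_mul_of_nonneg_left hn1 hα0.le
      rw [et]
      linarith [hrα.1]
    obtain ⟨y, y1, y2, y3⟩ := point_exists hk2 P hs hC hV (w := p * W) hX1 hδ hκ'2 hδ4k x5 x6 hRX (by linarith)
    refine ⟨y, y1, ?_, y3⟩
    rw [abs_le] at y2 ⊢
    rw [et] at y2
    constructor <;> linarith [y2.1, y2.2, hrα.1, hrα.2]
  choose! y hy using hy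
  set f : ℕ → ℕ := fun n => ⌊y n⌋₊ with hf
  have hfG : ∀ n ∈ G, |α * n - f n| ≤ 20 * L := by
    intro n hn
    obtain ⟨y1, y2, y3⟩ := hy n hn
    have h1 : (⌊y n⌋₊ : ℝ) ≤ y n := Nat.floor_le (by linarith)
    have h2 := Nat.lt_floor_add_one (y n)
    rw [abs_le] at y2 ⊢
    simp only [hf]
    constructor <;> linarith [y2.1, y2.2]
  have hcard := card_image_ge' hα0 hα1 (show (1:ℝ) ≤ 20 * L by linarith) hfG
  set J : Finset ℕ := (Finset.range (⌊X⌋₊ + 1)).filter (fun j : ℕ => 1 ≤ j ∧ ∃ y : ℝ, (j:ℝ) ≤ y ∧ y < j + 1 ∧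
          p * K ^ a * (Real.log K) ^ γ ≤ s * Fk k P y) with hJ
  have hsub : G.image f ⊆ J := by
    intro j hj
    rw [Finset.mem_image] at hj
    obtain ⟨n, hn, rfl⟩ := hj
    obtain ⟨y1, y2, y3⟩ := hy n hn
    rw [hJ, Finset.mem_filter, Finset.mem_range]
    have hfl : (⌊y n⌋₊ : ℝ) ≤ y n := Nat.floor_le (by linarith)
    have hyX : y n ≤ X := by
      rw [hG, Finset.mem_filter, Finset.mem_range] at hn
      have h1 : n ≤ ⌊lam0 * (S.card + 1) * T⌋₊ := by omega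
      have h2 : (n:ℝ) ≤ lam0 * (S.card + 1) * T := by
        calc (n:ℝ) ≤ (⌊lam0 * (S.card + 1) * T⌋₊ : ℝ) := by exact_mod_cast h1
          _ ≤ _ := Nat.floor_le (by positivity)
      have h3 : α * n ≤ X/2 := by
        calc α * n ≤ α * (lam0 * (S.card + 1) * T) := mul_le_mul_of_nonneg_left h2 hα0.le
          _ ≤ α * (lam0 * (2 * K) * T) := by
              have : (S.card : ℝ) + 1 ≤ 2 * K := by linarith
              gcongr
          _ = X/2 := by rw [hT]; field_simp; norm_num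
      have h4 := (abs_le.mp y2).2
      have h5 : X ^ (1/4:ℝ) ≤ X := by
        calc X ^ (1/4:ℝ) ≤ X ^ (1:ℝ) := Real.rpow_le_rpow_of_exponent_le hX1 (by norm_num)
          _ = X := Real.rpow_one X
      linarith
    refine ⟨?_, ?_, y n, hfl, Nat.lt_floor_add_one (y n), ?_⟩
    · have : ⌊y n⌋₊ ≤ ⌊X⌋₊ := Nat.floor_mono hyX
      simp only [hf]; omega
    · simp only [hf]
      exact Nat.le_floor (by push_cast; exact y1)
    · rw [mul_assoc, ← hW]; exact y3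
  have hcard2 : ((G.image f).card : ℝ) ≤ (J.card : ℝ) := by exact_mod_cast Finset.card_le_card hsub
  have h1 : T * Real.exp (-(lam0 * (S.card + 1))) ≤ (3 * (20 * L)/α) * (J.card : ℝ) := by
    refine hcnt.trans (hcard.trans ?_)
    exact mul_le_mul_of_nonneg_left hcard2 (by positivity)
  have h2 : (α/(60 * L)) * (T * Real.exp (-(lam0 * (S.card + 1)))) ≤ (J.card : ℝ) := by
    have := mul_le_mul_of_nonneg_left h1 (show 0 ≤ α/(60 * L) by positivity)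
    have e : (α/(60 * L)) * ((3 * (20 * L)/α) * (J.card : ℝ)) = (J.card : ℝ) := by field_simp; norm_num
    rw [e] at this
    exact this
  exact fin_num2 hX0 hL0 hK1 hlam00 hα0 hT hScard h2

end Pool.Agent.H452R3.BS
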