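import Mathlib
import Pool.Agent.H452R3.BS.Defs

open Filter Topology
open Pool.Agent.H387R2.Vor
open Pool.Agent.H383.PZ
open Pool.Agent.H452R2.PO

namespace Pool.Agent.H452R3.BS

/-- choice of the small constant -/
theorem SE_small {A c ε : ℝ} (hA : 0 < A) (hc : 0 < c) (hε : 0 < ε) :
    ∃ c1 : ℝ, 0 < c1 ∧ c1 ≤ 1 ∧ A * c1 ^ ε ≤ c / 2 := by
  refine ⟨min 1 ((c / (2 * A)) ^ (1 / ε)), by positivity, min_le_left _ _, ?_⟩
  have h1 : (min 1 ((c / (2 * A)) ^ (1 / ε))) ^ ε ≤ c / (2 * A) := by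
    calc (min 1 ((c / (2 * A)) ^ (1 / ε))) ^ ε ≤ ((c / (2 * A)) ^ (1 / ε)) ^ ε :=
          Real.rpow_le_rpow (by positivity) (min_le_right _ _) hε.le
      _ = c / (2 * A) := by
          rw [← Real.rpow_mul (by positivity), one_div, inv_mul_cancel₀ hε.ne', Real.rpow_one]
  calc A * (min 1 ((c / (2 * A)) ^ (1 / ε))) ^ ε ≤ A * (c / (2 * A)) :=
        mul_le_mul_of_nonneg_left h1 hA.le
    _ = c / 2 := by field_simp

/-- large `K` -/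
theorem SE_large {c1 e1 K0 : ℝ} (h0 : 0 < c1) (h1 : c1 ≤ 1) (he : 0 ≤ e1) :
    ∃ K1 : ℝ, ∀ K : ℝ, K1 ≤ K → K0 ≤ K ∧ 0 < K ∧ 1 ≤ Real.log K ∧ 1 ≤ c1 * K * (Real.log K) ^ e1 ∧
      1 + Real.log (c1 * K * (Real.log K) ^ e1) ≤ 3 * Real.log K := by
  have hl : Tendsto Real.log atTop atTop := Real.tendsto_log_atTop
  have hev : ∀ᶠ y : ℝ in atTop, ‖Real.log y‖ ≤ (1 / (e1 + 1)) * ‖id y‖ :=
    Real.isLittleO_log_id_atTop.bound (by positivity)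
  have hK : ∀ᶠ K : ℝ in atTop, K0 ≤ K ∧ 0 < K ∧ 1 ≤ Real.log K ∧ 1 / c1 ≤ K ∧
      ‖Real.log (Real.log K)‖ ≤ (1 / (e1 + 1)) * ‖id (Real.log K)‖ := by
    refine (eventually_ge_atTop K0).and ((eventually_gt_atTop 0).and
      ((hl.eventually_ge_atTop 1).and ((eventually_ge_atTop (1 / c1)).and (hl.eventually hev))))
  obtain ⟨K1, hK1⟩ := eventually_atTop.1 hK
  refine ⟨K1, fun K hKK => ?_⟩
  obtain ⟨a1, a2, a3, a4, a5⟩ := hK1 K hKK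
  have hlp : 1 ≤ (Real.log K) ^ e1 := Real.one_le_rpow a3 he
  have hl0 : 0 < Real.log K := by linarith
  refine ⟨a1, a2, a3, ?_, ?_⟩
  · have : 1 ≤ c1 * K := by
      rw [div_le_iff₀ h0] at a4
      linarith
    nlinarith
  · rw [Real.log_mul (by positivity) (by positivity), Real.log_mul h0.ne' a2.ne',
      Real.log_rpow hl0]
    have b1 : Real.log c1 ≤ 0 := Real.log_nonpos h0.le h1
    rw [id, Real.norm_eq_abs, Real.norm_of_nonneg hl0.le,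
      abs_of_nonneg (Real.log_nonneg a3)] at a5
    have b2 : e1 * Real.log (Real.log K) ≤ Real.log K := by
      calc e1 * Real.log (Real.log K) ≤ e1 * (1 / (e1 + 1) * Real.log K) :=
            mul_le_mul_of_nonneg_left a5 he
        _ = (e1 / (e1 + 1)) * Real.log K := by ring
        _ ≤ 1 * Real.log K := by
            apply mul_le_mul_of_nonneg_right _ hl0.le
            rw [div_le_one (by positivity)]
            linarith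
        _ = _ := one_mul _
    linarith

/-- Task SE (uses ST and LO as hypotheses) -/
theorem select {k : ℕ} (hk : 2 ≤ k) {τ : ℝ} (hτ0 : 0 < τ) (hτ : 2 * τ < (k:ℝ) - 1)
    (hst : ∃ c K0 : ℝ, 0 < c ∧ ∀ K : ℝ, K0 ≤ K → ∃ 𝓜 : Finset ℕ, (𝓜.card : ℝ) ≤ K ∧
      (∀ m ∈ 𝓜, 1 ≤ m ∧ (m:ℝ) ≤ K ^ 3) ∧
      c * K ^ (1 - th k τ) * (Real.log K) ^ (th k τ * ((k:ℝ) ^ (1 / th k τ) - 1)) ≤
        ∑ m ∈ 𝓜, dk k m * (m : ℝ) ^ (-(th k τ)))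
    (hlo : ∀ β : ℝ, 0 < β → β < 1 → ∃ C : ℝ, 0 < C ∧ ∀ x : ℝ, 1 ≤ x →
      ∑ m ∈ Finset.Icc 1 ⌊x⌋₊, dk k m * (m : ℝ) ^ (-β) ≤ C * x ^ (1 - β) * (1 + Real.log x) ^ (k - 1))
    {C₁ : ℝ} (hC₁ : 0 < C₁) :
    ∃ p K₀ : ℝ, 0 < p ∧ ∀ K : ℝ, K₀ ≤ K → ∃ m₀ : ℝ, ∃ S : Finset ℕ, 1 ≤ m₀ ∧ (S.card : ℝ) ≤ K ∧
      (∀ m ∈ S, m₀ ≤ m ∧ (m:ℝ) ≤ K ^ 3) ∧
      C₁ * ∑ m ∈ Finset.Icc 1 ⌊m₀⌋₊, dk k m * (m : ℝ) ^ (-(((k:ℝ) + 1) / (2 * k)) : ℝ) +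
        p * K ^ (((k:ℝ) - 1) / (2 * k)) * (Real.log K) ^ (EE k τ) ≤
      ∑ m ∈ S, dk k m * (m : ℝ) ^ (-(((k:ℝ) + 1) / (2 * k)) : ℝ) * (m₀ / m) ^ (τ / k) := by
  classical
  obtain ⟨c, K0, hc, hst⟩ := hst
  have hkR : (2:ℝ) ≤ k := by exact_mod_cast hk
  have hk0 : (0:ℝ) < k := by linarith
  have hEE : EE k τ = ((k:ℝ) - 1) + ((k:ℝ) - 1) / ((k:ℝ) - 1 - 2 * τ) *
    (th k τ * ((k:ℝ) ^ (1 / th k τ) - 1) - ((k:ℝ) - 1)) := rfl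
  have hth : th k τ = ((k:ℝ) + 1 + 2 * τ) / (2 * k) := rfl
  generalize th k τ = θ at *
  generalize EE k τ = E at *
  have hθ1 : θ < 1 := by rw [hth, div_lt_one (by positivity)]; linarith
  have hθ0 : 0 < θ := by rw [hth]; positivity
  have hd : 0 < (k:ℝ) - 1 - 2 * τ := by linarith
  have hθ' : 1 - θ = ((k:ℝ) - 1 - 2 * τ) / (2 * k) := by
    rw [hth]; field_simp; ring
  have hb0 : 0 < ((k:ℝ) + 1) / (2 * k) := by positivity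
  have hb1 : ((k:ℝ) + 1) / (2 * k) < 1 := by rw [div_lt_one (by positivity)]; linarith
  obtain ⟨Cθ, hCθ, hloθ⟩ := hlo θ hθ0 hθ1
  obtain ⟨Cb, hCb, hlob⟩ := hlo _ hb0 hb1
  obtain ⟨g, hgd⟩ : ∃ g : ℝ, g = θ * ((k:ℝ) ^ (1 / θ) - 1) := ⟨_, rfl⟩
  rw [← hgd] at hEE
  simp only [← hgd] at hst
  have hg : (k:ℝ) - 1 ≤ g := by
    have h1 := one_add_mul_self_le_rpow_one_add (s := (k:ℝ) - 1) (by linarith) (p := 1 / θ)
      (by rw [le_div_iff₀ hθ0]; linarith)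
    rw [show 1 + ((k:ℝ) - 1) = k by ring] at h1
    have h2 : θ * (1 + 1 / θ * ((k:ℝ) - 1) - 1) ≤ g := by
      rw [hgd]
      apply mul_le_mul_of_nonneg_left _ hθ0.le
      linarith
    have h3 : θ * (1 + 1 / θ * ((k:ℝ) - 1) - 1) = (k:ℝ) - 1 := by field_simp; ring
    linarith
  obtain ⟨e1, he1⟩ : ∃ e1 : ℝ, e1 = (g - ((k:ℝ) - 1)) / (1 - θ) := ⟨_, rfl⟩
  have he1' : e1 * (1 - θ) = g - ((k:ℝ) - 1) := by
    rw [he1, div_mul_cancel₀ _ (by linarith)]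
  have he0 : 0 ≤ e1 := by
    rw [he1]; apply div_nonneg <;> linarith
  have hEE' : E = e1 * (τ / k) + g := by
    rw [hEE, he1, hθ']
    field_simp
    ring
  have hA0 : 0 < (Cθ + C₁ * Cb) * 3 ^ (k - 1) := by positivity
  obtain ⟨c1, hc10, hc11, hc1⟩ := SE_small hA0 hc (by linarith : 0 < 1 - θ)
  obtain ⟨K1, hK1⟩ := SE_large (K0 := K0) hc10 hc11 he0
  refine ⟨c / 2 * c1 ^ (τ / k), K1, by positivity, fun K hKK => ?_⟩
  obtain ⟨a1, a2, a3, a4, a5⟩ := hK1 K hKK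
  obtain ⟨M, hM1, hM2, hM3⟩ := hst K a1
  obtain ⟨m₀, hm₀⟩ : ∃ m₀ : ℝ, m₀ = c1 * K * (Real.log K) ^ e1 := ⟨_, rfl⟩
  rw [← hm₀] at a4 a5
  have hl0 : 0 < Real.log K := by linarith
  have hm0 : 0 < m₀ := by linarith
  refine ⟨m₀, M.filter (fun m : ℕ => m₀ ≤ (m:ℝ)), a4, ?_, ?_, ?_⟩
  · refine le_trans ?_ hM1
    exact_mod_cast Finset.card_filter_le _ _
  · intro m hm
    rw [Finset.mem_filter] at hm
    exact ⟨hm.2, (hM2 m hm.1).2⟩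
  -- the sum over `S`
  have hS1 : ∑ m ∈ M.filter (fun m : ℕ => m₀ ≤ (m:ℝ)),
      dk k m * (m : ℝ) ^ (-(((k:ℝ) + 1) / (2 * k)) : ℝ) * (m₀ / m) ^ (τ / k) =
      m₀ ^ (τ / k) * ∑ m ∈ M.filter (fun m : ℕ => m₀ ≤ (m:ℝ)), dk k m * (m : ℝ) ^ (-θ) := by
    rw [Finset.mul_sum]
    refine Finset.sum_congr rfl (fun m hm => ?_)
    rw [Finset.mem_filter] at hm
    have hmp : (0:ℝ) < m := lt_of_lt_of_le hm0 hm.2
    rw [Real.div_rpow hm0.le hmp.le, div_eq_mul_inv (m₀ ^ (τ / k)), ← Real.rpow_neg hmp.le]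
    have : (m:ℝ) ^ (-θ) = (m : ℝ) ^ (-(((k:ℝ) + 1) / (2 * k)) : ℝ) * (m:ℝ) ^ (-(τ / k)) := by
      rw [← Real.rpow_add hmp, hth]
      congr 1
      field_simp
      ring
    rw [this]
    ring
  have hS2 : ∑ m ∈ M, dk k m * (m : ℝ) ^ (-θ) ≤
      ∑ m ∈ M.filter (fun m : ℕ => m₀ ≤ (m:ℝ)), dk k m * (m : ℝ) ^ (-θ) +
      ∑ m ∈ Finset.Icc 1 ⌊m₀⌋₊, dk k m * (m : ℝ) ^ (-θ) := by
    rw [← Finset.sum_filter_add_sum_filter_not M (fun m : ℕ => m₀ ≤ (m:ℝ))]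
    apply add_le_add le_rfl
    apply Finset.sum_le_sum_of_subset_of_nonneg
    · intro m hm
      rw [Finset.mem_filter] at hm
      rw [Finset.mem_Icc]
      refine ⟨(hM2 m hm.1).1, Nat.le_floor ?_⟩
      exact (not_le.1 hm.2).le
    · intro m _ _
      exact mul_nonneg (dk_nonneg k m) (by positivity)
  have hlog3 : (1 + Real.log m₀) ^ (k - 1) ≤ (3 * Real.log K) ^ (k - 1) := by
    apply pow_le_pow_left₀ _ a5
    have := Real.log_nonneg a4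
    linarith
  -- m₀^(1-θ) (3 log K)^(k-1)
  have hX : m₀ ^ (1 - θ) * (3 * Real.log K) ^ (k - 1) =
      3 ^ (k - 1) * c1 ^ (1 - θ) * (K ^ (1 - θ) * (Real.log K) ^ g) := by
    have h1 : m₀ ^ (1 - θ) = c1 ^ (1 - θ) * K ^ (1 - θ) * (Real.log K) ^ (g - ((k:ℝ) - 1)) := by
      rw [hm₀, Real.mul_rpow (by positivity) (by positivity),
        Real.mul_rpow hc10.le a2.le, ← Real.rpow_mul hl0.le, he1']
    have h2 : (3 * Real.log K) ^ (k - 1) = 3 ^ (k - 1) * (Real.log K) ^ ((k:ℝ) - 1) := by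
      rw [mul_pow]
      congr 1
      rw [← Real.rpow_natCast, Nat.cast_sub (by omega), Nat.cast_one]
    have h3 : (Real.log K) ^ (g - ((k:ℝ) - 1)) * (Real.log K) ^ ((k:ℝ) - 1) = (Real.log K) ^ g := by
      rw [← Real.rpow_add hl0]; congr 1; ring
    rw [h1, h2, ← h3]
    ring
  have hXX0 : 0 < K ^ (1 - θ) * (Real.log K) ^ g := by positivity
  have hT : ∑ m ∈ Finset.Icc 1 ⌊m₀⌋₊, dk k m * (m : ℝ) ^ (-θ) ≤
      Cθ * (m₀ ^ (1 - θ) * (3 * Real.log K) ^ (k - 1)) := by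
    refine (hloθ m₀ a4).trans ?_
    rw [mul_assoc]
    gcongr
  have hB : ∑ m ∈ Finset.Icc 1 ⌊m₀⌋₊, dk k m * (m : ℝ) ^ (-(((k:ℝ) + 1) / (2 * k)) : ℝ) ≤
      m₀ ^ (τ / k) * (Cb * (m₀ ^ (1 - θ) * (3 * Real.log K) ^ (k - 1))) := by
    refine (hlob m₀ a4).trans ?_
    have h1 : m₀ ^ (1 - ((k:ℝ) + 1) / (2 * k)) = m₀ ^ (τ / k) * m₀ ^ (1 - θ) := by
      rw [← Real.rpow_add hm0, hθ']
      congr 1
      field_simp
      ring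
    rw [h1]
    calc Cb * (m₀ ^ (τ / k) * m₀ ^ (1 - θ)) * (1 + Real.log m₀) ^ (k - 1)
        ≤ Cb * (m₀ ^ (τ / k) * m₀ ^ (1 - θ)) * (3 * Real.log K) ^ (k - 1) := by gcongr
      _ = _ := by ring
  have hp : c / 2 * c1 ^ (τ / k) * K ^ (((k:ℝ) - 1) / (2 * k)) * (Real.log K) ^ E =
      m₀ ^ (τ / k) * (c / 2 * (K ^ (1 - θ) * (Real.log K) ^ g)) := by
    have h1 : m₀ ^ (τ / k) = c1 ^ (τ / k) * K ^ (τ / k) * (Real.log K) ^ (e1 * (τ / k)) := by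
      rw [hm₀, Real.mul_rpow (by positivity) (by positivity),
        Real.mul_rpow hc10.le a2.le, ← Real.rpow_mul hl0.le]
    have h2 : K ^ (((k:ℝ) - 1) / (2 * k)) = K ^ (τ / k) * K ^ (1 - θ) := by
      rw [← Real.rpow_add a2, hθ']
      congr 1
      field_simp
      ring
    have h3 : (Real.log K) ^ E = (Real.log K) ^ (e1 * (τ / k)) * (Real.log K) ^ g := by
      rw [← Real.rpow_add hl0, hEE']
    rw [h1, h2, h3]
    ring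
  rw [hS1, hp]
  have hm0t : 0 < m₀ ^ (τ / k) := Real.rpow_pos_of_pos hm0 _
  have hfin : C₁ * (Cb * (m₀ ^ (1 - θ) * (3 * Real.log K) ^ (k - 1))) +
      c / 2 * (K ^ (1 - θ) * (Real.log K) ^ g) ≤
      ∑ m ∈ M.filter (fun m : ℕ => m₀ ≤ (m:ℝ)), dk k m * (m : ℝ) ^ (-θ) := by
    have h1 : c * (K ^ (1 - θ) * (Real.log K) ^ g) ≤
        ∑ m ∈ M.filter (fun m : ℕ => m₀ ≤ (m:ℝ)), dk k m * (m : ℝ) ^ (-θ) +
        Cθ * (m₀ ^ (1 - θ) * (3 * Real.log K) ^ (k - 1)) := by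
      rw [← mul_assoc]
      linarith
    have h2 : (Cθ + C₁ * Cb) * (m₀ ^ (1 - θ) * (3 * Real.log K) ^ (k - 1)) ≤
        c / 2 * (K ^ (1 - θ) * (Real.log K) ^ g) := by
      have h3 := mul_le_mul_of_nonneg_right hc1 hXX0.le
      rw [hX]
      refine le_trans (le_of_eq ?_) h3
      ring
    nlinarith
  have h4 := mul_le_mul_of_nonneg_left hB hC₁.le
  have h5 := mul_le_mul_of_nonneg_left hfin hm0t.le
  nlinarith

end Pool.Agent.H452R3.BS
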