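import Mathlib
import Pool.Agent.H452R3.BS.Defs
import Pool.Agent.H327R5.PO.Sets
import Pool.Agent.H327R5.PO.Count
import Pool.Agent.H327R5.PO.Mert

set_option autoImplicit false

open Pool.Agent.H387R2.Vor
open Pool.Agent.H383.PZ

namespace Pool.Agent.H452R3.BS

namespace ST

open Filter

private theorem ev_conditions (t C1 Y0 : ℝ) : ∃ K0 : ℝ, ∀ K : ℝ, K0 ≤ K →
    2 ≤ K ∧ 1 ≤ Real.log K ∧ (Real.log K) ^ t ≤ K ^ (1/2:ℝ) ∧ Y0 ≤ K ^ (1/2:ℝ) ∧ C1 ^ 2 ≤ K := by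
  have h1 : ∀ᶠ K : ℝ in atTop, (2:ℝ) ≤ K := eventually_ge_atTop 2
  have h2 : ∀ᶠ K : ℝ in atTop, (1:ℝ) ≤ Real.log K := Real.tendsto_log_atTop.eventually_ge_atTop 1
  have h3 : ∀ᶠ K : ℝ in atTop, (Real.log K) ^ t ≤ K ^ (1/2:ℝ) := by
    have h := (isLittleO_log_rpow_rpow_atTop (s := (1/2:ℝ)) t (by norm_num)).bound (c := 1) one_pos
    filter_upwards [h, h1, h2] with K hK hK1 hK2
    rw [one_mul, Real.norm_of_nonneg (Real.rpow_nonneg (by linarith) _),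
      Real.norm_of_nonneg (Real.rpow_nonneg (by linarith) _)] at hK
    exact hK
  have h4 : ∀ᶠ K : ℝ in atTop, Y0 ≤ K ^ (1/2:ℝ) :=
    (tendsto_rpow_atTop (by norm_num : (0:ℝ) < 1/2)).eventually_ge_atTop Y0
  have h5 : ∀ᶠ K : ℝ in atTop, C1 ^ 2 ≤ K := eventually_ge_atTop _
  obtain ⟨K0, hK0⟩ := (h1.and (h2.and (h3.and (h4.and h5)))).exists_forall_of_atTop
  exact ⟨K0, fun K hK => hK0 K hK⟩

private theorem prod_inj {S T : Finset ℕ} (hS : ∀ p ∈ S, p.Prime) (hT : ∀ p ∈ T, p.Prime)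
    (h : (∏ p ∈ S, p) = ∏ p ∈ T, p) : S = T := by
  rw [← Nat.primeFactors_prod hS, ← Nat.primeFactors_prod hT, h]

theorem zt_ge_one (k : ℕ) (hk : 2 ≤ k) (θ : ℝ) (h0 : 0 < θ) : 1 ≤ (k:ℝ) ^ (1 / θ) :=
  Real.one_le_rpow (by exact_mod_cast (by omega : 1 ≤ k)) (by positivity)

theorem zt_pow (k : ℕ) (θ : ℝ) (h0 : 0 < θ) (j : ℕ) :
    (((k:ℝ) ^ (1 / θ)) ^ j) ^ (-θ) = ((k:ℝ) ^ j)⁻¹ := by
  have h1 : (0:ℝ) ≤ k := by positivity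
  rw [← Real.rpow_natCast ((k:ℝ) ^ (1 / θ)) j, ← Real.rpow_mul h1,
    ← Real.rpow_mul h1, ← Real.rpow_natCast (k:ℝ) j, ← Real.rpow_neg h1]
  congr 1
  field_simp

theorem sets_z (k : ℕ) (hk : 2 ≤ k) (θ : ℝ) (hθ0 : 0 < θ)
    (hC : ∃ c Y0 : ℝ, 0 < c ∧ 3 ≤ Y0 ∧ ∀ Y : ℝ, Y0 ≤ Y → ∃ 𝓢 : Finset (Finset ℕ),
      (∀ S ∈ 𝓢, (∀ p ∈ S, p.Prime) ∧
        ((∏ p ∈ S, p : ℕ) : ℝ) ≤ 2 * Y * ((k:ℝ) ^ (1 / θ)) ^ S.card ∧ ((∏ p ∈ S, p : ℕ) : ℝ) ≤ Y ^ 2) ∧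
      c * Y * (Real.log Y) ^ ((k:ℝ) ^ (1 / θ) - 1) ≤ (𝓢.card : ℝ)) :
    ∃ c K0 : ℝ, 0 < c ∧ ∀ K : ℝ, K0 ≤ K → ∃ 𝓜 : Finset ℕ, (𝓜.card : ℝ) ≤ K ∧
      (∀ m ∈ 𝓜, 1 ≤ m ∧ (m:ℝ) ≤ K ^ 3) ∧
      c * K ^ (1 - θ) * (Real.log K) ^ (θ * ((k:ℝ) ^ (1 / θ) - 1)) ≤
        ∑ m ∈ 𝓜, dk k m * (m : ℝ) ^ (-θ) := by
  classical
  obtain ⟨c, Y0, hc, hY0, hfam⟩ := hC
  have hk0 : (0:ℝ) < k := by exact_mod_cast (by omega : 0 < k)
  have hzw1 := zt_ge_one k hk θ hθ0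
  have hzt := zt_pow k θ hθ0
  set e : ℝ := θ with he
  have he0 : 0 < e := hθ0
  set z : ℝ := (k:ℝ) ^ (1 / e) with hz
  set t : ℝ := z - 1 with ht
  have ht0 : 0 ≤ t := by rw [ht]; linarith
  set c' : ℝ := min c 1 with hc'
  have hc'0 : 0 < c' := lt_min hc one_pos
  have hc'1 : c' ≤ 1 := min_le_right _ _
  have hc'c : c' ≤ c := min_le_left _ _
  set C1 : ℝ := 2 ^ t / c' with hC1
  have h2t : (1:ℝ) ≤ 2 ^ t := Real.one_le_rpow (by norm_num) ht0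
  have hC1one : 1 ≤ C1 := by
    rw [hC1, le_div_iff₀ hc'0]; linarith
  obtain ⟨K0, hK0⟩ := ev_conditions t C1 Y0
  refine ⟨(1 / 2) * (2 * C1) ^ (-e), K0, by positivity, ?_⟩
  intro K hK
  obtain ⟨hK2, hlog1, hlogt, hY0K, hC1K⟩ := hK0 K hK
  have hKpos : 0 < K := by linarith
  have hlogpos : 0 < Real.log K := by linarith
  have hLt : 0 < (Real.log K) ^ t := Real.rpow_pos_of_pos hlogpos _
  have hLt1 : 1 ≤ (Real.log K) ^ t := Real.one_le_rpow hlog1 ht0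
  set Y : ℝ := C1 * K / (Real.log K) ^ t with hY
  have hYpos : 0 < Y := by rw [hY]; positivity
  have hKhalf : K ^ (1/2:ℝ) * K ^ (1/2:ℝ) = K := by
    rw [← Real.rpow_add hKpos]; norm_num
  have hKhpos : 0 < K ^ (1/2:ℝ) := Real.rpow_pos_of_pos hKpos _
  have hYK : K ^ (1/2:ℝ) ≤ Y := by
    rw [hY, le_div_iff₀ hLt]
    calc K ^ (1/2:ℝ) * (Real.log K) ^ t ≤ K ^ (1/2:ℝ) * K ^ (1/2:ℝ) := by gcongr
      _ = K := hKhalf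
      _ ≤ C1 * K := by nlinarith
  have hYY0 : Y0 ≤ Y := le_trans hY0K hYK
  have hlogY : Real.log K / 2 ≤ Real.log Y := by
    have := Real.log_le_log hKhpos hYK
    rw [Real.log_rpow hKpos] at this
    linarith
  have hlogYt : (Real.log K / 2) ^ t ≤ (Real.log Y) ^ t :=
    Real.rpow_le_rpow (by positivity) hlogY ht0
  obtain ⟨𝓢, hS, hcard⟩ := hfam Y hYY0
  have hKcard : K ≤ (𝓢.card : ℝ) := by
    refine le_trans ?_ hcard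
    have h1 : c' * Y * (Real.log K / 2) ^ t = K := by
      rw [Real.div_rpow hlogpos.le (by norm_num), hY, hC1]
      field_simp
    calc K = c' * Y * (Real.log K / 2) ^ t := h1.symm
      _ ≤ c * Y * (Real.log Y) ^ t := by gcongr
  have hfl : ⌊K⌋₊ ≤ 𝓢.card := by
    have : ((⌊K⌋₊ : ℕ) : ℝ) ≤ (𝓢.card : ℝ) := le_trans (Nat.floor_le hKpos.le) hKcard
    exact_mod_cast this
  obtain ⟨𝓣, hTS, hTcard⟩ := Finset.exists_subset_card_eq hfl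
  have hinj : Set.InjOn (fun S : Finset ℕ => ∏ p ∈ S, p) (𝓣 : Set (Finset ℕ)) := by
    intro S hS1 T hT1 h
    exact prod_inj (fun p hp => ((hS S (hTS hS1)).1 p hp))
      (fun p hp => ((hS T (hTS hT1)).1 p hp)) h
  refine ⟨𝓣.image (fun S : Finset ℕ => ∏ p ∈ S, p), ?_, ?_, ?_⟩
  · rw [Finset.card_image_of_injOn hinj, hTcard]
    exact Nat.floor_le hKpos.le
  · intro m hm
    obtain ⟨S, hST, rfl⟩ := Finset.mem_image.mp hm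
    have hS' := hS S (hTS hST)
    refine ⟨?_, ?_⟩
    · exact Nat.one_le_iff_ne_zero.mpr
        (Finset.prod_ne_zero_iff.mpr (fun p hp => (hS'.1 p hp).ne_zero))
    · refine le_trans hS'.2.2 ?_
      have hYle : Y ≤ C1 * K := by
        rw [hY, div_le_iff₀ hLt]
        have : 0 ≤ C1 * K := by positivity
        nlinarith
      calc Y ^ 2 ≤ (C1 * K) ^ 2 := by gcongr
        _ = C1 ^ 2 * K ^ 2 := by ring
        _ ≤ K * K ^ 2 := by gcongr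
        _ = K ^ 3 := by ring
  · rw [Finset.sum_image hinj]
    have hterm : ∀ S ∈ 𝓣, (2 * Y) ^ (-e) ≤
        dk k (∏ p ∈ S, p) * ((∏ p ∈ S, p : ℕ) : ℝ) ^ (-e) := by
      intro S hST
      have hS' := hS S (hTS hST)
      rw [Pool.Agent.H327R5.PO.dk_prod_primes k S hS'.1]
      have hPpos : 0 < ((∏ p ∈ S, p : ℕ) : ℝ) := by
        have : 0 < ∏ p ∈ S, p := Finset.prod_pos (fun p hp => (hS'.1 p hp).pos)
        exact_mod_cast this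
      have h1 : (2 * Y * z ^ S.card) ^ (-e) ≤ ((∏ p ∈ S, p : ℕ) : ℝ) ^ (-e) :=
        Real.rpow_le_rpow_of_nonpos hPpos hS'.2.1 (by linarith)
      have h2 : (2 * Y * z ^ S.card) ^ (-e) = (2 * Y) ^ (-e) * ((k:ℝ) ^ S.card)⁻¹ := by
        rw [Real.mul_rpow (by positivity) (pow_nonneg (by linarith) _), hzt]
      have h3 : (0:ℝ) < (k:ℝ) ^ S.card := by positivity
      calc (2 * Y) ^ (-e) = (k:ℝ) ^ S.card * ((2 * Y) ^ (-e) * ((k:ℝ) ^ S.card)⁻¹) := by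
            field_simp
        _ = (k:ℝ) ^ S.card * (2 * Y * z ^ S.card) ^ (-e) := by rw [h2]
        _ ≤ (k:ℝ) ^ S.card * ((∏ p ∈ S, p : ℕ) : ℝ) ^ (-e) := by gcongr
    have hsum : (⌊K⌋₊ : ℝ) * ((2 * Y) ^ (-e)) ≤
        ∑ S ∈ 𝓣, dk k (∏ p ∈ S, p) * ((∏ p ∈ S, p : ℕ) : ℝ) ^ (-e) := by
      rw [← hTcard, ← nsmul_eq_mul, ← Finset.sum_const]
      exact Finset.sum_le_sum hterm
    refine le_trans ?_ hsum
    have hfloor : K / 2 ≤ (⌊K⌋₊ : ℝ) := by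
      have := Nat.lt_floor_add_one K
      linarith
    have hYrw : (2 * Y) ^ (-e) = (2 * C1) ^ (-e) * (K ^ (-e) * (Real.log K) ^ (e * t)) := by
      have : 2 * Y = (2 * C1) * (K * ((Real.log K) ^ t)⁻¹) := by rw [hY]; field_simp
      have hL0 : 0 ≤ ((Real.log K) ^ t)⁻¹ := inv_nonneg.mpr hLt.le
      rw [this, Real.mul_rpow (by positivity) (by positivity), Real.mul_rpow hKpos.le hL0,
        Real.inv_rpow hLt.le, ← Real.rpow_mul hlogpos.le, ← Real.rpow_neg hlogpos.le]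
      congr 3
      ring
    have hKq : K ^ (1 - e) = K * K ^ (-e) := by
      conv_rhs => rw [← Real.rpow_one K]
      rw [← Real.rpow_mul hKpos.le, ← Real.rpow_add hKpos]
      congr 1
      ring
    calc (1 / 2) * (2 * C1) ^ (-e) * K ^ (1 - e) * (Real.log K) ^ (e * t)
        = (K / 2) * (((2 * C1) ^ (-e) * (K ^ (-e) * (Real.log K) ^ (e * t)))) := by
          rw [hKq]; ring
      _ = (K / 2) * ((2 * Y) ^ (-e)) := by rw [hYrw]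
      _ ≤ (⌊K⌋₊ : ℝ) * ((2 * Y) ^ (-e)) := by gcongr

end ST

/-- Task ST -/
theorem sets_theta {k : ℕ} (hk : 2 ≤ k) {θ : ℝ} (h0 : 0 < θ) (h1 : θ < 1) :
    ∃ c K0 : ℝ, 0 < c ∧ ∀ K : ℝ, K0 ≤ K → ∃ 𝓜 : Finset ℕ, (𝓜.card : ℝ) ≤ K ∧
      (∀ m ∈ 𝓜, 1 ≤ m ∧ (m:ℝ) ≤ K ^ 3) ∧
      c * K ^ (1 - θ) * (Real.log K) ^ (θ * ((k:ℝ) ^ (1/θ) - 1)) ≤ ∑ m ∈ 𝓜, dk k m * (m : ℝ) ^ (-θ) := by
  have hz := ST.zt_ge_one k hk θ h0
  have hA : (k:ℝ) ^ (1 / θ) ≤ ((⌈(k:ℝ) ^ (1 / θ)⌉₊ + 3 : ℕ) : ℝ) := by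
    have := Nat.le_ceil ((k:ℝ) ^ (1 / θ))
    push_cast; linarith
  exact ST.sets_z k hk θ h0 (Pool.Agent.H327R5.PO.count_k ((k:ℝ) ^ (1 / θ)) hz (⌈(k:ℝ) ^ (1 / θ)⌉₊ + 3) hA (by omega)
    (Pool.Agent.H327R5.PO.mert_k ((k:ℝ) ^ (1 / θ)) (by linarith) (⌈(k:ℝ) ^ (1 / θ)⌉₊ + 3) (by omega)))

end Pool.Agent.H452R3.BS
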