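import Mathlib
import Pool.Agent.H452R3.BS.Q6
import Pool.Agent.H452R3.BS.ST
import Pool.Agent.H452R3.BS.SE
import Pool.Agent.H452R3.BS.LO2
import Pool.Agent.H452R2.PO.P6

open MeasureTheory Filter Topology Set
open Pool.Agent.H383.PZ
open Pool.Agent.H452R2.PO

namespace Pool.Agent.H452R3.BS

lemma tau_lt {k : ℕ} (hk4 : 4 ≤ k) : 2 * tau k < (k:ℝ) - 1 := by
  have hk' : (4:ℝ) ≤ k := by exact_mod_cast hk4
  unfold tau jj
  split_ifs with h1 h3
  · push_cast; linarith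
  · have : 7 ≤ k := by omega
    have h7 : (7:ℝ) ≤ k := by exact_mod_cast this
    push_cast; linarith
  · push_cast; linarith

open Classical in
/-- the tail bound in terms of the size of the values -/
theorem tail_V2 {Q : ℝ → ℕ → Prop} (hQ : ∀ (V V' : ℝ) (n : ℕ), V' ≤ V → Q V n → Q V' n) {a b γ : ℝ} (hγ : 0 ≤ γ)
    (hb : 2 ≤ b) (hab : a * b = 1)
    (h : ∃ p κ C K₀ X₀ : ℝ, 0 < p ∧ 0 < κ ∧ 0 < C ∧ 1 ≤ K₀ ∧ ∀ X : ℝ, X₀ ≤ X → ∀ K : ℝ, K₀ ≤ K → K ≤ κ * Real.log X →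
      X * Real.exp (-(C * K)) / Real.log X ≤
        (((Finset.range (⌊X⌋₊ + 1)).filter (fun n => 1 ≤ n ∧ Q (p * K ^ a * (Real.log K) ^ γ) n)).card : ℝ)) :
    ∃ C₀ V₀ : ℝ, 0 < C₀ ∧ 1 < V₀ ∧ ∀ ε : ℝ, 0 < ε → ∃ c₀ : ℝ, 0 < c₀ ∧ ∃ N₀ : ℕ, ∀ N : ℕ, N₀ ≤ N → ∀ V : ℝ, V₀ ≤ V →
      V ≤ c₀ * (Real.log N) ^ a * (Real.log (Real.log N)) ^ γ →
      (N:ℝ) ^ (1 - ε) ≤ N * Real.exp (-(C₀ * V ^ b * (Real.log V) ^ (-(b * γ)))) / Real.log N ∧
      N * Real.exp (-(C₀ * V ^ b * (Real.log V) ^ (-(b * γ)))) / Real.log N ≤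
        (((Finset.Icc 1 N).filter (fun n => Q V n)).card : ℝ) := by
  obtain ⟨p, κ, C, K₀, X₀, hp, hκ, hC, hK₀, h⟩ := h
  have hb0 : 0 < b := by linarith
  have hba : b * a = 1 := by rw [mul_comm]; exact hab
  set C₂ : ℝ := max 1 ((1/p) ^ b) with hC2
  have hC21 : 1 ≤ C₂ := le_max_left _ _
  have hC20 : 0 < C₂ := by linarith
  have ha0 : 0 < a := by
    by_contra hc
    push Not at hc
    nlinarith
  have hC2p : 1/p ≤ C₂ ^ a := by
    calc 1/p = ((1/p) ^ b) ^ a := by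
          rw [← Real.rpow_mul (by positivity), hba, Real.rpow_one]
      _ ≤ _ := Real.rpow_le_rpow (by positivity) (le_max_right _ _) ha0.le
  have hlog := Real.tendsto_log_atTop
  -- conditions on V
  have a1 : ∀ᶠ V : ℝ in atTop, b * γ * Real.log (Real.log V) ≤ Real.log V := by
    have h1 : Tendsto (fun x : ℝ => Real.log x / x) atTop (𝓝 0) := by
      have := (isLittleO_log_rpow_atTop (by norm_num : (0:ℝ) < 1)).tendsto_div_nhds_zero
      simpa using this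
    have h2 := (h1.comp hlog).eventually (gt_mem_nhds (show (0:ℝ) < 1/(b * γ + 1) by positivity))
    filter_upwards [h2, hlog.eventually_ge_atTop 1] with V h3 h4
    simp only [Function.comp_apply] at h3
    have h5 : 0 < Real.log V := by linarith
    rw [div_lt_iff₀ h5] at h3
    have h6 : 0 ≤ Real.log (Real.log V) := Real.log_nonneg h4
    have h7 : (b * γ + 1) * Real.log (Real.log V) ≤ (b * γ + 1) * (1/(b * γ + 1) * Real.log V) :=
      mul_le_mul_of_nonneg_left h3.le (by positivity)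
    have h8 : (b * γ + 1) * (1/(b * γ + 1) * Real.log V) = Real.log V := by
      have : b * γ + 1 ≠ 0 := by positivity
      field_simp
    linarith
  have a2 : ∀ᶠ V : ℝ in atTop, (1:ℝ) ≤ Real.log V := hlog.eventually_ge_atTop 1
  have a3 : ∀ᶠ V : ℝ in atTop, K₀ ≤ V := eventually_ge_atTop _
  obtain ⟨V1, hV1⟩ := eventually_atTop.mp ((a1.and a2).and a3)
  refine ⟨C * C₂, max V1 2, by positivity, lt_of_lt_of_le (by norm_num) (le_max_right _ _), ?_⟩
  intro ε hε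
  set κε : ℝ := min κ (ε/(2 * C)) with hκε
  have hκε0 : 0 < κε := by positivity
  set c₀ : ℝ := (κε / (C₂ * (2 * b) ^ (b * γ))) ^ a with hc0d
  have hc0 : 0 < c₀ := by positivity
  have hc04 : c₀ ^ b = κε / (C₂ * (2 * b) ^ (b * γ)) := by
    rw [hc0d, ← Real.rpow_mul (by positivity), hab, Real.rpow_one]
  -- conditions on N
  have hll : Tendsto (fun T : ℝ => Real.log (Real.log T)) atTop atTop := hlog.comp hlog
  have b1 : ∀ᶠ X : ℝ in atTop, C₂ * (Real.log X) ^ (1/2:ℝ) ≤ κε * Real.log X := by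
    have h1 : Tendsto (fun x : ℝ => κε * x ^ (1/2:ℝ)) atTop atTop :=
      (tendsto_rpow_atTop (by norm_num : (0:ℝ) < 1/2)).const_mul_atTop hκε0
    have h2 := (h1.comp hlog).eventually_ge_atTop C₂
    filter_upwards [h2, hlog.eventually_gt_atTop 0] with X h3 h4
    simp only [Function.comp_apply] at h3
    calc C₂ * (Real.log X) ^ (1/2:ℝ) ≤ (κε * (Real.log X) ^ (1/2:ℝ)) * (Real.log X) ^ (1/2:ℝ) :=
          mul_le_mul_of_nonneg_right h3 (by positivity)
      _ = κε * ((Real.log X) ^ (1/2:ℝ) * (Real.log X) ^ (1/2:ℝ)) := by ring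
      _ = κε * Real.log X := by rw [← Real.rpow_add h4]; norm_num
  have b2 : ∀ᶠ X : ℝ in atTop, (1:ℝ) ≤ Real.log (Real.log X) := hll.eventually_ge_atTop 1
  have b3 : ∀ᶠ X : ℝ in atTop, (1:ℝ) ≤ Real.log X := hlog.eventually_ge_atTop 1
  have b4 : ∀ᶠ X : ℝ in atTop, 1 * (Real.log X)^3 ≤ X ^ (ε/2) := ev_log 1 (by positivity)
  obtain ⟨X1, hX1⟩ := eventually_atTop.mp ((((b1.and b2).and b3).and (eventually_ge_atTop (max X₀ 1))).and b4)
  obtain ⟨N₀, hN₀⟩ := exists_nat_ge X1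
  refine ⟨c₀, hc0, N₀, ?_⟩
  intro N hN V hV hVN
  have hX : X1 ≤ (N:ℝ) := hN₀.trans (by exact_mod_cast hN)
  obtain ⟨⟨⟨⟨w1, w2⟩, w3⟩, w4⟩, w5⟩ := hX1 N hX
  have hN1 : (1:ℝ) ≤ N := (le_max_right _ _).trans w4
  have hN0 : (0:ℝ) < N := by linarith
  obtain ⟨⟨v1, v2⟩, v3⟩ := hV1 V ((le_max_left _ _).trans hV)
  have hV2 : 2 ≤ V := (le_max_right _ _).trans hV
  have hV0 : 0 < V := by linarith
  have hlV0 : 0 < Real.log V := by linarith
  have hlX0 : 0 < Real.log N := by linarith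
  set K : ℝ := C₂ * (V ^ b * (Real.log V) ^ (-(b * γ))) with hK
  have hK0 : 0 < K := by positivity
  -- log K
  have hlK : Real.log V ≤ Real.log K := by
    have e1 : Real.log K = Real.log C₂ + (b * Real.log V + -(b * γ) * Real.log (Real.log V)) := by
      rw [hK, Real.log_mul hC20.ne' (by positivity), Real.log_mul (by positivity) (by positivity), Real.log_rpow hV0,
        Real.log_rpow hlV0]
    have e2 : 0 ≤ Real.log C₂ := Real.log_nonneg hC21
    rw [e1]; nlinarith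
  have hVK : V ≤ K := (Real.log_le_log_iff hV0 hK0).mp hlK
  have hK₀K : K₀ ≤ K := v3.trans hVK
  -- upper bound for K
  have hKX : K ≤ κε * Real.log N := by
    rcases le_or_gt V ((Real.log N) ^ (1/(2 * b):ℝ)) with hc | hc
    · refine le_trans ?_ w1
      rw [hK]
      apply mul_le_mul_of_nonneg_left _ hC20.le
      have e1 : (Real.log V) ^ (-(b * γ)) ≤ 1 :=
        Real.rpow_le_one_of_one_le_of_nonpos v2 (by have : 0 ≤ b * γ := by positivity
                                                    linarith)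
      have e2 : V ^ b ≤ (Real.log N) ^ (1/2:ℝ) := by
        calc V ^ b ≤ ((Real.log N) ^ (1/(2 * b):ℝ)) ^ b := Real.rpow_le_rpow hV0.le hc hb0.le
          _ = _ := by
              rw [← Real.rpow_mul hlX0.le]; congr 1; field_simp
      calc V ^ b * (Real.log V) ^ (-(b * γ)) ≤ V ^ b * 1 := mul_le_mul_of_nonneg_left e1 (by positivity)
        _ ≤ _ := by linarith
    · have e1 : (1/(2 * b)) * Real.log (Real.log N) ≤ Real.log V := by
        have := Real.log_le_log (by positivity) hc.le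
        rwa [Real.log_rpow hlX0] at this
      have hll0 : 0 < Real.log (Real.log N) := by linarith
      have e2 : (Real.log V) ^ (-(b * γ)) ≤ (2 * b) ^ (b * γ) * (Real.log (Real.log N)) ^ (-(b * γ)) := by
        have hbg : 0 ≤ b * γ := by positivity
        calc (Real.log V) ^ (-(b * γ)) ≤ ((1/(2 * b)) * Real.log (Real.log N)) ^ (-(b * γ)) :=
              Real.rpow_le_rpow_of_nonpos (by positivity) e1 (by linarith)
          _ = _ := by
              rw [Real.mul_rpow (by positivity) hll0.le, one_div, Real.inv_rpow (by positivity),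
                Real.rpow_neg (by positivity), inv_inv]
      have e3 : V ^ b ≤ c₀ ^ b * (Real.log N * (Real.log (Real.log N)) ^ (b * γ)) := by
        calc V ^ b ≤ (c₀ * (Real.log N) ^ a * (Real.log (Real.log N)) ^ γ) ^ b := Real.rpow_le_rpow hV0.le hVN hb0.le
          _ = _ := by
              rw [Real.mul_rpow (by positivity) (by positivity), Real.mul_rpow (by positivity) (by positivity),
                ← Real.rpow_mul hlX0.le, ← Real.rpow_mul hll0.le, hab, Real.rpow_one, mul_comm γ b, mul_assoc]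
      have e4 : (Real.log (Real.log N)) ^ (b * γ) * (Real.log (Real.log N)) ^ (-(b * γ)) = 1 := by
        rw [← Real.rpow_add hll0, add_neg_cancel, Real.rpow_zero]
      calc K ≤ C₂ * ((c₀ ^ b * (Real.log N * (Real.log (Real.log N)) ^ (b * γ))) *
            ((2 * b) ^ (b * γ) * (Real.log (Real.log N)) ^ (-(b * γ)))) := by
            rw [hK]
            apply mul_le_mul_of_nonneg_left _ hC20.le
            exact mul_le_mul e3 e2 (by positivity) (by positivity)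
        _ = (C₂ * (2 * b) ^ (b * γ)) * c₀ ^ b * Real.log N *
            ((Real.log (Real.log N)) ^ (b * γ) * (Real.log (Real.log N)) ^ (-(b * γ))) := by ring
        _ = κε * Real.log N := by
            rw [e4, hc04, mul_one]
            have : C₂ * (2 * b) ^ (b * γ) ≠ 0 := by positivity
            field_simp
  have hKκ : K ≤ κ * Real.log N := hKX.trans (mul_le_mul_of_nonneg_right (min_le_left _ _) hlX0.le)
  have hCK : C * K ≤ ε/2 * Real.log N := by
    have h1 : K ≤ ε/(2 * C) * Real.log N := hKX.trans (mul_le_mul_of_nonneg_right (min_le_right _ _) hlX0.le)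
    have h2 := mul_le_mul_of_nonneg_left h1 hC.le
    have h3 : C * (ε/(2 * C) * Real.log N) = ε/2 * Real.log N := by field_simp
    linarith
  have hCK2 : C * C₂ * V ^ b * (Real.log V) ^ (-(b * γ)) = C * K := by rw [hK]; ring
  rw [hCK2]
  constructor
  · have e1 : (N:ℝ) ^ (1 - ε) * (N:ℝ) ^ (ε/2) = N * Real.exp (-(ε/2 * Real.log N)) := by
      rw [← Real.rpow_add hN0]
      have : 1 - ε + ε/2 = 1 - ε/2 := by ring
      rw [this, Real.rpow_sub hN0, Real.rpow_one, Real.rpow_def_of_pos hN0, Real.exp_neg, div_eq_mul_inv]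
      congr 3; ring
    rw [le_div_iff₀ hlX0]
    have hlog3 : Real.log N ≤ (N:ℝ) ^ (ε/2) := by
      refine le_trans ?_ w5
      have : Real.log N * 1 ≤ Real.log N * (Real.log N)^2 := mul_le_mul_of_nonneg_left (one_le_pow₀ w3) hlX0.le
      calc Real.log N = Real.log N * 1 := (mul_one _).symm
        _ ≤ Real.log N * (Real.log N)^2 := this
        _ = 1 * (Real.log N)^3 := by ring
    calc (N:ℝ) ^ (1 - ε) * Real.log N ≤ (N:ℝ) ^ (1 - ε) * (N:ℝ) ^ (ε/2) := mul_le_mul_of_nonneg_left hlog3 (by positivity)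
      _ = N * Real.exp (-(ε/2 * Real.log N)) := e1
      _ ≤ _ := by
          apply mul_le_mul_of_nonneg_left _ hN0.le
          apply Real.exp_le_exp.mpr
          linarith
  · have h1 := h N ((le_max_left _ _).trans w4) K hK₀K hKκ
    rw [Nat.floor_natCast] at h1
    refine h1.trans ?_
    have hsub : (Finset.range (N + 1)).filter (fun n => 1 ≤ n ∧ Q (p * K ^ a * (Real.log K) ^ γ) n) ⊆
        (Finset.Icc 1 N).filter (fun n => Q V n) := by
      intro n hn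
      rw [Finset.mem_filter, Finset.mem_range] at hn
      rw [Finset.mem_filter, Finset.mem_Icc]
      refine ⟨⟨hn.2.1, by omega⟩, ?_⟩
      refine hQ _ _ n ?_ hn.2.2
      have e1 : K ^ a = C₂ ^ a * (V * (Real.log V) ^ (-γ)) := by
        rw [hK, Real.mul_rpow hC20.le (by positivity), Real.mul_rpow (by positivity) (by positivity),
          ← Real.rpow_mul hV0.le, ← Real.rpow_mul hlV0.le, hba, Real.rpow_one]
        congr 3
        calc -(b * γ) * a = -((b * a) * γ) := by ring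
          _ = -γ := by rw [hba, one_mul]
      have e2 : (Real.log V) ^ γ ≤ (Real.log K) ^ γ := Real.rpow_le_rpow hlV0.le hlK hγ
      have e3 : (Real.log V) ^ (-γ) * (Real.log V) ^ γ = 1 := by
        rw [← Real.rpow_add hlV0, neg_add_cancel, Real.rpow_zero]
      have e4 : 1 ≤ p * C₂ ^ a := by
        have := mul_le_mul_of_nonneg_left hC2p hp.le
        rwa [mul_one_div_cancel hp.ne'] at this
      calc V = 1 * V := (one_mul V).symm
        _ ≤ (p * C₂ ^ a) * V := mul_le_mul_of_nonneg_right e4 hV0.le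
        _ = p * (C₂ ^ a * V) * ((Real.log V) ^ (-γ) * (Real.log V) ^ γ) := by rw [e3]; ring
        _ = p * (C₂ ^ a * (V * (Real.log V) ^ (-γ))) * (Real.log V) ^ γ := by ring
        _ = p * K ^ a * (Real.log V) ^ γ := by rw [e1]
        _ ≤ _ := mul_le_mul_of_nonneg_left e2 (by positivity)
    exact_mod_cast Finset.card_le_card hsub

lemma conv_block2 {k : ℕ} (hk2 : 2 ≤ k) (P : Polynomial ℝ) (s : ℝ) {V : ℝ} {j : ℕ} (hj : 1 ≤ j)
    (h : ∃ y : ℝ, (j:ℝ) ≤ y ∧ y < j + 1 ∧ V ≤ s * Fk k P y) :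
    ∃ x : ℝ, (j:ℝ)^k ≤ x ∧ x < (j+1)^k ∧
      V * x ^ (((k:ℝ) - 1) / (2 * k)) ≤ s * (Dk k x - x * P.eval (Real.log x)) := by
  obtain ⟨y, h1, h2, h3⟩ := h
  have hj' : (1:ℝ) ≤ j := by exact_mod_cast hj
  have hy0 : 0 < y := by linarith
  have hk0 : (0:ℝ) < k := by exact_mod_cast (by omega : 0 < k)
  refine ⟨y^k, pow_le_pow_left₀ (by linarith) h1 k, pow_lt_pow_left₀ h2 hy0.le (by omega), ?_⟩
  have e1 : (y^k) ^ (((k:ℝ) - 1) / (2 * k)) = y ^ (hk k) := by
    rw [← Real.rpow_natCast, ← Real.rpow_mul hy0.le]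
    congr 1
    unfold hk
    field_simp
  rw [e1]
  unfold Fk at h3
  have e2 : y ^ (-hk k) * y ^ (hk k) = 1 := by
    rw [← Real.rpow_add hy0, neg_add_cancel, Real.rpow_zero]
  have h4 := mul_le_mul_of_nonneg_right h3 (show 0 ≤ y ^ (hk k) by positivity)
  calc V * y ^ hk k ≤ s * ((Dk k (y ^ k) - y ^ k * P.eval (Real.log (y ^ k))) * y ^ (-hk k)) * y ^ hk k := h4
    _ = s * (Dk k (y ^ k) - y ^ k * P.eval (Real.log (y ^ k))) * (y ^ (-hk k) * y ^ (hk k)) := by ring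
    _ = _ := by rw [e2, mul_one]

open Classical in
/-- **Large values of the Piltz error term, of the second sign** -/
theorem piltz_both {k : ℕ} (hk4 : 4 ≤ k) {s : ℝ} (hs : s = 1 ∨ s = -1) (hc : k % 4 = 1 ∨ s = -(sg k))
    (P : Polynomial ℝ)
    (hV : ∃ C : ℝ, 0 < C ∧ ∀ (n : ℕ) (R δ : ℝ), 2 * k + 2 ≤ n → 1 ≤ R → 0 < δ → δ ≤ 1/2 →
      |(∫ x, Fk k P (R + x) ∂(mu δ n)) - ∑' m : ℕ, tk k δ n R m| ≤ C * (R ^ (-(1/4) : ℝ) * δ ^ (-(k:ℝ)))) :
    ∃ C₀ V₀ : ℝ, 0 < C₀ ∧ 1 < V₀ ∧ ∀ ε : ℝ, 0 < ε → ∃ c₀ : ℝ, 0 < c₀ ∧ ∃ N₀ : ℕ, ∀ N : ℕ, N₀ ≤ N → ∀ V : ℝ, V₀ ≤ V →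
      V ≤ c₀ * (Real.log N) ^ (((k:ℝ) - 1) / (2 * k)) * (Real.log (Real.log N)) ^ (EE k (tau k)) →
      (N:ℝ) ^ (1 - ε) ≤ N * Real.exp (-(C₀ * V ^ (2 * (k:ℝ) / (k - 1)) *
        (Real.log V) ^ (-(2 * (k:ℝ) / (k - 1) * EE k (tau k))))) / Real.log N ∧
      N * Real.exp (-(C₀ * V ^ (2 * (k:ℝ) / (k - 1)) *
        (Real.log V) ^ (-(2 * (k:ℝ) / (k - 1) * EE k (tau k))))) / Real.log N ≤
        (((Finset.Icc 1 N).filter (fun j : ℕ => ∃ x : ℝ, (j:ℝ)^k ≤ x ∧ x < (j+1)^k ∧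
          V * x ^ (((k:ℝ) - 1) / (2 * k)) ≤ s * (Dk k x - x * P.eval (Real.log x)))).card : ℝ) := by
  have hk2 : 2 ≤ k := by omega
  have hk' : (4:ℝ) ≤ k := by exact_mod_cast hk4
  have hk0 : (0:ℝ) < k := by linarith
  have hk1 : (0:ℝ) < (k:ℝ) - 1 := by linarith
  have hτ := tau_lt hk4
  have hEE := EE_ge hk2 (tau_pos k) hτ
  have hγ : 0 ≤ EE k (tau k) := by linarith
  have ha : 0 < ((k:ℝ) - 1) / (2 * k) := by positivity
  have hb : 2 ≤ 2 * (k:ℝ) / (k - 1) := by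
    rw [le_div_iff₀ hk1]; linarith
  have hab : ((k:ℝ) - 1) / (2 * k) * (2 * (k:ℝ) / (k - 1)) = 1 := by
    field_simp
  have hsel : ∀ C₁ : ℝ, 0 < C₁ → ∃ p K₀ : ℝ, 0 < p ∧ ∀ K : ℝ, K₀ ≤ K → ∃ m₀ : ℝ, ∃ S : Finset ℕ, 1 ≤ m₀ ∧ (S.card : ℝ) ≤ K ∧
      (∀ m ∈ S, m₀ ≤ m ∧ (m:ℝ) ≤ K ^ 3) ∧
      C₁ * ∑ m ∈ Finset.Icc 1 ⌊m₀⌋₊, dk k m * (m : ℝ) ^ (-(((k:ℝ) + 1) / (2 * k)) : ℝ) +
        p * K ^ (((k:ℝ) - 1) / (2 * k)) * (Real.log K) ^ (EE k (tau k)) ≤
      ∑ m ∈ S, dk k m * (m : ℝ) ^ (-(((k:ℝ) + 1) / (2 * k)) : ℝ) * (m₀ / m) ^ (tau k / k) := by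
    intro C₁ hC₁
    have hθ0 : 0 < th k (tau k) := by unfold th; have := tau_pos k; positivity
    have hθ1 : th k (tau k) < 1 := by
      unfold th
      rw [div_lt_one (by positivity)]; linarith
    exact select hk2 (tau_pos k) hτ (sets_theta hk2 hθ0 hθ1)
      (fun β h0 h1 => low_sum2 k hk2 h0 h1) hC₁
  have hmb := main_block2 hk2 hs hc P hV ha hγ hsel
  have key := tail_V2 (Q := fun V n => ∃ y : ℝ, (n:ℝ) ≤ y ∧ y < n + 1 ∧ V ≤ s * Fk k P y)
    (fun V V' n hVV h => by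
      obtain ⟨y, h1, h2, h3⟩ := h
      exact ⟨y, h1, h2, hVV.trans h3⟩) hγ hb hab hmb
  obtain ⟨C₀, V₀, hC₀, hV₀, key⟩ := key
  refine ⟨C₀, V₀, hC₀, hV₀, ?_⟩
  intro ε hε
  obtain ⟨c₀, hc₀, N₀, key⟩ := key ε hε
  refine ⟨c₀, hc₀, N₀, ?_⟩
  intro N hN V hV hVN
  obtain ⟨k1, k2⟩ := key N hN V hV hVN
  refine ⟨k1, k2.trans ?_⟩
  apply Nat.cast_le.mpr
  apply Finset.card_le_card
  intro j hj
  rw [Finset.mem_filter] at hj ⊢
  exact ⟨hj.1, conv_block2 hk2 P s (Finset.mem_Icc.mp hj.1).1 hj.2⟩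

end Pool.Agent.H452R3.BS
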