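import Mathlib
import Pool.Agent.H452R3.BS.Defs

open Filter Topology
open Pool.Agent.H387R2.Vor
open Pool.Agent.H383.PZ
open Pool.Agent.H452R2.PO

namespace Pool.Agent.H452R3.BS.Stubs

/-- Task SH -/
theorem shift_many {ρ : ℝ} (h0 : 0 ≤ ρ) (h1 : ρ < 1) (η : ℝ) (I : Finset ℕ) (lam : ℕ → ℝ) (R : ℕ) (t w : ℝ) (hw : 0 ≤ w)
    (j : ℕ) (d : ℕ → ℂ)
    (h : w + j * ((∑ m ∈ I, ‖d m‖) * (ρ ^ (R + 1) / (1 - ρ))) < CT I (fun m => d m * ka ρ (η * lam m) ^ j) lam t) :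
    ∃ r : ℕ, r ≤ j * R ∧ w ≤ CT I d lam (t + η * r) := by
  sorry

/-- Task KA -/
theorem ka_norm_le {ρ : ℝ} (h0 : 0 ≤ ρ) (h1 : ρ < 1) (x : ℝ) : ‖ka ρ x‖ ≤ 1 := by
  sorry

theorem ka_polar {ρ : ℝ} (h1 : ρ < 1) {x : ℝ} (hx1 : 4 * (1 - ρ) ≤ x) (hx2 : x ≤ 1/1000) :
    ∃ r ω : ℝ, ((1 - ρ) / (4 * Real.pi * x)) ^ (1/4:ℝ) ≤ r ∧ r ≤ 1 ∧ Real.pi / 9 ≤ ω ∧ ω ≤ Real.pi / 8 ∧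
      ka ρ x = (r : ℂ) * Complex.exp (((ω : ℝ) : ℂ) * Complex.I) ∧
      ka ρ (-x) = (r : ℂ) * Complex.exp (((-ω : ℝ) : ℂ) * Complex.I) := by
  sorry

/-- Task AN -/
theorem angle {k : ℕ} {s : ℝ} (hs : s = 1 ∨ s = -1) (hc : k % 4 = 1 ∨ s = -(sg k)) :
    ∃ η : ℝ, (η = 1 ∨ η = -1) ∧ ∀ ω : ℝ, Real.pi / 9 ≤ ω → ω ≤ Real.pi / 8 →
      1/2 ≤ s * Real.cos (((k:ℝ) - 3) * Real.pi / 4 + η * (jj k * ω)) := by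
  sorry

/-- Task ST -/
theorem sets_theta {k : ℕ} (hk : 2 ≤ k) {θ : ℝ} (h0 : 0 < θ) (h1 : θ < 1) :
    ∃ c K0 : ℝ, 0 < c ∧ ∀ K : ℝ, K0 ≤ K → ∃ 𝓜 : Finset ℕ, (𝓜.card : ℝ) ≤ K ∧
      (∀ m ∈ 𝓜, 1 ≤ m ∧ (m:ℝ) ≤ K ^ 3) ∧
      c * K ^ (1 - θ) * (Real.log K) ^ (θ * ((k:ℝ) ^ (1/θ) - 1)) ≤ ∑ m ∈ 𝓜, dk k m * (m : ℝ) ^ (-θ) := by
  sorry

/-- Task LO -/
theorem low_sum (k : ℕ) (hk : 1 ≤ k) {β : ℝ} (h0 : 0 < β) (h1 : β < 1) :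
    ∃ C : ℝ, 0 < C ∧ ∀ x : ℝ, 1 ≤ x →
      ∑ m ∈ Finset.Icc 1 ⌊x⌋₊, dk k m * (m : ℝ) ^ (-β) ≤ C * x ^ (1 - β) * (1 + Real.log x) ^ (k - 1) := by
  sorry

/-- Task SE (uses ST and LO as hypotheses) -/
theorem select {k : ℕ} (hk : 2 ≤ k) {τ : ℝ} (hτ0 : 0 < τ) (hτ : 2 * τ < (k:ℝ) - 1)
    (hst : ∃ c K0 : ℝ, 0 < c ∧ ∀ K : ℝ, K0 ≤ K → ∃ 𝓜 : Finset ℕ, (𝓜.card : ℝ) ≤ K ∧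
      (∀ m ∈ 𝓜, 1 ≤ m ∧ (m:ℝ) ≤ K ^ 3) ∧
      c * K ^ (1 - th k τ) * (Real.log K) ^ (th k τ * ((k:ℝ) ^ (1 / th k τ) - 1)) ≤
        ∑ m ∈ 𝓜, dk k m * (m : ℝ) ^ (-(th k τ)))
    (hlo : ∀ β : ℝ, 0 < β → β < 1 → ∃ C : ℝ, 0 < C ∧ ∀ x : ℝ, 1 ≤ x →
      ∑ m ∈ Finset.Icc 1 ⌊x⌋₊, dk k m * (m : ℝ) ^ (-β) ≤ C * x ^ (1 - β) * (1 + Real.log x) ^ (k - 1))
    {C₁ : ℝ} (hC₁ : 0 < C₁) :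
    ∃ p K₀ : ℝ, 0 < p ∧ ∀ K : ℝ, K₀ ≤ K → ∃ m₀ : ℝ, ∃ S : Finset ℕ, 1 ≤ m₀ ∧ (S.card : ℝ) ≤ K ∧
      (∀ m ∈ S, m₀ ≤ m ∧ (m:ℝ) ≤ K ^ 3) ∧
      C₁ * ∑ m ∈ Finset.Icc 1 ⌊m₀⌋₊, dk k m * (m : ℝ) ^ (-(((k:ℝ) + 1) / (2 * k)) : ℝ) +
        p * K ^ (((k:ℝ) - 1) / (2 * k)) * (Real.log K) ^ (EE k τ) ≤
      ∑ m ∈ S, dk k m * (m : ℝ) ^ (-(((k:ℝ) + 1) / (2 * k)) : ℝ) * (m₀ / m) ^ (τ / k) := by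
  sorry

end Pool.Agent.H452R3.BS.Stubs
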